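import Pool.Agent.Helper40.GP.Stm

/-!
# Polynomials with a central gap: the general (not necessarily irreducible) form
-/

open Polynomial

namespace Pool.Agent.Helper40.GP

/-! ## RZ: the distinct zeros of `f = A + s X ^ n A^*` -/

def S_RZ : Prop := ∀ (A : ℤ[X]) (s : ℤ) (n : ℕ), Good A → (s = 1 ∨ s = -1) → A.natDegree < n →
  ∃ (d : ℕ) (z : Fin d → ℂ) (ρ : Fin d → ℝ), n ≤ d + A.natDegree ∧ d ≤ n + A.natDegree ∧
    1 ≤ RR A ∧ 1 ≤ V2 z ∧ (∀ i, (cc A).eval (z i) ≠ 0 ∧ (cc A.reverse).eval (z i) ≠ 0) ∧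
    (∏ i, max 1 ‖z i‖) ≤ (cc (gp A s n)).mahlerMeasure ∧
    ∏ i, HH A (z i) ≤ RR A * (cc (gp A s n)).mahlerMeasure ^ n ∧
    (∀ i, 0 < ρ i) ∧ (∀ i, ρ i ≤ 1) ∧
    (∀ i, ∀ x ∈ (cc A).roots, ρ i ≤ ‖z i - x‖) ∧
    (∀ i, ∀ x ∈ (cc A.reverse).roots, ρ i ≤ ‖z i - x‖) ∧
    ∑ i, Real.log (1 / ρ i) ≤ 8 * (n + A.natDegree : ℕ) * Real.log (6 * (n + A.natDegree : ℕ)) +
      4 * (n + A.natDegree : ℕ) * (Real.log (cc (gp A s n)).mahlerMeasure +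
        Real.log (cc A).mahlerMeasure)

/-! ## RD: few multiple zeros: `f` has a squarefree divisor of degree `≥ n - a` with the same zeros.
`x B f' = f (n B + x B') - (n A B + x J)`, so `gcd (f, f')` divides `n A B + x J`, of degree `2 a`. -/

def S_RD : Prop := ∀ (A : ℤ[X]) (s : ℤ) (n : ℕ), Good A → (s = 1 ∨ s = -1) → A.natDegree < n →
  ∃ F₀ G : ℤ[X], gp A s n = F₀ * G ∧ (cc F₀).Separable ∧ n ≤ F₀.natDegree + A.natDegree ∧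
    F₀.natDegree ≤ n + A.natDegree ∧ |F₀.leadingCoeff| = 1

/-! ## MZ: the main inequality -/

def S_MZ : Prop := ∀ (A : ℤ[X]) (s : ℤ) (n k d : ℕ), Good A → (s = 1 ∨ s = -1) →
  A.natDegree < n → 4 ≤ k → d = n + A.natDegree → (k + 2) * A.natDegree ≤ d →
  (k : ℝ) * ((d : ℝ) - (k + 2) * A.natDegree) * Real.log (cc A).mahlerMeasure ≤
    ((d : ℝ) - k * A.natDegree + k * n) * Real.log (cc (gp A s n)).mahlerMeasure +
    d * Real.log d + k * A.natDegree * Real.log (2 * A.natDegree) +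
    d * Real.log (4 * k * A.natDegree) +
    (8 * d * Real.log (6 * d) + 4 * d * (Real.log (cc (gp A s n)).mahlerMeasure +
        Real.log (cc A).mahlerMeasure))

/-! ## EZ: from the main inequality to a lower bound (pure real analysis) -/

def S_EZ : Prop := S_MZ → ∀ (μ ε : ℝ), 1 < μ → 0 < ε → ∃ δ : ℝ, 0 < δ ∧ δ ≤ 1 / 4 ∧
  ∀ (A : ℤ[X]) (s : ℤ) (n d : ℕ), Good A → (s = 1 ∨ s = -1) → A.natDegree < n →
    d = n + A.natDegree → (A.natDegree : ℝ) * Real.log d ≤ δ * d →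
    μ ≤ (cc A).mahlerMeasure → μ - ε ≤ (cc (gp A s n)).mahlerMeasure

/-! ## RED2: arbitrary polynomials with a central gap -/

def S_RED2 : Prop := ∀ (A B : ℤ[X]) (n : ℕ), A ≠ 0 → B ≠ 0 → 3 * max A.natDegree B.natDegree < n →
  (∃ (D : ℤ[X]) (i m : ℕ), D.natDegree ≤ max A.natDegree B.natDegree ∧ 1 ≤ m ∧
    (A + X ^ n * B = D * X ^ i * (X ^ m - 1) ∨ A + X ^ n * B = D * X ^ i * (X ^ m + 1))) ∨
  2 ≤ (cc (A + X ^ n * B)).mahlerMeasure ∨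
  (∃ P : ℤ[X], P.Monic ∧ |P.coeff 0| = 1 ∧ P ≠ P.reverse ∧ P ≠ - P.reverse ∧
    (cc P).mahlerMeasure ≤ (cc (A + X ^ n * B)).mahlerMeasure) ∨
  ∃ (A' : ℤ[X]) (s : ℤ) (n' : ℕ), Good A' ∧ (s = 1 ∨ s = -1) ∧ A'.natDegree < n' ∧
    A'.natDegree ≤ max A.natDegree B.natDegree ∧ n ≤ n' + max A.natDegree B.natDegree ∧
    n' ≤ n + max A.natDegree B.natDegree ∧
    (cc (gp A' s n')).mahlerMeasure ≤ (cc (A + X ^ n * B)).mahlerMeasure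

/-! ## the theorem -/

def S_TH2 : Prop := ∀ ε : ℝ, 0 < ε → ∃ δ : ℝ, 0 < δ ∧ ∀ (A B : ℤ[X]) (n : ℕ), A ≠ 0 → B ≠ 0 →
  0 < n → (max A.natDegree B.natDegree : ℝ) * Real.log (n + 1) ≤ δ * n →
  (cc (X ^ 3 - X - 1)).mahlerMeasure - ε ≤ (cc (A + X ^ n * B)).mahlerMeasure ∨
  ∃ (D : ℤ[X]) (i m : ℕ), D.natDegree ≤ max A.natDegree B.natDegree ∧ 1 ≤ m ∧
    (A + X ^ n * B = D * X ^ i * (X ^ m - 1) ∨ A + X ^ n * B = D * X ^ i * (X ^ m + 1))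

end Pool.Agent.Helper40.GP
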