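import Pool.Agent.Helper40.GP.EY

/-!
# Lehmer's problem for polynomials with a long central gap
-/

open Polynomial

namespace Pool.Agent.Results.MP_7ab245_nt.CentralGap

/-- (1) every integer polynomial with a long central gap has Mahler measure at least
`M (X ^ 3 - X - 1) - ε`, unless it is a polynomial of small degree times a binomial `X ^ m ∓ 1`;
(2) Lehmer's inequality for the irreducible ones;
(3) the uniform lower bound for `A ± X ^ n A^*` in terms of `M (A)`. -/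
theorem result :
    (∀ (A B : ℤ[X]) (n : ℕ) (ε : ℝ), 0 < ε → ε ≤ 1 → A ≠ 0 → B ≠ 0 → 0 < n →
      6000 * ((max A.natDegree B.natDegree : ℕ) * Real.log (n + 1)) ≤ ε ^ 2 * n →
      ((X ^ 3 - X - 1 : ℤ[X]).map (Int.castRingHom ℂ)).mahlerMeasure - ε ≤
          ((A + X ^ n * B).map (Int.castRingHom ℂ)).mahlerMeasure ∨
        ∃ (D : ℤ[X]) (i m : ℕ), D.natDegree ≤ max A.natDegree B.natDegree ∧ 1 ≤ m ∧
          (A + X ^ n * B = D * X ^ i * (X ^ m - 1) ∨
            A + X ^ n * B = D * X ^ i * (X ^ m + 1))) ∧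
    (∀ (f : ℤ[X]) (a : ℕ) (ε : ℝ), 0 < ε → ε ≤ 1 → Irreducible f →
      1 < (f.map (Int.castRingHom ℂ)).mahlerMeasure →
      12000 * (a * Real.log f.natDegree) ≤ ε ^ 2 * f.natDegree →
      (∀ i, a < i → i + a < f.natDegree → f.coeff i = 0) →
      ((X ^ 3 - X - 1 : ℤ[X]).map (Int.castRingHom ℂ)).mahlerMeasure - ε ≤
        (f.map (Int.castRingHom ℂ)).mahlerMeasure) ∧
    (∀ (A : ℤ[X]) (s : ℤ) (n : ℕ) (η : ℝ), 0 < η → η ≤ 1 / 2 → 1 ≤ A.natDegree →
      |A.coeff 0| = 1 →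
      IsCoprime (A.map (Int.castRingHom ℚ)) (A.reverse.map (Int.castRingHom ℚ)) →
      (s = 1 ∨ s = -1) → A.natDegree < n →
      650 * (A.natDegree * Real.log (n + A.natDegree)) ≤ η ^ 2 * (n + A.natDegree) →
      (1 - η) * Real.log (A.map (Int.castRingHom ℂ)).mahlerMeasure - η ≤
        Real.log ((A + C s * X ^ n * A.reverse).map (Int.castRingHom ℂ)).mahlerMeasure) :=
  ⟨fun A B n ε hε hε1 hA hB hn h => Pool.Agent.Helper40.GP.ex4 A B n ε hε hε1 hA hB hn h,
    fun f a ε hε hε1 hf hM h hz => Pool.Agent.Helper40.GP.ex5 f a ε hε hε1 hf hM h hz,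
    fun A s n η hη hη1 ha hc hcop hs hn h =>
      Pool.Agent.Helper40.GP.ex1 A s n η hη hη1 ⟨ha, hc, hcop⟩ hs hn h⟩

end Pool.Agent.Results.MP_7ab245_nt.CentralGap
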