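import Pool.Agent.Helper40.GP.Stm

open Polynomial

namespace Pool.Agent.Helper40.GP

/-- a product of `m` factors close to one -/
lemma prod_near (s : Multiset ℂ) (t : ℝ) (ht : 0 ≤ t) (hs : ∀ x ∈ s, ‖x - 1‖ ≤ t) :
    ‖s.prod - 1‖ ≤ (1 + t) ^ s.card - 1 := by
  induction s using Multiset.induction_on with
  | empty => simp
  | cons a s ih =>
    have h1 := ih (fun x hx => hs x (Multiset.mem_cons_of_mem hx))
    have h2 := hs a (Multiset.mem_cons_self a s)
    rw [Multiset.prod_cons, Multiset.card_cons]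
    have h3 : a * s.prod - 1 = a * (s.prod - 1) + (a - 1) := by ring
    have h4 : ‖a‖ ≤ 1 + t := by
      calc ‖a‖ = ‖(a - 1) + 1‖ := by ring_nf
        _ ≤ ‖a - 1‖ + ‖(1 : ℂ)‖ := norm_add_le _ _
        _ ≤ 1 + t := by simp; linarith
    rw [h3]
    calc ‖a * (s.prod - 1) + (a - 1)‖ ≤ ‖a‖ * ‖s.prod - 1‖ + ‖a - 1‖ := by
          refine (norm_add_le _ _).trans ?_
          rw [norm_mul]
      _ ≤ (1 + t) * ((1 + t) ^ s.card - 1) + t := by
          gcongr
      _ = (1 + t) ^ (s.card + 1) - 1 := by ring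

/-- the values of a polynomial at two points close to each other -/
lemma eval_near (A : ℂ[X]) (k : ℕ) (z y : ℂ) (ρ : ℝ) (hρ : 0 < ρ)
    (hA : ∀ x ∈ A.roots, ρ ≤ ‖z - x‖) :
    ‖A.eval y ^ k - A.eval z ^ k‖ ≤
      ‖A.eval z‖ ^ k * ((1 + ‖z - y‖ / ρ) ^ (k * A.natDegree) - 1) := by
  have hs := IsAlgClosed.splits A
  have hE : ∀ x, A.eval x = A.leadingCoeff * (A.roots.map fun r => x - r).prod := by
    intro x
    conv_lhs => rw [hs.eq_prod_roots]
    rw [eval_mul, eval_C, eval_multiset_prod, Multiset.map_map]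
    simp
  have hc : A.roots.card = A.natDegree := splits_iff_card_roots.1 hs
  have h1 : A.eval y = A.eval z * (A.roots.map fun r => (y - r) / (z - r)).prod := by
    rw [hE, hE, mul_assoc, ← Multiset.prod_map_mul]
    congr 2
    apply Multiset.map_congr rfl
    intro r hr
    have : z - r ≠ 0 := norm_pos_iff.1 (lt_of_lt_of_le hρ (hA r hr))
    field_simp
  have h2 : A.eval y ^ k - A.eval z ^ k = A.eval z ^ k *
      ((k • (A.roots.map fun r => (y - r) / (z - r))).prod - 1) := by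
    rw [h1, Multiset.prod_nsmul, mul_pow]; ring
  rw [h2, norm_mul, norm_pow]
  apply mul_le_mul_of_nonneg_left _ (by positivity)
  have h3 := prod_near (k • (A.roots.map fun r => (y - r) / (z - r))) (‖z - y‖ / ρ) (by positivity) (by
    intro x hx
    have hx' := Multiset.mem_of_mem_nsmul hx
    rw [Multiset.mem_map] at hx'
    obtain ⟨r, hr, rfl⟩ := hx'
    have h0 : z - r ≠ 0 := norm_pos_iff.1 (lt_of_lt_of_le hρ (hA r hr))
    have : (y - r) / (z - r) - 1 = (y - z) / (z - r) := by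
      field_simp; ring
    rw [this, norm_div, norm_sub_rev y z]
    apply div_le_div_of_nonneg_left (norm_nonneg _) hρ (hA r hr))
  rwa [Multiset.card_nsmul, Multiset.card_map, hc] at h3

lemma pow_le_lin (t : ℝ) (ht : 0 ≤ t) (m : ℕ) (h : m * t ≤ 1) : (1 + t) ^ m - 1 ≤ 2 * (m * t) := by
  have h1 : (1 + t) ^ m ≤ Real.exp (m * t) := by
    rw [mul_comm, Real.exp_mul, Real.rpow_natCast]
    exact pow_le_pow_left₀ (by positivity) (by linarith [Real.add_one_le_exp t]) m
  have h0 : 0 ≤ m * t := by positivity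
  have h2 : Real.exp (m * t) ≤ 1 + 2 * (m * t) := by
    have h3 : Real.exp (m * t) - 1 - m * t ≤ (m * t) ^ 2 := by
      have := Real.abs_exp_sub_one_sub_id_le (x := m * t) (by rw [abs_of_nonneg h0]; exact h)
      exact (le_abs_self _).trans this
    nlinarith
  linarith

theorem di : S_DI := by
  intro A B k a v z y ρ hk ha hA hB hv hρ hρ1 hA0 hB0 hAr hBr hy
  set t := ‖z - y‖ / ρ with ht
  have ht0 : 0 ≤ t := by positivity
  set H := max ‖A.eval z‖ ‖B.eval z‖ with hH
  have hH0 : 0 ≤ H := le_trans (norm_nonneg _) (le_max_left _ _)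
  have hAH : ‖A.eval z‖ ^ k ≤ H ^ k := pow_le_pow_left₀ (norm_nonneg _) (le_max_left _ _) k
  have hBH : ‖B.eval z‖ ^ k ≤ H ^ k := pow_le_pow_left₀ (norm_nonneg _) (le_max_right _ _) k
  have hev : ∀ x, (A ^ k - C v * B ^ k).eval x = A.eval x ^ k - v * B.eval x ^ k := by
    intro x; simp
  have hka : (1 : ℝ) ≤ k * a := by
    have : 1 ≤ k * a := Nat.mul_pos (by omega) (by omega)
    exact_mod_cast this
  have hty : ‖z - y‖ = t * ρ := by rw [ht]; field_simp
  rcases le_or_gt ((k * a : ℝ) * t) 1 with h | h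
  · have key : ∀ D : ℂ[X], D.natDegree ≤ a → (∀ x ∈ D.roots, ρ ≤ ‖z - x‖) → ‖D.eval z‖ ^ k ≤ H ^ k →
        ‖D.eval y ^ k - D.eval z ^ k‖ ≤ H ^ k * (2 * (k * a * t)) := by
      intro D hD hDr hDH
      have h1 := eval_near D k z y ρ hρ hDr
      refine h1.trans ?_
      have h2 : (1 + t) ^ (k * D.natDegree) ≤ (1 + t) ^ (k * a) :=
        pow_le_pow_right₀ (by linarith) (Nat.mul_le_mul_left k hD)
      have h3 := pow_le_lin t ht0 (k * a) (by push_cast; exact h)
      push_cast at h3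
      have h4 : 0 ≤ (1 + t) ^ (k * D.natDegree) - 1 := by
        have := one_le_pow₀ (n := k * D.natDegree) (by linarith : (1 : ℝ) ≤ 1 + t)
        linarith
      exact mul_le_mul hDH (by linarith) h4 (by positivity)
    have h5 : ‖(A ^ k - C v * B ^ k).eval z‖ ≤ 2 * (H ^ k * (2 * (k * a * t))) := by
      have h6 : (A ^ k - C v * B ^ k).eval z = -(A.eval y ^ k - A.eval z ^ k) +
          v * (B.eval y ^ k - B.eval z ^ k) := by
        rw [hev] at hy ⊢
        linear_combination hy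
      rw [h6]
      refine (norm_add_le _ _).trans ?_
      rw [norm_neg, norm_mul, hv, one_mul]
      have := key A hA hAr hAH
      have := key B hB hBr hBH
      linarith
    rw [hty]
    calc ρ * ‖(A ^ k - C v * B ^ k).eval z‖ ≤ ρ * (2 * (H ^ k * (2 * (k * a * t)))) := by gcongr
      _ = 4 * k * a * H ^ k * (t * ρ) := by ring
  · have h5 : ‖(A ^ k - C v * B ^ k).eval z‖ ≤ 2 * H ^ k := by
      rw [hev]
      refine (norm_sub_le _ _).trans ?_
      rw [norm_mul, hv, one_mul, norm_pow, norm_pow]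
      linarith
    rw [hty]
    have hHk : 0 ≤ H ^ k := by positivity
    calc ρ * ‖(A ^ k - C v * B ^ k).eval z‖ ≤ ρ * (2 * H ^ k) := by gcongr
      _ ≤ 4 * k * a * H ^ k * (t * ρ) := by nlinarith [mul_nonneg hHk hρ.le]

end Pool.Agent.Helper40.GP
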