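import Pool.Agent.Helper40.GP.Final

/-! # Explicit forms -/

open Polynomial

namespace Pool.Agent.Helper40.GP

/-- the uniform lower bound, explicit -/
theorem ex1 (A : ℤ[X]) (s : ℤ) (n : ℕ) (η : ℝ) (hη : 0 < η) (hη1 : η ≤ 1 / 2) (hA : Good A)
    (hs : s = 1 ∨ s = -1) (hn : A.natDegree < n)
    (hal : 650 * (A.natDegree * Real.log (n + A.natDegree)) ≤ η ^ 2 * (n + A.natDegree)) :
    (1 - η) * Real.log (cc A).mahlerMeasure - η ≤ Real.log (cc (gp A s n)).mahlerMeasure := by
  obtain ⟨d, hd⟩ : ∃ d : ℕ, d = n + A.natDegree := ⟨_, rfl⟩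
  have hd' : (n : ℝ) + A.natDegree = d := by rw [hd]; push_cast; rfl
  rw [hd'] at hal
  set C : ℝ := 160 / η with hC
  have hC1 : 320 ≤ C := by rw [hC, le_div_iff₀ hη]; linarith
  set δ : ℝ := η / (4 * (C + 3)) with hδ
  have hδ0 : 0 < δ := by positivity
  have ha1 : 1 ≤ A.natDegree := hA.deg
  have hd3 : 3 ≤ d := by omega
  have hd3' : (3 : ℝ) ≤ d := by exact_mod_cast hd3
  have ha1' : (1 : ℝ) ≤ A.natDegree := by exact_mod_cast ha1
  have hl1 : 1 ≤ Real.log d := by
    rw [Real.le_log_iff_exp_le (by linarith)]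
    have := Real.exp_one_lt_d9
    linarith
  have hδη : η ^ 2 ≤ 650 * δ := by
    have h1 : C * η = 160 := by rw [hC]; field_simp
    have h2 : 650 * δ = 650 * η / (4 * (C + 3)) := by rw [hδ]; ring
    rw [h2, le_div_iff₀ (by linarith)]
    nlinarith
  have hal' : A.natDegree * Real.log d ≤ δ * d := by
    have h1 : η ^ 2 * (d : ℝ) ≤ 650 * δ * d := mul_le_mul_of_nonneg_right hδη (by linarith)
    linarith
  set k : ℕ := ⌈C * Real.log d⌉₊ with hk
  have hk1 : C * Real.log d ≤ k := Nat.le_ceil _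
  have hk2 : (k : ℝ) ≤ C * Real.log d + 1 := (Nat.ceil_lt_add_one (by positivity)).le
  have hk4 : 4 ≤ k := by
    have : (4 : ℝ) ≤ k := by nlinarith
    exact_mod_cast this
  have hdn : (d : ℝ) = (n : ℝ) + A.natDegree := by rw [hd]; push_cast; ring
  have hkad : (k + 2) * A.natDegree ≤ d := by
    have h1 : ((k : ℝ) + 2) * A.natDegree ≤ (C + 3) * (A.natDegree * Real.log d) := by
      have : (k : ℝ) + 2 ≤ (C + 3) * Real.log d := by nlinarith
      nlinarith
    have h2 : (C + 3) * (A.natDegree * Real.log d) ≤ (C + 3) * (δ * d) :=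
      mul_le_mul_of_nonneg_left hal' (by linarith)
    have h3 : (C + 3) * (δ * d) = η / 4 * d := by
      rw [hδ]
      have : C + 3 ≠ 0 := by linarith
      field_simp
    have h4 : ((k : ℝ) + 2) * A.natDegree ≤ d := by nlinarith
    exact_mod_cast h4
  have H := mz_final A s n k d hA hs hn hk4 hd hkad
  have hA0 := good_ne hA
  have hf0 : gp A s n ≠ 0 := by
    intro h
    have h1 : (gp A s n).coeff 0 = A.coeff 0 := by
      rw [gp, coeff_add, mul_assoc, mul_comm (X ^ n), ← mul_assoc, coeff_mul_X_pow', if_neg (by omega),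
        add_zero]
    rw [h, coeff_zero] at h1
    exact good_const hA h1.symm
  exact ez_real η (Real.log (cc A).mahlerMeasure) (Real.log (cc (gp A s n)).mahlerMeasure) k d
    A.natDegree n δ C hη hη1 (Real.log_nonneg (one_le_mahlerMeasure_of_ne_zero hA0))
    (Real.log_nonneg (one_le_mahlerMeasure_of_ne_zero hf0)) hd3' ha1' (Nat.cast_nonneg _) hdn
    hC hδ hl1 hk1 hk2 hal' (by exact_mod_cast H)

/-- the general theorem, explicit -/
theorem ex2 (A B : ℤ[X]) (n : ℕ) (η : ℝ) (hη : 0 < η) (hη1 : η ≤ 1 / 2) (hA : A ≠ 0) (hB : B ≠ 0)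
    (hn : 0 < n)
    (hgap : 1500 * ((max A.natDegree B.natDegree : ℕ) * Real.log (n + 1)) ≤ η ^ 2 * n) :
    (1 - η) * Real.log (cc (X ^ 3 - X - 1)).mahlerMeasure - η ≤
      Real.log (cc (A + X ^ n * B)).mahlerMeasure ∨
    ∃ (D : ℤ[X]) (i m : ℕ), D.natDegree ≤ max A.natDegree B.natDegree ∧ 1 ≤ m ∧
      (A + X ^ n * B = D * X ^ i * (X ^ m - 1) ∨ A + X ^ n * B = D * X ^ i * (X ^ m + 1)) := by
  set m := max A.natDegree B.natDegree with hm
  have hn1 : (1 : ℝ) ≤ n := by exact_mod_cast hn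
  have hη2 : η ^ 2 ≤ 1 / 4 := by nlinarith
  have hlog2 : (1 : ℝ) / 2 ≤ Real.log (n + 1) := by
    have h1 : Real.log 2 ≤ Real.log (n + 1) := Real.log_le_log (by norm_num) (by linarith)
    have h2 := Real.log_two_gt_d9
    linarith
  have hm0 : (0 : ℝ) ≤ m := Nat.cast_nonneg _
  have hm3 : 3000 * (m : ℝ) ≤ n := by
    have h1 : (m : ℝ) * (1 / 2) ≤ m * Real.log (n + 1) := mul_le_mul_of_nonneg_left hlog2 hm0
    have h2 : η ^ 2 * n ≤ 1 / 4 * n := mul_le_mul_of_nonneg_right hη2 (by linarith)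
    nlinarith
  have hmn : 3 * m < n := by
    have : (3 : ℝ) * (m : ℝ) < n := by nlinarith
    exact_mod_cast this
  have hθ := one_lt_cubic
  have hθ0 : 0 < Real.log (cc (X ^ 3 - X - 1)).mahlerMeasure := Real.log_pos hθ
  have weak : (1 - η) * Real.log (cc (X ^ 3 - X - 1)).mahlerMeasure - η ≤
      Real.log (cc (X ^ 3 - X - 1)).mahlerMeasure := by nlinarith
  rcases red2 A B n hA hB hmn with h | h | ⟨P, hP, hP0, h1, h2, hle⟩ | ⟨A', s, n', hA', hs, hn', ha', h1, h2, hle⟩
  · exact Or.inr h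
  · left
    exact weak.trans (Real.log_le_log (by linarith) (cubic_le.trans h))
  · left
    have := Helper7.GP.sm P hP hP0 h1 h2
    exact weak.trans (Real.log_le_log (by linarith) (this.trans hle))
  · left
    have e1 : (A'.natDegree : ℝ) ≤ m := by exact_mod_cast ha'
    have e2 : (n : ℝ) ≤ n' + m := by exact_mod_cast h1
    have e3 : (n' : ℝ) ≤ n + m := by exact_mod_cast h2
    have e0 : (0 : ℝ) ≤ A'.natDegree := Nat.cast_nonneg _
    have e6 : (1 : ℝ) ≤ n' := by
      have : 1 ≤ n' := by omega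
      exact_mod_cast this
    have e4 : Real.log (n' + A'.natDegree) ≤ 2 * Real.log (n + 1) := by
      rw [show (2 : ℝ) * Real.log (n + 1) = Real.log ((n + 1) ^ 2) by rw [Real.log_pow]; norm_num]
      apply Real.log_le_log
      · linarith
      · nlinarith
    have e5 : 0 ≤ Real.log ((n : ℝ) + 1) := by linarith
    have e7 : 0 < (cc (gp A' s n')).mahlerMeasure := by
      apply mahlerMeasure_pos_of_ne_zero
      apply cc_ne_zero
      intro h
      have h1 : (gp A' s n').coeff 0 = A'.coeff 0 := by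
        rw [gp, coeff_add, mul_assoc, mul_comm (X ^ n'), ← mul_assoc, coeff_mul_X_pow',
          if_neg (by omega), add_zero]
      rw [h, coeff_zero] at h1
      exact good_const hA' h1.symm
    have key := ex1 A' s n' η hη hη1 hA' hs hn' (by
      have f1 : (A'.natDegree : ℝ) * Real.log (n' + A'.natDegree) ≤ m * (2 * Real.log (n + 1)) :=
        (mul_le_mul_of_nonneg_left e4 e0).trans (mul_le_mul_of_nonneg_right e1 (by linarith))
      have f2 : η ^ 2 * (n : ℝ) * (13 / 15) ≤ η ^ 2 * (n' + A'.natDegree) := by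
        rw [mul_assoc]
        apply mul_le_mul_of_nonneg_left _ (sq_nonneg η)
        linarith
      nlinarith)
    have e8 : Real.log (cc (X ^ 3 - X - 1)).mahlerMeasure ≤ Real.log (cc A').mahlerMeasure :=
      Real.log_le_log (by linarith) (good_smyth Helper7.GP.sm hA')
    have e9 : (1 - η) * Real.log (cc (X ^ 3 - X - 1)).mahlerMeasure ≤
        (1 - η) * Real.log (cc A').mahlerMeasure := mul_le_mul_of_nonneg_left e8 (by linarith)
    have e10 := Real.log_le_log e7 hle
    linarith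

end Pool.Agent.Helper40.GP
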