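import Pool.Agent.Helper40.GP.EX
import Pool.Agent.Helper67.GP.RED

/-! # Explicit forms, continued -/

open Polynomial

namespace Pool.Agent.Helper40.GP

lemma theta_loss {η : ℝ} (hη : 0 < η) (hη1 : η ≤ 1 / 2) {M : ℝ} (hM : 0 < M)
    (h : (1 - η) * Real.log (cc (X ^ 3 - X - 1)).mahlerMeasure - η ≤ Real.log M) :
    (cc (X ^ 3 - X - 1)).mahlerMeasure - 2 * η ≤ M := by
  obtain ⟨θ, h1, h2, h3⟩ := Helper7.GP.theta
  rw [h3] at h ⊢
  have hθ : θ ≤ 1.33 := by
    by_contra hcon
    push Not at hcon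
    nlinarith [mul_pos (sub_pos.2 hcon) (sub_pos.2 hcon)]
  have hl0 : 0 ≤ Real.log θ := Real.log_nonneg h1.le
  have hl : Real.log θ ≤ 0.33 := by
    have := Real.log_le_sub_one_of_pos (by linarith : 0 < θ)
    linarith
  have h4 : Real.log θ - (1.33) * η ≤ Real.log M := by nlinarith
  have h5 : θ * Real.exp (-(1.33 * η)) ≤ M := by
    rw [← Real.exp_log hM, ← Real.exp_log (by linarith : 0 < θ), ← Real.exp_add]
    apply Real.exp_le_exp.2
    linarith
  have h6 : 1 - 1.33 * η ≤ Real.exp (-(1.33 * η)) := by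
    have := Real.add_one_le_exp (-(1.33 * η))
    linarith
  have h7 : θ * (1 - 1.33 * η) ≤ θ * Real.exp (-(1.33 * η)) :=
    mul_le_mul_of_nonneg_left h6 (by linarith)
  nlinarith

theorem ex4 (A B : ℤ[X]) (n : ℕ) (ε : ℝ) (hε : 0 < ε) (hε1 : ε ≤ 1) (hA : A ≠ 0) (hB : B ≠ 0)
    (hn : 0 < n)
    (hgap : 6000 * ((max A.natDegree B.natDegree : ℕ) * Real.log (n + 1)) ≤ ε ^ 2 * n) :
    (cc (X ^ 3 - X - 1)).mahlerMeasure - ε ≤ (cc (A + X ^ n * B)).mahlerMeasure ∨
    ∃ (D : ℤ[X]) (i m : ℕ), D.natDegree ≤ max A.natDegree B.natDegree ∧ 1 ≤ m ∧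
      (A + X ^ n * B = D * X ^ i * (X ^ m - 1) ∨ A + X ^ n * B = D * X ^ i * (X ^ m + 1)) := by
  have h1 : 1500 * ((max A.natDegree B.natDegree : ℕ) * Real.log (n + 1)) ≤ (ε / 2) ^ 2 * n := by
    have : (ε / 2) ^ 2 * n = ε ^ 2 * n / 4 := by ring
    rw [this]
    linarith
  rcases ex2 A B n (ε / 2) (by linarith) (by linarith) hA hB hn h1 with h | h
  · left
    by_cases hf : A + X ^ n * B = 0
    · exfalso
      rw [hf] at h
      have e1 : (cc 0).mahlerMeasure = 0 := by simp [cc]
      rw [e1, Real.log_zero] at h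
      obtain ⟨θ, g1, g2, g3⟩ := Helper7.GP.theta
      -- impossible because of degrees
      have hmn : 6000 * ((max A.natDegree B.natDegree : ℕ) * Real.log (n + 1)) ≤ n := by
        refine hgap.trans ?_
        have h9 : ε ^ 2 ≤ 1 := by nlinarith
        have hn0 : (0 : ℝ) ≤ n := Nat.cast_nonneg _
        nlinarith
      have hlog2 : (1 : ℝ) / 2 ≤ Real.log (n + 1) := by
        have hn1 : (1 : ℝ) ≤ n := by exact_mod_cast hn
        have h1 : Real.log 2 ≤ Real.log (n + 1) := Real.log_le_log (by norm_num) (by linarith)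
        have h2 := Real.log_two_gt_d9
        linarith
      have hAn : A.natDegree < n := by
        have e2 : ((max A.natDegree B.natDegree : ℕ) : ℝ) * (1 / 2) ≤
            (max A.natDegree B.natDegree : ℕ) * Real.log (n + 1) :=
          mul_le_mul_of_nonneg_left hlog2 (Nat.cast_nonneg _)
        have hn1 : (1 : ℝ) ≤ n := by exact_mod_cast hn
        have e3 : ((max A.natDegree B.natDegree : ℕ) : ℝ) < n := by nlinarith
        have e4 : max A.natDegree B.natDegree < n := by exact_mod_cast e3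
        exact (le_max_left _ _).trans_lt e4
      have e5 : (X ^ n * B).natDegree = B.natDegree + n := natDegree_X_pow_mul n hB
      have e6 : X ^ n * B = - A := by
        rw [eq_neg_iff_add_eq_zero, add_comm]; exact hf
      rw [e6, natDegree_neg] at e5
      omega
    · have := theta_loss (by linarith) (by linarith)
        (mahlerMeasure_pos_of_ne_zero (cc_ne_zero hf)) h
      linarith
  · exact Or.inr h

lemma cc_one_sub (m : ℕ) (hm : 1 ≤ m) : (cc (X ^ m - 1)).mahlerMeasure = 1 ∧
    (cc (X ^ m + 1)).mahlerMeasure = 1 := by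
  have e1 : cc (X ^ m - 1) = X ^ m - 1 := by simp [cc]
  have e2 : cc (X ^ m + 1) = X ^ m + 1 := by simp [cc]
  constructor
  · rw [e1]
    apply Helper67.GP.M_eq_one
    · rw [show (X ^ m - 1 : ℂ[X]) = X ^ m - C 1 by simp, leadingCoeff_X_pow_sub_C hm, norm_one]
    · intro x hx
      have h1 := (mem_roots'.1 hx).2
      simp only [IsRoot.def, eval_sub, eval_pow, eval_X, eval_one] at h1
      have h2 : x ^ m = 1 := by linear_combination h1
      exact (Complex.norm_eq_one_of_pow_eq_one h2 (by omega)).le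
  · rw [e2]
    apply Helper67.GP.M_eq_one
    · rw [show (X ^ m + 1 : ℂ[X]) = X ^ m + C 1 by simp, leadingCoeff_X_pow_add_C hm, norm_one]
    · intro x hx
      have h1 := (mem_roots'.1 hx).2
      simp only [IsRoot.def, eval_add, eval_pow, eval_X, eval_one] at h1
      have h2 : x ^ (m * 2) = 1 := by
        rw [pow_mul]
        have : x ^ m = -1 := by linear_combination h1
        rw [this]; norm_num
      exact (Complex.norm_eq_one_of_pow_eq_one h2 (by omega)).le

lemma unit_mm {u : ℤ[X]} (hu : IsUnit u) : (cc u).mahlerMeasure = 1 := by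
  obtain ⟨r, hr, rfl⟩ := Polynomial.isUnit_iff.1 hu
  have h1 : cc (C r) = C (r : ℂ) := by simp [cc]
  rw [h1, mahlerMeasure_const]
  rcases Int.isUnit_iff.1 hr with h | h <;> simp [h]

theorem ex5 (f : ℤ[X]) (a : ℕ) (ε : ℝ) (hε : 0 < ε) (hε1 : ε ≤ 1) (hf : Irreducible f)
    (hM : 1 < (cc f).mahlerMeasure)
    (hgap : 12000 * (a * Real.log f.natDegree) ≤ ε ^ 2 * f.natDegree)
    (hz : ∀ i, a < i → i + a < f.natDegree → f.coeff i = 0) :
    (cc (X ^ 3 - X - 1)).mahlerMeasure - ε ≤ (cc f).mahlerMeasure := by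
  have hf0 : f ≠ 0 := hf.ne_zero
  have h2le : 2 ≤ (cc f).mahlerMeasure →
      (cc (X ^ 3 - X - 1)).mahlerMeasure - ε ≤ (cc f).mahlerMeasure := by
    intro h
    have := cubic_le
    linarith
  have hcoeff : ∀ i, (cc f).coeff i = ((f.coeff i : ℤ) : ℂ) := by
    intro i
    simp [cc]
  obtain ⟨d, hd⟩ : ∃ d, d = f.natDegree := ⟨_, rfl⟩
  rw [← hd] at hgap hz
  rcases Nat.lt_or_ge d 2 with hd2 | hd2
  · apply h2le
    rcases Nat.lt_or_ge d 1 with hd1 | hd1
    · have h3 : f = C (f.coeff 0) := eq_C_of_natDegree_eq_zero (by omega)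
      have h4 : cc f = C ((f.coeff 0 : ℤ) : ℂ) := by
        rw [h3]; simp [cc]
      rw [h4, mahlerMeasure_const, Complex.norm_intCast] at hM ⊢
      have h5 : (1 : ℤ) < |f.coeff 0| := by exact_mod_cast hM
      have h6 : (2 : ℤ) ≤ |f.coeff 0| := by omega
      exact_mod_cast h6
    · have h3 : (cc f).degree = 1 := by
        unfold cc
        rw [degree_map_eq_of_injective Helper67.GP.cc_inj, degree_eq_natDegree hf0, ← hd,
          show d = 1 by omega]
        rfl
      rw [mahlerMeasure_of_degree_eq_one h3, hcoeff, hcoeff, Complex.norm_intCast,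
        Complex.norm_intCast] at hM ⊢
      rcases lt_max_iff.1 hM with h | h
      · refine le_max_of_le_left ?_
        have h5 : (1 : ℤ) < |f.coeff 1| := by exact_mod_cast h
        have h6 : (2 : ℤ) ≤ |f.coeff 1| := by omega
        exact_mod_cast h6
      · refine le_max_of_le_right ?_
        have h5 : (1 : ℤ) < |f.coeff 0| := by exact_mod_cast h
        have h6 : (2 : ℤ) ≤ |f.coeff 0| := by omega
        exact_mod_cast h6
  -- degree at least two
  have hc0 : f.coeff 0 ≠ 0 := by
    intro h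
    obtain ⟨g, hg⟩ := X_dvd_iff.2 h
    rcases hf.isUnit_or_isUnit hg with hu | hu
    · exact not_isUnit_X hu
    · have h1 : (cc f).mahlerMeasure = 1 := by
        have := mm_X_pow 1
        rw [pow_one] at this
        rw [hg, cc_mul, mahlerMeasure_mul, unit_mm hu, this, mul_one]
      linarith
  have hdr : (2 : ℝ) ≤ d := by exact_mod_cast hd2
  have hlog : (1 : ℝ) / 2 ≤ Real.log d := by
    have h1 : Real.log 2 ≤ Real.log d := Real.log_le_log (by norm_num) hdr
    have h2 := Real.log_two_gt_d9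
    linarith
  have hε2 : ε ^ 2 ≤ 1 := by nlinarith
  have ha0 : (0 : ℝ) ≤ a := Nat.cast_nonneg _
  have h2a : 2 * a < d := by
    have h1 : (a : ℝ) * (1 / 2) ≤ a * Real.log d := mul_le_mul_of_nonneg_left hlog ha0
    have h2 : ε ^ 2 * (d : ℝ) ≤ 1 * d := mul_le_mul_of_nonneg_right hε2 (by linarith)
    have : (2 : ℝ) * a < d := by nlinarith
    exact_mod_cast this
  set n := d - a with hn
  set A : ℤ[X] := ∑ i ∈ Finset.range (a + 1), C (f.coeff i) * X ^ i with hA
  set B : ℤ[X] := ∑ i ∈ Finset.range (a + 1), C (f.coeff (n + i)) * X ^ i with hB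
  have hAc : ∀ i, A.coeff i = if i ≤ a then f.coeff i else 0 := by
    intro i
    rw [hA, finsetSum_coeff]
    simp only [coeff_C_mul, coeff_X_pow, mul_ite, mul_one, mul_zero]
    rw [Finset.sum_ite_eq]
    simp only [Finset.mem_range, Nat.lt_succ_iff]
  have hBc : ∀ i, B.coeff i = if i ≤ a then f.coeff (n + i) else 0 := by
    intro i
    rw [hB, finsetSum_coeff]
    simp only [coeff_C_mul, coeff_X_pow, mul_ite, mul_one, mul_zero]
    rw [Finset.sum_ite_eq]
    simp only [Finset.mem_range, Nat.lt_succ_iff]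
  have hAd : A.natDegree ≤ a := by
    rw [natDegree_le_iff_coeff_eq_zero]
    intro N hN
    rw [hAc, if_neg (by omega)]
  have hBd : B.natDegree ≤ a := by
    rw [natDegree_le_iff_coeff_eq_zero]
    intro N hN
    rw [hBc, if_neg (by omega)]
  have hA0 : A ≠ 0 := by
    intro h
    have h1 := hAc 0
    rw [h, coeff_zero, if_pos (by omega)] at h1
    exact hc0 h1.symm
  have hB0 : B ≠ 0 := by
    intro h
    have h1 := hBc a
    rw [h, coeff_zero, if_pos (le_refl a), show n + a = d by omega, hd] at h1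
    exact leadingCoeff_ne_zero.2 hf0 h1.symm
  have hfe : f = A + X ^ n * B := by
    ext i
    rw [coeff_add, coeff_X_pow_mul', hAc]
    by_cases h1 : i ≤ a
    · rw [if_pos h1, if_neg (by omega), add_zero]
    · rw [if_neg h1, zero_add]
      by_cases h3 : n ≤ i
      · rw [if_pos h3, hBc]
        by_cases h4 : i - n ≤ a
        · rw [if_pos h4, show n + (i - n) = i by omega]
        · rw [if_neg h4, coeff_eq_zero_of_natDegree_lt (by omega)]
      · rw [if_neg h3]
        exact hz i (by omega) (by omega)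
  have hmax : max A.natDegree B.natDegree ≤ a := max_le hAd hBd
  have hn1 : 0 < n := by omega
  have hnd : (d : ℝ) / 2 ≤ n := by
    have h1 : d ≤ 2 * n := by omega
    have h3 : (d : ℝ) ≤ 2 * n := by exact_mod_cast h1
    linarith
  have hg : 6000 * ((max A.natDegree B.natDegree : ℕ) * Real.log (n + 1)) ≤ ε ^ 2 * n := by
    have hεn : ε ^ 2 * ((d : ℝ) / 2) ≤ ε ^ 2 * n := mul_le_mul_of_nonneg_left hnd (sq_nonneg ε)
    rcases Nat.eq_zero_or_pos a with h0 | hpos
    · rw [show max A.natDegree B.natDegree = 0 by omega]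
      simp only [Nat.cast_zero, zero_mul, mul_zero]
      positivity
    · have h1 : Real.log ((n : ℝ) + 1) ≤ Real.log d := by
        apply Real.log_le_log (by positivity)
        have : n + 1 ≤ d := by omega
        exact_mod_cast this
      have h3 : ((max A.natDegree B.natDegree : ℕ) : ℝ) ≤ a := by exact_mod_cast hmax
      have h4 : ((max A.natDegree B.natDegree : ℕ) : ℝ) * Real.log ((n : ℝ) + 1) ≤
          a * Real.log d := by
        apply mul_le_mul h3 h1 _ ha0
        apply Real.log_nonneg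
        have : (0 : ℝ) ≤ n := Nat.cast_nonneg _
        linarith
      linarith
  rcases ex4 A B n ε hε hε1 hA0 hB0 hn1 hg with h | ⟨D, i, m, _, hm, h⟩
  · rw [← hfe] at h; exact h
  exfalso
  rw [← hfe] at h
  obtain ⟨c1, c2⟩ := cc_one_sub m hm
  rcases h with h | h
  · rcases hf.isUnit_or_isUnit h with hu | hu
    · have : (cc f).mahlerMeasure = 1 := by
        rw [h, cc_mul, mahlerMeasure_mul, unit_mm hu, c1, mul_one]
      linarith
    · have h1 := natDegree_eq_zero_of_isUnit hu
      rw [show (X ^ m - 1 : ℤ[X]) = X ^ m - C 1 by simp, natDegree_X_pow_sub_C] at h1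
      omega
  · rcases hf.isUnit_or_isUnit h with hu | hu
    · have : (cc f).mahlerMeasure = 1 := by
        rw [h, cc_mul, mahlerMeasure_mul, unit_mm hu, c2, mul_one]
      linarith
    · have h1 := natDegree_eq_zero_of_isUnit hu
      rw [show (X ^ m + 1 : ℤ[X]) = X ^ m + C 1 by simp, natDegree_X_pow_add_C] at h1
      omega

end Pool.Agent.Helper40.GP
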