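import Pool.Agent.Helper40.GP.MZF
import Pool.Agent.Helper40.GP.EY

/-! # Divisors of polynomials with a central gap -/

open Polynomial

namespace Pool.Agent.Helper40.GP

lemma ezf_real (η LA T k d a δ C : ℝ) (hη : 0 < η) (hη1 : η ≤ 1 / 2) (hLA : 0 ≤ LA)
    (hT : 0 ≤ T) (hd : 3 ≤ d) (ha : 1 ≤ a)
    (hC : C = 160 / η) (hδ : δ = η / (4 * (C + 3))) (hl1 : 1 ≤ Real.log d)
    (hk1 : C * Real.log d ≤ k) (hk2 : k ≤ C * Real.log d + 1) (hal : a * Real.log d ≤ δ * d)
    (H : k * (d - k * a) * LA ≤ k * d * T + 10 * d * T + d * Real.log d +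
      k * a * Real.log (2 * a) + d * Real.log (4 * k * a) + (8 * d * Real.log (6 * d) +
      4 * d * LA)) : (1 - η) * LA - η ≤ T := by
  have hC1 : 320 ≤ C := by
    rw [hC, le_div_iff₀ hη]; linarith
  have hk0 : 320 ≤ k := by nlinarith
  have hkp : 0 < k := by linarith
  have hdp : 0 < d := by linarith
  have hl0 : 0 < Real.log d := by linarith
  have hka2 : (k + 2) * a ≤ η / 4 * d := by
    have h1 : (k + 2) * a ≤ (C + 3) * (a * Real.log d) := by
      have : k + 2 ≤ (C + 3) * Real.log d := by nlinarith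
      nlinarith
    have h2 : (C + 3) * (a * Real.log d) ≤ (C + 3) * (δ * d) :=
      mul_le_mul_of_nonneg_left hal (by linarith)
    have h3 : (C + 3) * (δ * d) = η / 4 * d := by
      rw [hδ]
      have : C + 3 ≠ 0 := by linarith
      field_simp
    linarith
  have hka : k * a ≤ η / 4 * d := by nlinarith
  have hkad : k * a ≤ d := by nlinarith
  have had : a ≤ d := by nlinarith
  have hkd : k ≤ d := by nlinarith
  have hd9 : 9 * d ≤ d ^ 3 := by
    have h9 : 9 ≤ d ^ 2 := by nlinarith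
    calc 9 * d ≤ d ^ 2 * d := mul_le_mul_of_nonneg_right h9 hdp.le
      _ = d ^ 3 := by ring
  have e1 : Real.log (2 * a) ≤ 2 * Real.log d := by
    rw [show (2 : ℝ) * Real.log d = Real.log (d ^ 2) by rw [Real.log_pow]; norm_num]
    apply Real.log_le_log (by linarith)
    nlinarith
  have e2 : Real.log (4 * k * a) ≤ 3 * Real.log d := by
    rw [show (3 : ℝ) * Real.log d = Real.log (d ^ 3) by rw [Real.log_pow]; norm_num]
    apply Real.log_le_log (by positivity)
    have : 4 * k * a ≤ 4 * d := by nlinarith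
    linarith
  have e3 : Real.log (6 * d) ≤ 3 * Real.log d := by
    rw [show (3 : ℝ) * Real.log d = Real.log (d ^ 3) by rw [Real.log_pow]; norm_num]
    apply Real.log_le_log (by positivity)
    linarith
  have f1 : k * a * Real.log (2 * a) ≤ d * (2 * Real.log d) := by
    have h0 : 0 ≤ Real.log (2 * a) := Real.log_nonneg (by linarith)
    exact mul_le_mul hkad e1 h0 hdp.le
  have f2 : d * Real.log (4 * k * a) ≤ d * (3 * Real.log d) := mul_le_mul_of_nonneg_left e2 hdp.le
  have f3 : 8 * d * Real.log (6 * d) ≤ 8 * d * (3 * Real.log d) :=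
    mul_le_mul_of_nonneg_left e3 (by linarith)
  have f5 : k * (d - η / 4 * d) * LA ≤ k * (d - k * a) * LA := by
    apply mul_le_mul_of_nonneg_right _ hLA
    apply mul_le_mul_of_nonneg_left _ hkp.le
    linarith
  have g1 : k * (1 - η / 4) * LA ≤ (k + 10) * T + 30 * Real.log d + 4 * LA := by
    have h1 : d * (k * (1 - η / 4) * LA) ≤ d * ((k + 10) * T + 30 * Real.log d + 4 * LA) := by
      have h0 : d * (k * (1 - η / 4) * LA) = k * (d - η / 4 * d) * LA := by ring
      have h2 : d * ((k + 10) * T + 30 * Real.log d + 4 * LA) =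
        k * d * T + 10 * d * T + 4 * d * LA + 30 * (d * Real.log d) := by ring
      rw [h0, h2]
      linarith
    exact le_of_mul_le_mul_left h1 hdp
  have g2 : 30 * Real.log d ≤ η / 4 * k := by
    have h1 : C * η = 160 := by rw [hC]; field_simp
    have h2 : C * Real.log d * η ≤ k * η := mul_le_mul_of_nonneg_right hk1 hη.le
    have h3 : C * Real.log d * η = 160 * Real.log d := by rw [← h1]; ring
    linarith
  have g3 : 10 ≤ η / 4 * k := by linarith
  have g4 : k * (1 - η / 2) * LA ≤ k * ((1 + η / 4) * T + η / 4) := by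
    have h1 : 4 * LA ≤ η / 4 * k * LA := mul_le_mul_of_nonneg_right (by linarith) hLA
    have h2 : 10 * T ≤ η / 4 * k * T := mul_le_mul_of_nonneg_right g3 hT
    have h3 : k * (1 - η / 2) * LA = k * (1 - η / 4) * LA - η / 4 * k * LA := by ring
    have h4 : k * ((1 + η / 4) * T + η / 4) = k * T + η / 4 * k * T + η / 4 * k := by ring
    rw [h3, h4]
    linarith
  have g5 : (1 - η / 2) * LA ≤ (1 + η / 4) * T + η / 4 := by
    have : k * ((1 - η / 2) * LA) ≤ k * ((1 + η / 4) * T + η / 4) := by linarith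
    exact le_of_mul_le_mul_left this hkp
  have g6 : (1 + η / 4) * ((1 - η) * LA - η) ≤ (1 + η / 4) * T := by
    have h1 : 0 ≤ (η / 4 + η ^ 2 / 4) * LA := by positivity
    have h2 : (1 + η / 4) * ((1 - η) * LA - η) = (1 - η / 2) * LA - (η / 4 + η ^ 2 / 4) * LA - η -
        η ^ 2 / 4 := by ring
    have h3 : 0 ≤ η ^ 2 := by positivity
    rw [h2]
    linarith
  exact le_of_mul_le_mul_left g6 (by linarith)

/-- a separable divisor of `A + s X ^ n A^*` -/
theorem exf (A : ℤ[X]) (s : ℤ) (n : ℕ) (F0 : ℤ[X]) (η : ℝ) (hη : 0 < η) (hη1 : η ≤ 1 / 2)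
    (hA : Good A) (hs : s = 1 ∨ s = -1) (hn : A.natDegree < n) (hdvd : F0 ∣ gp A s n)
    (hsep : (cc F0).Separable)
    (hal : 650 * (A.natDegree * Real.log F0.natDegree) ≤ η ^ 2 * F0.natDegree)
    (hd3 : 3 ≤ F0.natDegree) :
    F0.natDegree * ((1 - η) * Real.log (cc A).mahlerMeasure - η) ≤
      n * Real.log (cc F0).mahlerMeasure := by
  obtain ⟨d, hd⟩ : ∃ d : ℕ, d = F0.natDegree := ⟨_, rfl⟩
  rw [← hd] at hal hd3 ⊢
  set C : ℝ := 160 / η with hC
  have hC1 : 320 ≤ C := by rw [hC, le_div_iff₀ hη]; linarith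
  set δ : ℝ := η / (4 * (C + 3)) with hδ
  have hδ0 : 0 < δ := by positivity
  have ha1 : 1 ≤ A.natDegree := hA.deg
  have hd3' : (3 : ℝ) ≤ d := by exact_mod_cast hd3
  have hd0 : (0 : ℝ) < d := by linarith
  have ha1' : (1 : ℝ) ≤ A.natDegree := by exact_mod_cast ha1
  have hl1 : 1 ≤ Real.log d := by
    rw [Real.le_log_iff_exp_le (by linarith)]
    have := Real.exp_one_lt_d9
    linarith
  have hδη : η ^ 2 ≤ 650 * δ := by
    have h1 : C * η = 160 := by rw [hC]; field_simp
    have h2 : 650 * δ = 650 * η / (4 * (C + 3)) := by rw [hδ]; ring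
    rw [h2, le_div_iff₀ (by linarith)]
    nlinarith
  have hal' : A.natDegree * Real.log d ≤ δ * d := by
    have h1 : η ^ 2 * (d : ℝ) ≤ 650 * δ * d := mul_le_mul_of_nonneg_right hδη (by linarith)
    linarith
  set k : ℕ := ⌈C * Real.log d⌉₊ with hk
  have hk1 : C * Real.log d ≤ k := Nat.le_ceil _
  have hk2 : (k : ℝ) ≤ C * Real.log d + 1 := (Nat.ceil_lt_add_one (by positivity)).le
  have hk4 : 4 ≤ k := by
    have : (4 : ℝ) ≤ k := by nlinarith
    exact_mod_cast this
  have hkad : k * A.natDegree ≤ d := by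
    have h1 : (k : ℝ) * A.natDegree ≤ (C + 3) * (A.natDegree * Real.log d) := by
      have : (k : ℝ) ≤ (C + 3) * Real.log d := by nlinarith
      nlinarith
    have h2 : (C + 3) * (A.natDegree * Real.log d) ≤ (C + 3) * (δ * d) :=
      mul_le_mul_of_nonneg_left hal' (by linarith)
    have h3 : (C + 3) * (δ * d) = η / 4 * d := by
      rw [hδ]
      have : C + 3 ≠ 0 := by linarith
      field_simp
    have h4 : (k : ℝ) * A.natDegree ≤ d := by nlinarith
    exact_mod_cast h4
  have H := mzf Helper7.GP.cv di Helper46.GP.av Helper25.GP.jb Helper88.GP.vy Helper67.GP.dd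
    A s n k d F0 hA hs hn hk4 hdvd hsep hd hkad
  have hA0 := good_ne hA
  have hF0 : F0 ≠ 0 := by
    rintro rfl
    rw [natDegree_zero] at hd
    omega
  have hLA : 0 ≤ Real.log (cc A).mahlerMeasure := Real.log_nonneg (one_le_mahlerMeasure_of_ne_zero hA0)
  have hLf : 0 ≤ Real.log (cc F0).mahlerMeasure := Real.log_nonneg (one_le_mahlerMeasure_of_ne_zero hF0)
  -- the degree
  have hdn : d ≤ 2 * n := by
    have h1 : F0.natDegree ≤ (gp A s n).natDegree := natDegree_le_of_dvd hdvd
      (Helper46.GP.gp_ne hA hs hn)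
    have h2 := (Helper25.GP.gp_deg hA hs hn).1
    omega
  have hdn' : (d : ℝ) ≤ 2 * n := by exact_mod_cast hdn
  set T : ℝ := n * Real.log (cc F0).mahlerMeasure / d with hT
  have hT0 : 0 ≤ T := by positivity
  have hdT : (d : ℝ) * T = n * Real.log (cc F0).mahlerMeasure := by
    rw [hT]; field_simp
  have hdL : (d : ℝ) * Real.log (cc F0).mahlerMeasure ≤ 2 * (d * T) := by
    rw [hdT, ← mul_assoc]
    exact mul_le_mul_of_nonneg_right hdn' hLf
  have key := ezf_real η (Real.log (cc A).mahlerMeasure) T k d A.natDegree δ C hη hη1 hLA hT0 hd3'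
    ha1' hC hδ hl1 hk1 hk2 hal' (by
      have h1 : ((d : ℝ) - k * A.natDegree + k * n) * Real.log (cc F0).mahlerMeasure ≤
          d * Real.log (cc F0).mahlerMeasure + k * (d * T) := by
        rw [hdT]
        have : 0 ≤ (k : ℝ) * A.natDegree * Real.log (cc F0).mahlerMeasure := by positivity
        nlinarith
      nlinarith)
  have h1 := mul_le_mul_of_nonneg_left key hd0.le
  rwa [hdT] at h1

end Pool.Agent.Helper40.GP
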