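import Pool.Agent.Helper40.GP.RF

/-! # The bound for the irreducible divisors of `A + X ^ n B` -/

open Polynomial

namespace Pool.Agent.Helper40.GP

lemma theta_bounds : ∃ θ : ℝ, (cc (X ^ 3 - X - 1)).mahlerMeasure = θ ∧ 1 < θ ∧ θ ≤ 1.33 ∧
    0 < Real.log θ ∧ Real.log θ ≤ 0.33 := by
  obtain ⟨θ, h1, h2, h3⟩ := Helper7.GP.theta
  have hθ : θ ≤ 1.33 := by
    by_contra hcon
    push Not at hcon
    nlinarith [mul_pos (sub_pos.2 hcon) (sub_pos.2 hcon)]
  refine ⟨θ, h3, h1, hθ, Real.log_pos h1, ?_⟩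
  have := Real.log_le_sub_one_of_pos (by linarith : 0 < θ)
  linarith

/-- from logarithms to powers -/
lemma pow_form (η L : ℝ) (d n : ℕ) (M : ℝ) (hη : 0 < η) (hη1 : η ≤ 1 / 2) (hM : 0 < M)
    (hL : (cc (X ^ 3 - X - 1)).mahlerMeasure = L)
    (h : (d : ℝ) * (Real.log L - 1.34 * η) ≤ n * Real.log M) :
    ((cc (X ^ 3 - X - 1)).mahlerMeasure - 2 * η) ^ d ≤ M ^ n := by
  obtain ⟨θ, h1, h2, h3, h4, h5⟩ := theta_bounds
  rw [hL] at h1
  subst h1
  rw [hL]
  have e1 : L - 2 * η ≤ Real.exp (Real.log L - 1.34 * η) := by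
    have a1 : Real.exp (Real.log L - 1.34 * η) = L * Real.exp (-(1.34 * η)) := by
      rw [sub_eq_add_neg, Real.exp_add, Real.exp_log (by linarith)]
    have a2 : 1 - 1.34 * η ≤ Real.exp (-(1.34 * η)) := by
      have := Real.add_one_le_exp (-(1.34 * η))
      linarith
    have a3 : L * (1 - 1.34 * η) ≤ L * Real.exp (-(1.34 * η)) :=
      mul_le_mul_of_nonneg_left a2 (by linarith)
    rw [a1]
    nlinarith
  have e0 : 0 ≤ L - 2 * η := by linarith
  calc (L - 2 * η) ^ d ≤ (Real.exp (Real.log L - 1.34 * η)) ^ d := pow_le_pow_left₀ e0 e1 d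
    _ = Real.exp (d * (Real.log L - 1.34 * η)) := by rw [← Real.exp_nat_mul]
    _ ≤ Real.exp (n * Real.log M) := Real.exp_le_exp.2 h
    _ = M ^ n := by rw [Real.exp_nat_mul, Real.exp_log hM]

theorem ex6 (A B f : ℤ[X]) (n : ℕ) (ε : ℝ) (hε : 0 < ε) (hε1 : ε ≤ 1) (hn : 0 < n)
    (hF0 : |(A + X ^ n * B).coeff 0| = 1) (hFl : |(A + X ^ n * B).leadingCoeff| = 1)
    (hf : Irreducible f) (hdvd : f ∣ A + X ^ n * B) (hM : 1 < (cc f).mahlerMeasure)
    (hgap : 6000 * ((max A.natDegree B.natDegree : ℕ) * Real.log (n + 1)) ≤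
      ε ^ 2 * f.natDegree) :
    ((cc (X ^ 3 - X - 1)).mahlerMeasure - ε) ^ f.natDegree ≤ (cc f).mahlerMeasure ^ n := by
  set η : ℝ := ε / 2 with hη
  have hη0 : 0 < η := by linarith
  have hη1 : η ≤ 1 / 2 := by linarith
  have hεη : ε = 2 * η := by rw [hη]; ring
  set a := max A.natDegree B.natDegree with ha
  obtain ⟨d, hd⟩ : ∃ d, d = f.natDegree := ⟨_, rfl⟩
  rw [← hd] at hgap ⊢
  have hf0 : f ≠ 0 := hf.ne_zero
  have hMpos : 0 < (cc f).mahlerMeasure := by linarith
  have hLf : 0 < Real.log (cc f).mahlerMeasure := Real.log_pos hM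
  obtain ⟨g, hg⟩ := hdvd
  -- units at the ends of `f`
  have hfl : |f.leadingCoeff| = 1 := by
    rw [hg, leadingCoeff_mul, abs_mul] at hFl
    exact (Int.eq_one_or_neg_one_of_mul_eq_one hFl).resolve_right (by
      have := abs_nonneg f.leadingCoeff
      omega)
  have hfc : |f.coeff 0| = 1 := by
    rw [hg, mul_coeff_zero, abs_mul] at hF0
    exact (Int.eq_one_or_neg_one_of_mul_eq_one hF0).resolve_right (by
      have := abs_nonneg (f.coeff 0)
      omega)
  have hcoeff : ∀ i, (cc f).coeff i = ((f.coeff i : ℤ) : ℂ) := by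
    intro i
    simp [cc]
  have hF0' : A.coeff 0 ≠ 0 := by
    intro h
    rw [coeff_add, coeff_X_pow_mul', if_neg (by omega), add_zero, h, abs_zero] at hF0
    exact zero_ne_one hF0
  have hA : A ≠ 0 := by rintro rfl; simp at hF0'
  have hn1 : (1 : ℝ) ≤ n := by exact_mod_cast hn
  have hlog2 : (0.69 : ℝ) ≤ Real.log (n + 1) := by
    have h1 : Real.log 2 ≤ Real.log (n + 1) := Real.log_le_log (by norm_num) (by linarith)
    have h2 := Real.log_two_gt_d9
    linarith
  have hε2 : ε ^ 2 ≤ 1 := by nlinarith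
  have ha0 : (0 : ℝ) ≤ a := Nat.cast_nonneg _
  have hd0 : (0 : ℝ) ≤ d := Nat.cast_nonneg _
  have h4000 : 4000 * (a : ℝ) ≤ ε ^ 2 * d := by
    have h1 : (a : ℝ) * 0.69 ≤ a * Real.log (n + 1) := mul_le_mul_of_nonneg_left hlog2 ha0
    nlinarith
  have hAa : A.natDegree ≤ a := le_max_left _ _
  have hBa : B.natDegree ≤ a := le_max_right _ _
  -- the degree of `f` is positive
  have hd1 : 1 ≤ d := by
    by_contra hcon
    have h1 : f = C (f.coeff 0) := eq_C_of_natDegree_eq_zero (by omega)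
    apply hf.not_isUnit
    rw [h1]
    exact IsUnit.map C (Int.isUnit_iff_abs_eq.2 hfc)
  have had : 2 * a < d := by
    have h1 : (2 : ℝ) * a < d := by
      have hdr : (1 : ℝ) ≤ d := by exact_mod_cast hd1
      have h2 : ε ^ 2 * (d : ℝ) ≤ 1 * d := mul_le_mul_of_nonneg_right hε2 hd0
      rcases Nat.eq_zero_or_pos a with h0 | h0
      · rw [h0]; push_cast; linarith
      · have h3 : (1 : ℝ) ≤ a := by exact_mod_cast h0
        linarith
    exact_mod_cast h1
  -- `B` is not zero
  have hB : B ≠ 0 := by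
    rintro rfl
    rw [mul_zero, add_zero] at hg
    have h1 : f.natDegree ≤ A.natDegree := natDegree_le_of_dvd (Dvd.intro _ hg.symm) hA
    omega
  have hFd : f.natDegree ≤ n + a := by
    have h1 : (A + X ^ n * B).natDegree ≤ n + a := by
      refine (natDegree_add_le _ _).trans (max_le (by omega) ?_)
      rw [natDegree_X_pow_mul _ hB]
      omega
    have h2 : A + X ^ n * B ≠ 0 := by
      intro h; rw [h, coeff_zero, abs_zero] at hF0; exact zero_ne_one hF0
    exact (natDegree_le_of_dvd (Dvd.intro _ hg.symm) h2).trans h1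
  have han : a < n := by omega
  have hθb := theta_bounds
  obtain ⟨θ, hθ1, hθ2, hθ3, hθ4, hθ5⟩ := hθb
  -- the ratio
  have han' : 2000 * (a : ℝ) ≤ η * n := by
    have h1 : (d : ℝ) ≤ n + a := by exact_mod_cast (hd ▸ hFd)
    have h2 : ε ^ 2 * (d : ℝ) ≤ ε ^ 2 * (n + a) := mul_le_mul_of_nonneg_left h1 (sq_nonneg ε)
    have h3 : ε ^ 2 * ((n : ℝ) + a) ≤ ε * (n + a) := by
      apply mul_le_mul_of_nonneg_right _ (by linarith)
      nlinarith
    have h4 : ε * (a : ℝ) ≤ a := by nlinarith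
    have h5 : ε * (n : ℝ) = 2 * (η * n) := by rw [hεη]; ring
    nlinarith
  -- it suffices to bound `T`
  have fin : ∀ (n2 : ℕ), n2 ≤ n + a →
      (d : ℝ) * ((1 - η) * Real.log θ - η) ≤ n2 * Real.log (cc f).mahlerMeasure →
      ((cc (X ^ 3 - X - 1)).mahlerMeasure - ε) ^ d ≤ (cc f).mahlerMeasure ^ n := by
    intro n2 hn2 h
    have hn2' : (n2 : ℝ) ≤ n + a := by exact_mod_cast hn2
    rw [hεη]
    refine pow_form η θ d n _ hη0 hη1 hMpos hθ1 ?_
    have h1 : (n2 : ℝ) * Real.log (cc f).mahlerMeasure ≤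
        (n + a) * Real.log (cc f).mahlerMeasure := mul_le_mul_of_nonneg_right hn2' hLf.le
    have h2 : ((n : ℝ) + a) ≤ n * (1 + η / 2000) := by linarith
    have h3 : ((n : ℝ) + a) * Real.log (cc f).mahlerMeasure ≤
        n * (1 + η / 2000) * Real.log (cc f).mahlerMeasure := mul_le_mul_of_nonneg_right h2 hLf.le
    by_cases hs : Real.log θ - 1.34 * η ≤ 0
    · have h5 : (d : ℝ) * (Real.log θ - 1.34 * η) ≤ 0 := mul_nonpos_of_nonneg_of_nonpos hd0 hs
      have h6 : 0 ≤ (n : ℝ) * Real.log (cc f).mahlerMeasure := by positivity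
      linarith
    · push Not at hs
      have h5 : (1 + η / 2000) * (d * (Real.log θ - 1.34 * η)) ≤
          (1 + η / 2000) * (n * Real.log (cc f).mahlerMeasure) := by
        have h6 : (1 + η / 2000) * (Real.log θ - 1.34 * η) ≤ (1 - η) * Real.log θ - η := by
          nlinarith
        have h7 := mul_le_mul_of_nonneg_left h6 hd0
        linarith
      exact le_of_mul_le_mul_left h5 (by linarith)
  by_cases hrec : f = f.reverse ∨ f = - f.reverse
  swap
  · -- not reciprocal
    push Not at hrec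
    have hsm : θ ≤ (cc f).mahlerMeasure := by
      rw [← hθ1]
      apply smyth_pm Helper7.GP.sm f hfc _ hrec.1 hrec.2
      rcases abs_eq (by norm_num : (0 : ℤ) ≤ 1) |>.1 hfl with h | h
      · exact Or.inl h
      · right
        rw [Monic, leadingCoeff_neg, h]
        norm_num
    have h1 : Real.log θ ≤ Real.log (cc f).mahlerMeasure := Real.log_le_log (by linarith) hsm
    refine fin (n + a) le_rfl ?_
    have h2 : (d : ℝ) ≤ n + a := by exact_mod_cast (hd ▸ hFd)
    have h3 : (d : ℝ) * ((1 - η) * Real.log θ - η) ≤ d * Real.log θ :=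
      mul_le_mul_of_nonneg_left (by nlinarith) hd0
    have h4 : (d : ℝ) * Real.log θ ≤ (n + a) * Real.log (cc f).mahlerMeasure :=
      mul_le_mul h2 h1 hθ4.le (by positivity)
    push_cast
    linarith
  -- reciprocal
  obtain ⟨D, A1, B1, hA1, hB1, hcop⟩ := gcd_out A B hA hB
  have hD0 : D ≠ 0 := by rintro rfl; rw [zero_mul] at hA1; exact hA hA1
  have hA10 : A1 ≠ 0 := by rintro rfl; rw [mul_zero] at hA1; exact hA hA1
  have hB10 : B1 ≠ 0 := by rintro rfl; rw [mul_zero] at hB1; exact hB hB1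
  obtain ⟨l, B2, hB2, hB20⟩ := X_out B1 hB10
  have hB2n : B2 ≠ 0 := by rintro rfl; simp at hB20
  have hdA : A.natDegree = D.natDegree + A1.natDegree := by
    rw [hA1, natDegree_mul hD0 hA10]
  have hdB : B.natDegree = D.natDegree + (l + B2.natDegree) := by
    rw [hB1, natDegree_mul hD0 hB10, hB2, natDegree_X_pow_mul l hB2n, add_comm l]
  have hfac : A + X ^ n * B = D * (A1 + X ^ (n + l) * B2) := by
    rw [hA1, hB1, hB2, pow_add]
    ring
  have hXB : (X ^ (n + l) * B2).natDegree = n + l + B2.natDegree := by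
    rw [natDegree_X_pow_mul _ hB2n, add_comm]
  have hlt : A1.natDegree < (X ^ (n + l) * B2).natDegree := by rw [hXB]; omega
  have hF1lead : (A1 + X ^ (n + l) * B2).leadingCoeff = B2.leadingCoeff := by
    rw [leadingCoeff_add_of_degree_lt (degree_lt_degree hlt), leadingCoeff_mul,
      leadingCoeff_X_pow, one_mul]
  have hF1c : (A1 + X ^ (n + l) * B2).coeff 0 = A1.coeff 0 := by
    rw [coeff_add, coeff_X_pow_mul', if_neg (by omega), add_zero]
  have hA1c : |A1.coeff 0| = 1 := by
    rw [hfac, mul_coeff_zero, hF1c, mul_comm, abs_mul] at hF0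
    exact (Int.eq_one_or_neg_one_of_mul_eq_one hF0).resolve_right (by
      have := abs_nonneg (A1.coeff 0)
      omega)
  have hB2l : |B2.leadingCoeff| = 1 := by
    rw [hfac, leadingCoeff_mul, hF1lead, mul_comm, abs_mul] at hFl
    exact (Int.eq_one_or_neg_one_of_mul_eq_one hFl).resolve_right (by
      have := abs_nonneg B2.leadingCoeff
      omega)
  have hf1 : f ∣ A1 + X ^ (n + l) * B2 := by
    have h1 : f ∣ D * (A1 + X ^ (n + l) * B2) := by rw [← hfac, hg]; exact dvd_mul_right _ _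
    rcases hf.prime.dvd_or_dvd h1 with h | h
    · exfalso
      have := natDegree_le_of_dvd h hD0
      omega
    · exact h
  have hcop2 : IsCoprime (A1.map (Int.castRingHom ℚ)) (B2.map (Int.castRingHom ℚ)) := by
    rw [hB2, Polynomial.map_mul] at hcop
    exact hcop.of_mul_right_right
  obtain ⟨s, hs, hBs⟩ := force f A1 B2 (n + l) a hf hA1c hB2l hB20 (by omega) (by omega) (by omega)
    (by omega) hcop2 hf1 hrec
  have hgp : A1 + X ^ (n + l) * B2 = gp A1 s (n + l) := by
    rw [gp, hBs]; ring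
  rw [hgp] at hf1
  rcases Nat.eq_zero_or_pos A1.natDegree with h0 | hpos
  · -- cyclotomic
    exfalso
    have hAC : A1 = C (A1.coeff 0) := eq_C_of_natDegree_eq_zero h0
    have h1 : gp A1 s (n + l) = C (A1.coeff 0) * (1 + C s * X ^ (n + l)) := by
      rw [gp, hAC, reverse_C]
      simp only [coeff_C_zero]
      ring
    rw [h1] at hf1
    obtain ⟨c1, c2⟩ := cc_one_sub (n + l) (by omega)
    have hM1 : (cc (C (A1.coeff 0) * (1 + C s * X ^ (n + l)))).mahlerMeasure = 1 := by
      have e0 : (cc (C (A1.coeff 0))).mahlerMeasure = 1 :=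
        unit_mm (IsUnit.map C (Int.isUnit_iff_abs_eq.2 hA1c))
      rw [cc_mul, mahlerMeasure_mul, e0, one_mul]
      rcases hs with rfl | rfl
      · rw [show (1 + C (1 : ℤ) * X ^ (n + l) : ℤ[X]) = X ^ (n + l) + 1 by simp [add_comm]]
        exact c2
      · rw [show (1 + C (-1 : ℤ) * X ^ (n + l) : ℤ[X]) = -(X ^ (n + l) - 1) by simp; ring,
          cc_neg, mm_neg]
        exact c1
    obtain ⟨g2, hg2⟩ := hf1
    have hg20 : g2 ≠ 0 := by
      rintro rfl
      rw [mul_zero] at hg2
      rw [hg2] at hM1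
      simp [cc] at hM1
    rw [hg2, cc_mul, mahlerMeasure_mul] at hM1
    have h2 := mm_ge_one hg20
    nlinarith
  · have hGood : Good A1 := ⟨hpos, hA1c, by
      rw [hBs, Polynomial.map_mul] at hcop2
      exact hcop2.of_mul_right_right⟩
    have hprim : f.IsPrimitive := hf.isPrimitive (by rw [← hd]; omega)
    have hfQ : Irreducible (f.map (Int.castRingHom ℚ)) :=
      (IsPrimitive.Int.irreducible_iff_irreducible_map_cast hprim).1 hf
    have hsep : (cc f).Separable := by
      have h3 : (f.map (Int.castRingHom ℚ)).Separable := hfQ.separable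
      have h4 := h3.map (f := algebraMap ℚ ℂ)
      rw [Polynomial.map_map] at h4
      have h5 : (algebraMap ℚ ℂ).comp (Int.castRingHom ℚ) = Int.castRingHom ℂ := RingHom.ext_int _ _
      rw [h5] at h4
      exact h4
    have hapos : 1 ≤ a := by omega
    have haposR : (1 : ℝ) ≤ a := by exact_mod_cast hapos
    have hd4000 : (4000 : ℝ) ≤ d := by nlinarith
    have hlogd : Real.log d ≤ 2 * Real.log (n + 1) := by
      rw [show (2 : ℝ) * Real.log (n + 1) = Real.log ((n + 1) ^ 2) by rw [Real.log_pow]; norm_num]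
      apply Real.log_le_log (by linarith)
      have h2 : (d : ℝ) ≤ n + a := by exact_mod_cast (hd ▸ hFd)
      have h3 : (a : ℝ) ≤ n := by exact_mod_cast han.le
      nlinarith
    have key := exf A1 s (n + l) f η hη0 hη1 hGood hs (by omega) hf1 hsep (by
      rw [← hd]
      have e1 : (A1.natDegree : ℝ) ≤ a := by exact_mod_cast (by omega : A1.natDegree ≤ a)
      have e2 : (A1.natDegree : ℝ) * Real.log d ≤ a * (2 * Real.log (n + 1)) :=
        (mul_le_mul_of_nonneg_left hlogd (Nat.cast_nonneg _)).trans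
          (mul_le_mul_of_nonneg_right e1 (by linarith))
      have e3 : ε ^ 2 = 4 * η ^ 2 := by rw [hεη]; ring
      rw [e3] at hgap
      nlinarith) (by
      have h3 : (3 : ℝ) ≤ d := by linarith
      rw [← hd]
      exact_mod_cast h3)
    rw [← hd] at key
    refine fin (n + l) (by omega) ?_
    refine le_trans ?_ key
    apply mul_le_mul_of_nonneg_left _ hd0
    have h1 : Real.log θ ≤ Real.log (cc A1).mahlerMeasure := by
      rw [← hθ1]
      apply Real.log_le_log (by rw [hθ1]; linarith)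
      exact good_smyth Helper7.GP.sm hGood
    have h2 : (1 - η) * Real.log θ ≤ (1 - η) * Real.log (cc A1).mahlerMeasure :=
      mul_le_mul_of_nonneg_left h1 (by linarith)
    linarith

end Pool.Agent.Helper40.GP
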