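import Pool.Agent.Helper40.GP.MI
import Pool.Agent.Helper40.GP.Stm2

open Polynomial

namespace Pool.Agent.Helper40.GP

lemma ez_real (η LA Lf k d a n δ C : ℝ) (hη : 0 < η) (hη1 : η ≤ 1 / 2) (hLA : 0 ≤ LA)
    (hLf : 0 ≤ Lf) (hd : 3 ≤ d) (ha : 1 ≤ a) (hn0 : 0 ≤ n) (hdn : d = n + a)
    (hC : C = 160 / η) (hδ : δ = η / (4 * (C + 3))) (hl1 : 1 ≤ Real.log d)
    (hk1 : C * Real.log d ≤ k) (hk2 : k ≤ C * Real.log d + 1) (hal : a * Real.log d ≤ δ * d)
    (H : k * (d - (k + 2) * a) * LA ≤ (d - k * a + k * n) * Lf + d * Real.log d +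
      k * a * Real.log (2 * a) + d * Real.log (4 * k * a) + (8 * d * Real.log (6 * d) +
      4 * d * (Lf + LA))) : (1 - η) * LA - η ≤ Lf := by
  have hC1 : 320 ≤ C := by
    rw [hC, le_div_iff₀ hη]; linarith
  have hk0 : 320 ≤ k := by nlinarith
  have hkp : 0 < k := by linarith
  have hdp : 0 < d := by linarith
  have hl0 : 0 < Real.log d := by linarith
  -- `k a ≤ (η / 4) d`
  have hka2 : (k + 2) * a ≤ η / 4 * d := by
    have h1 : (k + 2) * a ≤ (C + 3) * (a * Real.log d) := by
      have : k + 2 ≤ (C + 3) * Real.log d := by nlinarith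
      nlinarith
    have h2 : (C + 3) * (a * Real.log d) ≤ (C + 3) * (δ * d) :=
      mul_le_mul_of_nonneg_left hal (by linarith)
    have h3 : (C + 3) * (δ * d) = η / 4 * d := by
      rw [hδ]
      have : C + 3 ≠ 0 := by linarith
      field_simp
    linarith
  have hka : k * a ≤ η / 4 * d := by nlinarith
  have hkad : k * a ≤ d := by nlinarith
  have had : a ≤ d := by nlinarith
  have hkd : k ≤ d := by nlinarith
  -- logarithms
  have hd9 : 9 * d ≤ d ^ 3 := by
    have h9 : 9 ≤ d ^ 2 := by nlinarith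
    calc 9 * d ≤ d ^ 2 * d := mul_le_mul_of_nonneg_right h9 hdp.le
      _ = d ^ 3 := by ring
  have e1 : Real.log (2 * a) ≤ 2 * Real.log d := by
    rw [show (2 : ℝ) * Real.log d = Real.log (d ^ 2) by rw [Real.log_pow]; norm_num]
    apply Real.log_le_log (by linarith)
    nlinarith
  have e2 : Real.log (4 * k * a) ≤ 3 * Real.log d := by
    rw [show (3 : ℝ) * Real.log d = Real.log (d ^ 3) by rw [Real.log_pow]; norm_num]
    apply Real.log_le_log (by positivity)
    have : 4 * k * a ≤ 4 * d := by nlinarith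
    linarith
  have e3 : Real.log (6 * d) ≤ 3 * Real.log d := by
    rw [show (3 : ℝ) * Real.log d = Real.log (d ^ 3) by rw [Real.log_pow]; norm_num]
    apply Real.log_le_log (by positivity)
    linarith
  have f1 : k * a * Real.log (2 * a) ≤ d * (2 * Real.log d) := by
    have h0 : 0 ≤ Real.log (2 * a) := Real.log_nonneg (by linarith)
    exact mul_le_mul hkad e1 h0 hdp.le
  have f2 : d * Real.log (4 * k * a) ≤ d * (3 * Real.log d) := mul_le_mul_of_nonneg_left e2 hdp.le
  have f3 : 8 * d * Real.log (6 * d) ≤ 8 * d * (3 * Real.log d) :=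
    mul_le_mul_of_nonneg_left e3 (by linarith)
  have f4 : (d - k * a + k * n) * Lf ≤ (d + k * d) * Lf := by
    apply mul_le_mul_of_nonneg_right _ hLf
    have : 0 ≤ k * a := by positivity
    nlinarith
  have f5 : k * (d - η / 4 * d) * LA ≤ k * (d - (k + 2) * a) * LA := by
    apply mul_le_mul_of_nonneg_right _ hLA
    apply mul_le_mul_of_nonneg_left _ hkp.le
    linarith
  have g1 : k * (1 - η / 4) * LA ≤ (k + 5) * Lf + 30 * Real.log d + 4 * LA := by
    have h1 : d * (k * (1 - η / 4) * LA) ≤ d * ((k + 5) * Lf + 30 * Real.log d + 4 * LA) := by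
      have h0 : d * (k * (1 - η / 4) * LA) = k * (d - η / 4 * d) * LA := by ring
      have h2 : d * ((k + 5) * Lf + 30 * Real.log d + 4 * LA) =
        (d + k * d) * Lf + 4 * d * (Lf + LA) + 30 * (d * Real.log d) := by ring
      rw [h0, h2]
      linarith
    exact le_of_mul_le_mul_left h1 hdp
  -- divide by `k`
  have g2 : 30 * Real.log d ≤ η / 4 * k := by
    have h1 : C * η = 160 := by rw [hC]; field_simp
    have h2 : C * Real.log d * η ≤ k * η := mul_le_mul_of_nonneg_right hk1 hη.le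
    have h3 : C * Real.log d * η = 160 * Real.log d := by rw [← h1]; ring
    linarith
  have g3 : 5 ≤ η / 4 * k := by linarith
  have g4 : k * (1 - η / 2) * LA ≤ k * ((1 + η / 4) * Lf + η / 4) := by
    have h1 : 4 * LA ≤ η / 4 * k * LA := mul_le_mul_of_nonneg_right (by linarith) hLA
    have h2 : 5 * Lf ≤ η / 4 * k * Lf := mul_le_mul_of_nonneg_right g3 hLf
    have h3 : k * (1 - η / 2) * LA = k * (1 - η / 4) * LA - η / 4 * k * LA := by ring
    have h4 : k * ((1 + η / 4) * Lf + η / 4) = k * Lf + η / 4 * k * Lf + η / 4 * k := by ring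
    rw [h3, h4]
    linarith
  have g5 : (1 - η / 2) * LA ≤ (1 + η / 4) * Lf + η / 4 := by
    have : k * ((1 - η / 2) * LA) ≤ k * ((1 + η / 4) * Lf + η / 4) := by linarith
    exact le_of_mul_le_mul_left this hkp
  have g6 : (1 + η / 4) * ((1 - η) * LA - η) ≤ (1 + η / 4) * Lf := by
    have h1 : 0 ≤ (η / 4 + η ^ 2 / 4) * LA := by positivity
    have h2 : (1 + η / 4) * ((1 - η) * LA - η) = (1 - η / 2) * LA - (η / 4 + η ^ 2 / 4) * LA - η -
        η ^ 2 / 4 := by ring
    have h3 : 0 ≤ η ^ 2 := by positivity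
    rw [h2]
    linarith
  exact le_of_mul_le_mul_left g6 (by linarith)

lemma exists_eta' (μ ε : ℝ) (hμ : 1 < μ) (hε : 0 < ε) : ∃ η : ℝ, 0 < η ∧ η ≤ 1 / 2 ∧
    μ - ε ≤ Real.exp ((1 - η) * Real.log μ - η) := by
  have hc : Filter.Tendsto (fun η : ℝ => Real.exp ((1 - η) * Real.log μ - η)) (nhds 0) (nhds μ) := by
    have : Continuous (fun η : ℝ => Real.exp ((1 - η) * Real.log μ - η)) := by fun_prop
    have h := this.tendsto 0
    simp only [sub_zero, one_mul] at h
    rwa [Real.exp_log (by linarith)] at h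
  have h1 := hc.eventually (lt_mem_nhds (show μ - ε < μ by linarith))
  rw [Metric.eventually_nhds_iff] at h1
  obtain ⟨r, hr, h1⟩ := h1
  refine ⟨min (r / 2) (1 / 2), by positivity, min_le_right _ _, (h1 ?_).le⟩
  rw [Real.dist_eq, sub_zero, abs_of_pos (by positivity)]
  exact lt_of_le_of_lt (min_le_left _ _) (by linarith)

theorem ez : S_EZ := by
  intro mi μ ε hμ hε
  obtain ⟨η, hη, hη1, hηe⟩ := exists_eta' μ ε hμ hε
  set C : ℝ := 160 / η with hC
  have hC1 : 320 ≤ C := by rw [hC, le_div_iff₀ hη]; linarith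
  set δ : ℝ := η / (4 * (C + 3)) with hδ
  have hδ0 : 0 < δ := by positivity
  refine ⟨δ, hδ0, ?_, ?_⟩
  · rw [hδ, div_le_div_iff₀ (by linarith) (by norm_num)]; nlinarith
  · intro A s n d hA hs hn hd hal hM
    have ha1 : 1 ≤ A.natDegree := hA.deg
    have hd3 : 3 ≤ d := by omega
    have hd3' : (3 : ℝ) ≤ d := by exact_mod_cast hd3
    have ha1' : (1 : ℝ) ≤ A.natDegree := by exact_mod_cast ha1
    have hl1 : 1 ≤ Real.log d := by
      rw [Real.le_log_iff_exp_le (by linarith)]
      have := Real.exp_one_lt_d9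
      linarith
    set k : ℕ := ⌈C * Real.log d⌉₊ with hk
    have hk1 : C * Real.log d ≤ k := Nat.le_ceil _
    have hk2 : (k : ℝ) ≤ C * Real.log d + 1 := (Nat.ceil_lt_add_one (by positivity)).le
    have hk4 : 4 ≤ k := by
      have : (4 : ℝ) ≤ k := by nlinarith
      exact_mod_cast this
    have hdn : (d : ℝ) = (n : ℝ) + A.natDegree := by rw [hd]; push_cast; ring
    have hkad : (k + 2) * A.natDegree ≤ d := by
      have h1 : ((k : ℝ) + 2) * A.natDegree ≤ (C + 3) * (A.natDegree * Real.log d) := by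
        have : (k : ℝ) + 2 ≤ (C + 3) * Real.log d := by nlinarith
        nlinarith
      have h2 : (C + 3) * (A.natDegree * Real.log d) ≤ (C + 3) * (δ * d) :=
        mul_le_mul_of_nonneg_left hal (by linarith)
      have h3 : (C + 3) * (δ * d) = η / 4 * d := by
        rw [hδ]
        have : C + 3 ≠ 0 := by linarith
        field_simp
      have h4 : ((k : ℝ) + 2) * A.natDegree ≤ d := by nlinarith
      exact_mod_cast h4
    have H := mi A s n k d hA hs hn hk4 hd hkad
    have hA0 := good_ne hA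
    have hMA : 0 < (cc A).mahlerMeasure := mahlerMeasure_pos_of_ne_zero (cc_ne_zero hA0)
    have hf0 : gp A s n ≠ 0 := by
      intro h
      have h1 : (gp A s n).coeff 0 = A.coeff 0 := by
        rw [gp, coeff_add, mul_assoc, mul_comm (X ^ n), ← mul_assoc, coeff_mul_X_pow', if_neg (by omega),
          add_zero]
      rw [h, coeff_zero] at h1
      exact good_const hA h1.symm
    have hMf : 1 ≤ (cc (gp A s n)).mahlerMeasure := one_le_mahlerMeasure_of_ne_zero hf0
    have hLA : Real.log μ ≤ Real.log (cc A).mahlerMeasure := Real.log_le_log (by linarith) hM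
    have hlμ : 0 < Real.log μ := Real.log_pos hμ
    have := ez_real η (Real.log (cc A).mahlerMeasure) (Real.log (cc (gp A s n)).mahlerMeasure) k d
      A.natDegree n δ C hη hη1 (by linarith) (Real.log_nonneg hMf) hd3' ha1' (Nat.cast_nonneg _) hdn
      hC hδ hl1 hk1 hk2 hal (by exact_mod_cast H)
    have h5 : (1 - η) * Real.log μ - η ≤ Real.log (cc (gp A s n)).mahlerMeasure := by nlinarith
    refine hηe.trans ?_
    rw [← Real.le_log_iff_exp_le (by linarith)]
    exact h5

end Pool.Agent.Helper40.GP
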