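import Pool.Agent.Helper40.GP.Stm

open Polynomial

namespace Pool.Agent.Helper40.GP

lemma exists_lists (F : ℂ[X]) (d : ℕ) (h : F.natDegree = d) : ∃ z : Fin d → ℂ, Lists F z := by
  subst h
  have hs := IsAlgClosed.splits F
  have hc : F.roots.card = F.natDegree := (splits_iff_card_roots.1 hs)
  have hl : F.roots.toList.length = F.natDegree := by rw [Multiset.length_toList, hc]
  refine ⟨fun i => F.roots.toList.get (i.cast hl.symm), ?_⟩
  have h1 := hs.eq_prod_roots
  rw [Lists]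
  conv_lhs => rw [h1]
  congr 1
  conv_lhs => rw [← Multiset.coe_toList F.roots]
  rw [Multiset.map_coe, Multiset.prod_coe]
  rw [← List.prod_ofFn]
  congr 1
  apply List.ext_get
  · simp [hl]
  · intro i h1 h2
    simp

lemma exists_enum (s : Multiset ℂ) : ∃ g : Fin s.card → ℂ,
    (∀ f : ℂ → ℝ, (s.map f).sum = ∑ i, f (g i)) ∧ (∀ f : ℂ → ℝ, (s.map f).prod = ∏ i, f (g i)) ∧
    ∀ i, g i ∈ s := by
  have hl : s.toList.length = s.card := Multiset.length_toList s
  refine ⟨fun i => s.toList.get (i.cast hl.symm), fun f => ?_, fun f => ?_, fun i => ?_⟩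
  · conv_lhs => rw [← Multiset.coe_toList s]
    rw [Multiset.map_coe, Multiset.sum_coe, ← List.sum_ofFn]
    congr 1
    apply List.ext_get
    · simp
    · intro i h1 h2
      simp
  · conv_lhs => rw [← Multiset.coe_toList s]
    rw [Multiset.map_coe, Multiset.prod_coe, ← List.prod_ofFn]
    congr 1
    apply List.ext_get
    · simp
    · intro i h1 h2
      simp
  · exact Multiset.mem_toList.1 (List.get_mem _ _)

/-- `S_AV` for any finite index type -/
lemma av' (av : S_AV) {ι : Type} [Fintype ι] (c c' : ι → ℂ) (w : ι → ℝ) (W : ℝ) (P Q : ℂ[X])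
    (h1 : ∀ i, c i ≠ 0 ∨ c' i ≠ 0) (h2 : ∀ i, 0 ≤ w i) (h3 : 0 ≤ W) (h4 : P ≠ 0)
    (h5 : ∀ x : ℂ, ‖x‖ = 1 → ‖P.eval x‖ = ‖Q.eval x‖) :
    ∃ v : ℂ, ‖v‖ = 1 ∧ (∀ i, c i - v * c' i ≠ 0) ∧ P - C v * Q ≠ 0 ∧
    ∑ i, w i * Real.log (max ‖c i‖ ‖c' i‖) + W * Real.log P.mahlerMeasure ≤
      ∑ i, w i * Real.log ‖c i - v * c' i‖ + W * Real.log (P - C v * Q).mahlerMeasure := by
  let e := Fintype.equivFin ι
  obtain ⟨v, hv, _, hc, hP, hle⟩ := av (Fintype.card ι) (fun i => c (e.symm i)) (fun i => c' (e.symm i))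
    (fun i => w (e.symm i)) W P Q ∅ (fun i => h1 _) (fun i => h2 _) h3 h4 h5 Set.finite_empty
  refine ⟨v, hv, fun i => by simpa using hc (e i), hP, ?_⟩
  rw [← e.symm.sum_comp (fun i => w i * Real.log (max ‖c i‖ ‖c' i‖)),
    ← e.symm.sum_comp (fun i => w i * Real.log ‖c i - v * c' i‖)]
  exact hle

lemma lists_eval {F : ℂ[X]} {d : ℕ} {z : Fin d → ℂ} (h : Lists F z) (x : ℂ) :
    ‖F.eval x‖ = ‖F.leadingCoeff‖ * ∏ i, ‖x - z i‖ := by
  conv_lhs => rw [show F = C F.leadingCoeff * ∏ i, (X - C (z i)) from h]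
  rw [eval_mul, eval_C, norm_mul, eval_prod, norm_prod]
  simp

lemma cc_natDegree (A : ℤ[X]) : (cc A).natDegree = A.natDegree :=
  natDegree_map_eq_of_injective (Int.castRingHom ℂ).injective_int A

lemma cc_ne_zero {A : ℤ[X]} (h : A ≠ 0) : cc A ≠ 0 :=
  (Polynomial.map_ne_zero_iff (Int.castRingHom ℂ).injective_int).2 h

lemma cc_lead (A : ℤ[X]) : (cc A).leadingCoeff = (A.leadingCoeff : ℂ) := by
  rw [cc, leadingCoeff_map_of_injective (Int.castRingHom ℂ).injective_int]; simp

lemma good_ne {A : ℤ[X]} (h : Good A) : A ≠ 0 := by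
  rintro rfl
  have := h.deg
  simp at this

lemma good_const {A : ℤ[X]} (h : Good A) : A.coeff 0 ≠ 0 := by
  intro h0
  have := h.const
  rw [h0] at this
  simp at this

lemma rev_natDegree {A : ℤ[X]} (h : A.coeff 0 ≠ 0) : A.reverse.natDegree = A.natDegree := by
  rw [reverse_natDegree, natTrailingDegree_eq_zero_of_constantCoeff_ne_zero (by simpa using h)]
  simp

lemma rev_lead {A : ℤ[X]} (h : A.coeff 0 ≠ 0) : A.reverse.leadingCoeff = A.coeff 0 := by
  rw [reverse_leadingCoeff, trailingCoeff,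
    natTrailingDegree_eq_zero_of_constantCoeff_ne_zero (by simpa using h)]

lemma rev_ne {A : ℤ[X]} (h : A.coeff 0 ≠ 0) : A.reverse ≠ 0 := by
  intro h1
  have := rev_lead h
  rw [h1] at this
  simp at this
  exact h this.symm

/-- `|A| = |A^*|` on the unit circle -/
lemma circle_eq (A : ℤ[X]) (x : ℂ) (hx : ‖x‖ = 1) :
    ‖(cc A).eval x‖ = ‖(cc A.reverse).eval x‖ := by
  have hx0 : x ≠ 0 := by rintro rfl; simp at hx
  let _ : Invertible x := invertibleOfNonzero hx0
  have h1 := Polynomial.eval₂_reverse_mul_pow (Int.castRingHom ℂ) x A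
  have h2 : (⅟x : ℂ) = (starRingEnd ℂ) x := by
    rw [invOf_eq_inv, Complex.inv_def, Complex.normSq_eq_norm_sq, hx]; simp
  have h3 : ∀ (D : ℤ[X]), eval₂ (Int.castRingHom ℂ) ((starRingEnd ℂ) x) D =
      (starRingEnd ℂ) (eval₂ (Int.castRingHom ℂ) x D) := by
    intro D
    rw [eval₂_eq_sum_range, eval₂_eq_sum_range, map_sum]
    refine Finset.sum_congr rfl fun i _ => ?_
    simp
  have h4 : ‖eval₂ (Int.castRingHom ℂ) x A‖ = ‖eval₂ (Int.castRingHom ℂ) x A.reverse‖ := by
    rw [← h1, norm_mul, norm_pow, hx, one_pow, mul_one, h2, h3, Complex.norm_conj]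
  simpa [cc, eval_map] using h4

lemma rev_natDegree' {A : ℤ[X]} (hA : Good A) : (cc A.reverse).natDegree = A.natDegree := by
  rw [cc_natDegree, rev_natDegree (good_const hA)]

lemma pp_eval (A : ℤ[X]) (k : ℕ) (v x : ℂ) :
    (PP A k v).eval x = (cc A).eval x ^ k - v * (cc A.reverse).eval x ^ k := by
  simp [PP]

lemma pp_coeff {A : ℤ[X]} (hA : Good A) (k : ℕ) (v : ℂ) :
    (PP A k v).coeff (k * A.natDegree) = (A.leadingCoeff : ℂ) ^ k - v * (A.coeff 0 : ℂ) ^ k := by
  have h1 := coeff_pow_mul_natDegree (cc A) k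
  have h2 := coeff_pow_mul_natDegree (cc A.reverse) k
  rw [cc_natDegree] at h1
  rw [rev_natDegree' hA] at h2
  rw [PP, coeff_sub, coeff_C_mul, h1, h2, cc_lead, cc_lead, rev_lead (good_const hA)]

lemma mm_pow (P : ℂ[X]) (k : ℕ) : (P ^ k).mahlerMeasure = P.mahlerMeasure ^ k := by
  induction k with
  | zero => simp
  | succ k ih => rw [pow_succ, pow_succ, mahlerMeasure_mul, ih]

/-- the choice of `v` -/
lemma choose_v (av : S_AV) (jb : S_JB) {A : ℤ[X]} (hA : Good A) (k : ℕ) (hk : 4 ≤ k) {d : ℕ}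
    (z : Fin d → ℂ) (hzne : ∀ i, (cc A).eval (z i) ≠ 0) (hkd : k * A.natDegree ≤ d) :
    ∃ v : ℂ, ‖v‖ = 1 ∧ (∀ i, (PP A k v).eval (z i) ≠ 0) ∧
      (∀ x ∈ (cc (JJ A)).roots, (PP A k v).eval x ≠ 0) ∧
      (PP A k v).coeff (k * A.natDegree) ≠ 0 ∧ PP A k v ≠ 0 ∧
      2 * ((d : ℝ) - k * A.natDegree) * (k * Real.log (cc A).mahlerMeasure) -
        k * (2 * A.natDegree * Real.log (2 * A.natDegree)) - k * (A.natDegree *
          Real.log |((JJ A).leadingCoeff : ℝ)|) ≤
      Real.log ((cc (JJ A)).roots.map fun x => ‖(PP A k v).eval x‖).prod +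
      (2 * A.natDegree - (JJ A).natDegree : ℝ) * Real.log ‖(PP A k v).coeff (k * A.natDegree)‖ +
      2 * ((d : ℝ) - k * A.natDegree) * Real.log (PP A k v).mahlerMeasure := by
  obtain ⟨hJ, hJd, hH, hJl⟩ := jb A hA
  have ha1 : 1 ≤ A.natDegree := hA.deg
  have hA0 := good_ne hA
  have hc0 := good_const hA
  have hl0 : (A.leadingCoeff : ℂ) ≠ 0 := by exact_mod_cast leadingCoeff_ne_zero.2 hA0
  have hl1 : 1 ≤ ‖(A.leadingCoeff : ℂ)‖ := by
    rw [Complex.norm_intCast]
    have : 1 ≤ |A.leadingCoeff| := Int.one_le_abs (leadingCoeff_ne_zero.2 hA0)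
    exact_mod_cast this
  have hcn : ‖(A.coeff 0 : ℂ)‖ = 1 := by
    rw [Complex.norm_intCast]
    have := hA.const
    exact_mod_cast this
  obtain ⟨g, hgs, hgp, hgm⟩ := exists_enum (cc (JJ A)).roots
  have hbd : (cc (JJ A)).roots.card = (JJ A).natDegree := by
    rw [splits_iff_card_roots.1 (IsAlgClosed.splits (cc (JJ A))), cc_natDegree]
  obtain ⟨v, hv, hvne, hPne, hvle⟩ := av' av (ι := Fin (cc (JJ A)).roots.card ⊕ Unit ⊕ Fin d)
    (Sum.elim (fun i => (cc A).eval (g i) ^ k)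
      (Sum.elim (fun _ => (A.leadingCoeff : ℂ) ^ k) (fun i => (cc A).eval (z i) ^ k)))
    (Sum.elim (fun i => (cc A.reverse).eval (g i) ^ k)
      (Sum.elim (fun _ => (A.coeff 0 : ℂ) ^ k) (fun i => (cc A.reverse).eval (z i) ^ k)))
    (Sum.elim (fun _ => 1)
      (Sum.elim (fun _ => (2 * A.natDegree - (JJ A).natDegree : ℝ)) (fun _ => 0)))
    (2 * ((d : ℝ) - k * A.natDegree)) (cc A ^ k) (cc A.reverse ^ k)
    (by
      rintro (i | i | i)
      · simp only [Sum.elim_inl]
        by_contra hcon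
        push Not at hcon
        have h1 := pow_eq_zero_iff (by omega) |>.1 hcon.1
        have h2 := pow_eq_zero_iff (by omega) |>.1 hcon.2
        have h3 := hH (g i)
        rw [HH, h1, h2] at h3
        simp at h3
      · simp only [Sum.elim_inr, Sum.elim_inl]
        exact Or.inl (pow_ne_zero _ hl0)
      · simp only [Sum.elim_inr]
        exact Or.inl (pow_ne_zero k (hzne i)))
    (by
      rintro (i | i | i)
      · simp
      · simp only [Sum.elim_inr, Sum.elim_inl]
        have : (JJ A).natDegree ≤ 2 * A.natDegree := by omega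
        have : ((JJ A).natDegree : ℝ) ≤ 2 * A.natDegree := by exact_mod_cast this
        linarith
      · simp)
    (by
      have : ((k * A.natDegree : ℕ) : ℝ) ≤ (d : ℝ) := by exact_mod_cast hkd
      push_cast at this
      linarith)
    (pow_ne_zero _ (cc_ne_zero hA0))
    (fun x hx => by rw [eval_pow, eval_pow, norm_pow, norm_pow, circle_eq A x hx])
  rw [Fintype.sum_sum_type, Fintype.sum_sum_type, Fintype.sum_sum_type, Fintype.sum_sum_type] at hvle
  simp only [Sum.elim_inl, Sum.elim_inr, Finset.univ_unique, Finset.sum_singleton, one_mul, zero_mul,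
    Finset.sum_const_zero, add_zero] at hvle
  have hvg : ∀ i, (PP A k v).eval (g i) ≠ 0 := fun i => by
    rw [pp_eval]; simpa using hvne (Sum.inl i)
  have hvl : (PP A k v).coeff (k * A.natDegree) ≠ 0 := by
    rw [pp_coeff hA]; simpa using hvne (Sum.inr (Sum.inl ()))
  have hvz : ∀ i, (PP A k v).eval (z i) ≠ 0 := fun i => by
    rw [pp_eval]; simpa using hvne (Sum.inr (Sum.inr i))
  refine ⟨v, hv, hvz, ?_, hvl, hPne, ?_⟩
  · intro x hx
    by_contra h0
    have h1 := hgp (fun x => ‖(PP A k v).eval x‖)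
    have h2 : ((cc (JJ A)).roots.map fun x => ‖(PP A k v).eval x‖).prod = 0 := by
      apply Multiset.prod_eq_zero
      rw [Multiset.mem_map]
      exact ⟨x, hx, by rw [h0, norm_zero]⟩
    rw [h2] at h1
    have h3 : ∏ i, ‖(PP A k v).eval (g i)‖ ≠ 0 :=
      Finset.prod_ne_zero_iff.2 (fun i _ => norm_ne_zero_iff.2 (hvg i))
    exact h3 h1.symm
  · have e1 : Real.log ((cc (JJ A)).roots.map fun x => ‖(PP A k v).eval x‖).prod =
        ∑ i, Real.log ‖(cc A).eval (g i) ^ k - v * (cc A.reverse).eval (g i) ^ k‖ := by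
      rw [hgp, Real.log_prod (fun i _ => norm_ne_zero_iff.2 (hvg i))]
      simp only [pp_eval]
    have e2 : ∀ x, Real.log (max ‖(cc A).eval x ^ k‖ ‖(cc A.reverse).eval x ^ k‖) =
        k * Real.log (HH A x) := by
      intro x
      rw [norm_pow, norm_pow, ← Real.log_pow, HH]
      congr 1
      rcases le_total ‖(cc A).eval x‖ ‖(cc A.reverse).eval x‖ with h | h
      · rw [max_eq_right h, max_eq_right (pow_le_pow_left₀ (norm_nonneg _) h k)]
      · rw [max_eq_left h, max_eq_left (pow_le_pow_left₀ (norm_nonneg _) h k)]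
    have e3 : 0 ≤ Real.log (max ‖(A.leadingCoeff : ℂ) ^ k‖ ‖(A.coeff 0 : ℂ) ^ k‖) := by
      apply Real.log_nonneg
      refine le_trans ?_ (le_max_left _ _)
      rw [norm_pow]
      exact one_le_pow₀ hl1
    have e4 : (0 : ℝ) ≤ 2 * A.natDegree - (JJ A).natDegree := by
      have : (JJ A).natDegree ≤ 2 * A.natDegree := by omega
      have : ((JJ A).natDegree : ℝ) ≤ 2 * A.natDegree := by exact_mod_cast this
      linarith
    have e5 := mul_nonneg e4 e3
    have e6 : Real.log (cc A ^ k).mahlerMeasure = k * Real.log (cc A).mahlerMeasure := by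
      rw [← Real.log_pow, mm_pow]
    have e7 : (∑ i, Real.log (max ‖(cc A).eval (g i) ^ k‖ ‖(cc A.reverse).eval (g i) ^ k‖)) =
        k * ((cc (JJ A)).roots.map fun x => Real.log (HH A x)).sum := by
      rw [hgs, Finset.mul_sum]
      exact Finset.sum_congr rfl fun i _ => e2 (g i)
    have e8 := mul_le_mul_of_nonneg_left hJl (Nat.cast_nonneg' k : (0 : ℝ) ≤ k)
    rw [e1, pp_coeff hA]
    rw [e6, e7] at hvle
    have e9 : (PP A k v) = cc A ^ k - C v * cc A.reverse ^ k := rfl
    rw [e9]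
    linarith

lemma V2_nonneg {ι : Type} [Fintype ι] [DecidableEq ι] (z : ι → ℂ) : 0 ≤ V2 z :=
  Finset.prod_nonneg fun _ _ => Finset.prod_nonneg fun _ _ => norm_nonneg _

set_option maxHeartbeats 4000000 in
theorem mi (cv : S_CV) (di : S_DI) (av : S_AV) (jb : S_JB) (re : S_RE) (vy : S_VY) (ro : S_RO) :
    S_MI := by
  intro A s n k d hA hs hn hsep hk hd hkd
  obtain ⟨z, ρ, hz, hV, hρ0, hρ1, hρA, hρB, hρs⟩ := ro A s n hA hs hn hsep
  obtain ⟨hR, hdeg, hlead, hre⟩ := re A s n hA hs hn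
  obtain ⟨hzM, hzne, hzH⟩ := hre z hz
  obtain ⟨hJ, hJd, hH, hJl⟩ := jb A hA
  subst hd
  have ha1 : 1 ≤ A.natDegree := hA.deg
  have hA0 := good_ne hA
  have hc0 := good_const hA
  obtain ⟨v, hv, hvz, hvg, hvl, hP0, hvle⟩ := choose_v av jb hA k hk z (fun i => (hzne i).1) hkd
  obtain ⟨hPd, hvy⟩ := vy A k v hA (by omega) hv hvl
  obtain ⟨y, hy⟩ := exists_lists (PP A k v) (k * A.natDegree) hPd
  obtain ⟨hyM, hyV⟩ := hvy y hy
  have hlc : (PP A k v).leadingCoeff = (PP A k v).coeff (k * A.natDegree) := by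
    rw [leadingCoeff, hPd]
  set L := ‖(PP A k v).leadingCoeff‖ with hL
  have hL0 : 0 < L := norm_pos_iff.2 (by rw [hlc]; exact hvl)
  have hf0 : gp A s n ≠ 0 := by
    intro h; rw [h] at hlead; simp at hlead
  have hMf0 : 0 < (cc (gp A s n)).mahlerMeasure := mahlerMeasure_pos_of_ne_zero (cc_ne_zero hf0)
  have hk0 : 0 < (k : ℝ) := by exact_mod_cast (by omega : 0 < k)
  have ha0 : 0 < (A.natDegree : ℝ) := by exact_mod_cast ha1
  -- distances
  have hzy : ∀ i j, z i ≠ y j := by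
    intro i j h
    apply hvz i
    have := lists_eval hy (z i)
    rw [← norm_eq_zero, this, Finset.prod_eq_zero (Finset.mem_univ j) (by rw [h]; simp), mul_zero]
  have hHz : ∀ i, 0 < HH A (z i) := fun i => hH _
  have hPz : ∀ i, 0 < ‖(PP A k v).eval (z i)‖ := fun i => norm_pos_iff.2 (hvz i)
  have hPle : ∀ i, ‖(PP A k v).eval (z i)‖ ≤ 2 * HH A (z i) ^ k := by
    intro i
    rw [pp_eval]
    refine (norm_sub_le _ _).trans ?_
    rw [norm_mul, hv, one_mul, norm_pow, norm_pow]
    have h1 : ‖(cc A).eval (z i)‖ ^ k ≤ HH A (z i) ^ k := pow_le_pow_left₀ (norm_nonneg _) (le_max_left _ _) k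
    have h2 : ‖(cc A.reverse).eval (z i)‖ ^ k ≤ HH A (z i) ^ k :=
      pow_le_pow_left₀ (norm_nonneg _) (le_max_right _ _) k
    linarith
  let B : Fin (n + A.natDegree) → ℝ := fun i =>
    4 * k * A.natDegree * HH A (z i) ^ k / (ρ i * ‖(PP A k v).eval (z i)‖)
  have hB1 : ∀ i, 1 ≤ B i := by
    intro i
    rw [one_le_div (mul_pos (hρ0 i) (hPz i))]
    have h1 : ρ i * ‖(PP A k v).eval (z i)‖ ≤ 1 * (2 * HH A (z i) ^ k) :=
      mul_le_mul (hρ1 i) (hPle i) (hPz i).le zero_le_one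
    have h2 : (1 : ℝ) ≤ k * A.natDegree := by
      have : 1 ≤ k * A.natDegree := Nat.mul_pos (by omega) ha1
      exact_mod_cast this
    have h3 : 0 < HH A (z i) ^ k := pow_pos (hHz i) k
    nlinarith
  have hBy : ∀ i j, 1 ≤ B i * ‖z i - y j‖ := by
    intro i j
    have h1 := di (cc A) (cc A.reverse) k A.natDegree v (z i) (y j) (ρ i) (by omega) ha1
      (cc_natDegree A).le (rev_natDegree' hA).le hv (hρ0 i) (hρ1 i) (cc_ne_zero hA0)
      (cc_ne_zero (rev_ne hc0)) (hρA i) (hρB i) (by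
        have := lists_eval hy (y j)
        rw [Finset.prod_eq_zero (Finset.mem_univ j) (by simp), mul_zero, norm_eq_zero] at this
        exact this)
    rw [div_mul_eq_mul_div, one_le_div (mul_pos (hρ0 i) (hPz i))]
    exact h1
  have hcv := cv (n + A.natDegree) (k * A.natDegree) z y B hkd hzy hB1 hBy
  -- logarithms
  have hV1 : 0 < V2 z := lt_of_lt_of_le one_pos hV
  have hJ0 : ((JJ A).leadingCoeff : ℝ) ≠ 0 := by exact_mod_cast leadingCoeff_ne_zero.2 hJ
  have hR0 : 0 < RR A := lt_of_lt_of_le one_pos hR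
  have hprodg : 0 < ((cc (JJ A)).roots.map fun x => ‖(PP A k v).eval x‖).prod := by
    apply Multiset.prod_pos
    intro r hr
    rw [Multiset.mem_map] at hr
    obtain ⟨x, hx, rfl⟩ := hr
    exact norm_pos_iff.2 (hvg x hx)
  have hVy : 0 < V2 y := by
    have h1 : 0 < V2 y * L ^ (2 * k * A.natDegree - 2 * A.natDegree + (JJ A).natDegree) := by
      rw [hyV]; positivity
    exact pos_of_mul_pos_left h1 (by positivity)
  have hmy : 0 < ∏ j, max 1 ‖y j‖ := Finset.prod_pos fun _ _ => lt_of_lt_of_le one_pos (le_max_left _ _)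
  have hmz : 0 < ∏ i, max 1 ‖z i‖ := Finset.prod_pos fun _ _ => lt_of_lt_of_le one_pos (le_max_left _ _)
  have hzy0 : 0 < ∏ i, ∏ j, ‖z i - y j‖ :=
    Finset.prod_pos fun i _ => Finset.prod_pos fun j _ => norm_pos_iff.2 (sub_ne_zero.2 (hzy i j))
  have hBpos : ∀ i, 0 < B i := fun i => lt_of_lt_of_le one_pos (hB1 i)
  have hBp : 0 < ∏ i, B i := Finset.prod_pos fun i _ => hBpos i
  have hfac : 0 < ((n + A.natDegree).factorial : ℝ) := by exact_mod_cast Nat.factorial_pos _
  have hlog := Real.log_le_log (by positivity) hcv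
  rw [Real.log_mul (by positivity) (by positivity), Real.log_mul hV1.ne' hVy.ne', Real.log_pow,
    Real.log_mul (by positivity) (by positivity), Real.log_mul (by positivity) (by positivity),
    Real.log_mul (by positivity) (by positivity), Real.log_pow, Real.log_pow, Real.log_pow,
    Real.log_pow] at hlog
  -- the terms
  have t1 : Real.log (∏ i, ∏ j, ‖z i - y j‖) = ∑ i, Real.log ‖(PP A k v).eval (z i)‖ -
      (n + A.natDegree : ℕ) * Real.log L := by
    rw [Real.log_prod (fun i _ => (Finset.prod_pos fun j _ =>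
      norm_pos_iff.2 (sub_ne_zero.2 (hzy i j))).ne')]
    have : ∀ i, Real.log (∏ j, ‖z i - y j‖) = Real.log ‖(PP A k v).eval (z i)‖ - Real.log L := by
      intro i
      have h1 := lists_eval hy (z i)
      have h2 : 0 < ∏ j, ‖z i - y j‖ := Finset.prod_pos fun j _ =>
        norm_pos_iff.2 (sub_ne_zero.2 (hzy i j))
      rw [h1, Real.log_mul hL0.ne' h2.ne']; ring
    rw [Finset.sum_congr rfl fun i _ => this i, Finset.sum_sub_distrib]
    simp
  have t2 : Real.log (∏ i, B i) = (n + A.natDegree : ℕ) * Real.log (4 * k * A.natDegree) +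
      ∑ i, Real.log (1 / ρ i) + k * ∑ i, Real.log (HH A (z i)) -
      ∑ i, Real.log ‖(PP A k v).eval (z i)‖ := by
    rw [Real.log_prod (fun i _ => (hBpos i).ne')]
    have : ∀ i, Real.log (B i) = Real.log (4 * k * A.natDegree) + Real.log (1 / ρ i) +
        k * Real.log (HH A (z i)) - Real.log ‖(PP A k v).eval (z i)‖ := by
      intro i
      simp only [B]
      rw [Real.log_div (mul_pos (by positivity) (pow_pos (hHz i) k)).ne'
        (mul_pos (hρ0 i) (hPz i)).ne', Real.log_mul (by positivity) (pow_pos (hHz i) k).ne',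
        Real.log_mul (hρ0 i).ne' (hPz i).ne', Real.log_pow, one_div, Real.log_inv]
      ring
    rw [Finset.sum_congr rfl fun i _ => this i, Finset.sum_sub_distrib, Finset.sum_add_distrib,
      Finset.sum_add_distrib, Finset.mul_sum]
    simp
  have t3 : ∑ i, Real.log (HH A (z i)) = Real.log (RR A) +
      n * Real.log (cc (gp A s n)).mahlerMeasure := by
    rw [← Real.log_prod (fun i _ => (hHz i).ne'), hzH, Real.log_mul hR0.ne' (by positivity),
      Real.log_pow]
  have t4 : Real.log (∏ j, max 1 ‖y j‖) = Real.log (PP A k v).mahlerMeasure - Real.log L := by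
    rw [← hyM, Real.log_mul hmy.ne' hL0.ne']; ring
  have t5 : Real.log (V2 y) = k * A.natDegree * Real.log k + k * (k - 2) * Real.log (RR A) +
      k * A.natDegree * Real.log |((JJ A).leadingCoeff : ℝ)| +
      Real.log ((cc (JJ A)).roots.map fun x => ‖(PP A k v).eval x‖).prod -
      (2 * k * A.natDegree - 2 * A.natDegree + (JJ A).natDegree) * Real.log L := by
    have h1 := congrArg Real.log hyV
    rw [Real.log_mul hVy.ne' (by positivity), Real.log_mul (by positivity) hprodg.ne',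
      Real.log_mul (by positivity) (by positivity), Real.log_mul (by positivity) (by positivity),
      Real.log_pow, Real.log_pow, Real.log_pow, Real.log_pow] at h1
    have h2 : 2 * A.natDegree ≤ 2 * k * A.natDegree := by nlinarith
    rw [Nat.cast_add, Nat.cast_sub h2] at h1
    have h3 : ((k * (k - 2) : ℕ) : ℝ) = k * (k - 2) := by
      rw [Nat.cast_mul, Nat.cast_sub (by omega)]; norm_num
    rw [h3] at h1
    push_cast at h1
    linarith
  have t6 : 0 ≤ Real.log (V2 z) := Real.log_nonneg hV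
  have t7 : Real.log ((n + A.natDegree).factorial : ℝ) ≤ (n + A.natDegree : ℕ) *
      Real.log (n + A.natDegree : ℕ) := by
    rw [← Real.log_pow]
    apply Real.log_le_log hfac
    exact_mod_cast Nat.factorial_le_pow _
  have t8 : 0 ≤ Real.log (RR A) := Real.log_nonneg hR
  have t9 : 0 ≤ Real.log (k : ℝ) := Real.log_nonneg (by exact_mod_cast (by omega : 1 ≤ k))
  have t10 : ((n + A.natDegree - k * A.natDegree : ℕ) : ℝ) = ((n + A.natDegree : ℕ) : ℝ) - k * A.natDegree := by
    rw [Nat.cast_sub hkd]; push_cast; ring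
  rw [t1, t2, t3, t4, t5, hzM] at hlog
  rw [show ((2 * (n + A.natDegree - k * A.natDegree) : ℕ) : ℝ) = 2 * (((n + A.natDegree : ℕ) : ℝ) - k * A.natDegree) by
    rw [Nat.cast_mul, t10]; norm_num] at hlog
  rw [← hlc, ← hL] at hvle
  have t11 : 0 ≤ (k : ℝ) * (k - 4) * Real.log (RR A) := by
    have : (4 : ℝ) ≤ k := by exact_mod_cast hk
    exact mul_nonneg (mul_nonneg hk0.le (by linarith)) t8
  have t12 : 0 ≤ (k : ℝ) * A.natDegree * Real.log k := by positivity
  push_cast at hlog hvle hρs t7 ⊢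
  nlinarith

end Pool.Agent.Helper40.GP
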