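import Pool.Agent.Helper40.GP.Stm2
import Pool.Agent.Helper40.GP.MI

open Polynomial

namespace Pool.Agent.Helper40.GP

set_option maxHeartbeats 4000000 in
theorem mz (cv : S_CV) (di : S_DI) (av : S_AV) (jb : S_JB) (vy : S_VY) (rz : S_RZ) :
    S_MZ := by
  intro A s n k D hA hs hn hk hd hkd'
  obtain ⟨d, z, ρ, hd1, hd2, hR, hV, hzne, hzM, hzH, hρ0, hρ1, hρA, hρB, hρs⟩ := rz A s n hA hs hn
  obtain ⟨hJ, hJd, hH, hJl⟩ := jb A hA
  have hkd : k * A.natDegree ≤ d := by
    have : (k + 2) * A.natDegree = k * A.natDegree + 2 * A.natDegree := by ring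
    omega
  subst hd
  have ha1 : 1 ≤ A.natDegree := hA.deg
  have hA0 := good_ne hA
  have hc0 := good_const hA
  obtain ⟨v, hv, hvz, hvg, hvl, hP0, hvle⟩ := choose_v av jb hA k hk z (fun i => (hzne i).1) hkd
  obtain ⟨hPd, hvy⟩ := vy A k v hA (by omega) hv hvl
  obtain ⟨y, hy⟩ := exists_lists (PP A k v) (k * A.natDegree) hPd
  obtain ⟨hyM, hyV⟩ := hvy y hy
  have hlc : (PP A k v).leadingCoeff = (PP A k v).coeff (k * A.natDegree) := by
    rw [leadingCoeff, hPd]
  set L := ‖(PP A k v).leadingCoeff‖ with hL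
  have hL0 : 0 < L := norm_pos_iff.2 (by rw [hlc]; exact hvl)
  have hf0 : gp A s n ≠ 0 := by
    intro h
    have h1 : (0 : ℝ) < ∏ i, max 1 ‖z i‖ :=
      Finset.prod_pos fun _ _ => lt_of_lt_of_le one_pos (le_max_left _ _)
    rw [h] at hzM
    simp [cc] at hzM
    linarith
  have hMf0 : 0 < (cc (gp A s n)).mahlerMeasure := mahlerMeasure_pos_of_ne_zero (cc_ne_zero hf0)
  have hk0 : 0 < (k : ℝ) := by exact_mod_cast (by omega : 0 < k)
  have ha0 : 0 < (A.natDegree : ℝ) := by exact_mod_cast ha1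
  -- distances
  have hzy : ∀ i j, z i ≠ y j := by
    intro i j h
    apply hvz i
    have := lists_eval hy (z i)
    rw [← norm_eq_zero, this, Finset.prod_eq_zero (Finset.mem_univ j) (by rw [h]; simp), mul_zero]
  have hHz : ∀ i, 0 < HH A (z i) := fun i => hH _
  have hPz : ∀ i, 0 < ‖(PP A k v).eval (z i)‖ := fun i => norm_pos_iff.2 (hvz i)
  have hPle : ∀ i, ‖(PP A k v).eval (z i)‖ ≤ 2 * HH A (z i) ^ k := by
    intro i
    rw [pp_eval]
    refine (norm_sub_le _ _).trans ?_
    rw [norm_mul, hv, one_mul, norm_pow, norm_pow]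
    have h1 : ‖(cc A).eval (z i)‖ ^ k ≤ HH A (z i) ^ k := pow_le_pow_left₀ (norm_nonneg _) (le_max_left _ _) k
    have h2 : ‖(cc A.reverse).eval (z i)‖ ^ k ≤ HH A (z i) ^ k :=
      pow_le_pow_left₀ (norm_nonneg _) (le_max_right _ _) k
    linarith
  let B : Fin d → ℝ := fun i =>
    4 * k * A.natDegree * HH A (z i) ^ k / (ρ i * ‖(PP A k v).eval (z i)‖)
  have hB1 : ∀ i, 1 ≤ B i := by
    intro i
    rw [one_le_div (mul_pos (hρ0 i) (hPz i))]
    have h1 : ρ i * ‖(PP A k v).eval (z i)‖ ≤ 1 * (2 * HH A (z i) ^ k) :=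
      mul_le_mul (hρ1 i) (hPle i) (hPz i).le zero_le_one
    have h2 : (1 : ℝ) ≤ k * A.natDegree := by
      have : 1 ≤ k * A.natDegree := Nat.mul_pos (by omega) ha1
      exact_mod_cast this
    have h3 : 0 < HH A (z i) ^ k := pow_pos (hHz i) k
    nlinarith
  have hBy : ∀ i j, 1 ≤ B i * ‖z i - y j‖ := by
    intro i j
    have h1 := di (cc A) (cc A.reverse) k A.natDegree v (z i) (y j) (ρ i) (by omega) ha1
      (cc_natDegree A).le (rev_natDegree' hA).le hv (hρ0 i) (hρ1 i) (cc_ne_zero hA0)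
      (cc_ne_zero (rev_ne hc0)) (hρA i) (hρB i) (by
        have := lists_eval hy (y j)
        rw [Finset.prod_eq_zero (Finset.mem_univ j) (by simp), mul_zero, norm_eq_zero] at this
        exact this)
    rw [div_mul_eq_mul_div, one_le_div (mul_pos (hρ0 i) (hPz i))]
    exact h1
  have hcv := cv d (k * A.natDegree) z y B hkd hzy hB1 hBy
  -- logarithms
  have hV1 : 0 < V2 z := lt_of_lt_of_le one_pos hV
  have hJ0 : ((JJ A).leadingCoeff : ℝ) ≠ 0 := by exact_mod_cast leadingCoeff_ne_zero.2 hJ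
  have hR0 : 0 < RR A := lt_of_lt_of_le one_pos hR
  have hprodg : 0 < ((cc (JJ A)).roots.map fun x => ‖(PP A k v).eval x‖).prod := by
    apply Multiset.prod_pos
    intro r hr
    rw [Multiset.mem_map] at hr
    obtain ⟨x, hx, rfl⟩ := hr
    exact norm_pos_iff.2 (hvg x hx)
  have hVy : 0 < V2 y := by
    have h1 : 0 < V2 y * L ^ (2 * k * A.natDegree - 2 * A.natDegree + (JJ A).natDegree) := by
      rw [hyV]; positivity
    exact pos_of_mul_pos_left h1 (by positivity)
  have hmy : 0 < ∏ j, max 1 ‖y j‖ := Finset.prod_pos fun _ _ => lt_of_lt_of_le one_pos (le_max_left _ _)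
  have hmz : 0 < ∏ i, max 1 ‖z i‖ := Finset.prod_pos fun _ _ => lt_of_lt_of_le one_pos (le_max_left _ _)
  have hzy0 : 0 < ∏ i, ∏ j, ‖z i - y j‖ :=
    Finset.prod_pos fun i _ => Finset.prod_pos fun j _ => norm_pos_iff.2 (sub_ne_zero.2 (hzy i j))
  have hBpos : ∀ i, 0 < B i := fun i => lt_of_lt_of_le one_pos (hB1 i)
  have hBp : 0 < ∏ i, B i := Finset.prod_pos fun i _ => hBpos i
  have hfac : 0 < (d.factorial : ℝ) := by exact_mod_cast Nat.factorial_pos _
  have hlog := Real.log_le_log (by positivity) hcv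
  rw [Real.log_mul (by positivity) (by positivity), Real.log_mul hV1.ne' hVy.ne', Real.log_pow,
    Real.log_mul (by positivity) (by positivity), Real.log_mul (by positivity) (by positivity),
    Real.log_mul (by positivity) (by positivity), Real.log_pow, Real.log_pow, Real.log_pow,
    Real.log_pow] at hlog
  -- the terms
  have t1 : Real.log (∏ i, ∏ j, ‖z i - y j‖) = ∑ i, Real.log ‖(PP A k v).eval (z i)‖ -
      (d : ℝ) * Real.log L := by
    rw [Real.log_prod (fun i _ => (Finset.prod_pos fun j _ =>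
      norm_pos_iff.2 (sub_ne_zero.2 (hzy i j))).ne')]
    have : ∀ i, Real.log (∏ j, ‖z i - y j‖) = Real.log ‖(PP A k v).eval (z i)‖ - Real.log L := by
      intro i
      have h1 := lists_eval hy (z i)
      have h2 : 0 < ∏ j, ‖z i - y j‖ := Finset.prod_pos fun j _ =>
        norm_pos_iff.2 (sub_ne_zero.2 (hzy i j))
      rw [h1, Real.log_mul hL0.ne' h2.ne']; ring
    rw [Finset.sum_congr rfl fun i _ => this i, Finset.sum_sub_distrib]
    simp
  have t2 : Real.log (∏ i, B i) = (d : ℝ) * Real.log (4 * k * A.natDegree) +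
      ∑ i, Real.log (1 / ρ i) + k * ∑ i, Real.log (HH A (z i)) -
      ∑ i, Real.log ‖(PP A k v).eval (z i)‖ := by
    rw [Real.log_prod (fun i _ => (hBpos i).ne')]
    have : ∀ i, Real.log (B i) = Real.log (4 * k * A.natDegree) + Real.log (1 / ρ i) +
        k * Real.log (HH A (z i)) - Real.log ‖(PP A k v).eval (z i)‖ := by
      intro i
      simp only [B]
      rw [Real.log_div (mul_pos (by positivity) (pow_pos (hHz i) k)).ne'
        (mul_pos (hρ0 i) (hPz i)).ne', Real.log_mul (by positivity) (pow_pos (hHz i) k).ne',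
        Real.log_mul (hρ0 i).ne' (hPz i).ne', Real.log_pow, one_div, Real.log_inv]
      ring
    rw [Finset.sum_congr rfl fun i _ => this i, Finset.sum_sub_distrib, Finset.sum_add_distrib,
      Finset.sum_add_distrib, Finset.mul_sum]
    simp
  have t3 : ∑ i, Real.log (HH A (z i)) ≤ Real.log (RR A) +
      n * Real.log (cc (gp A s n)).mahlerMeasure := by
    rw [← Real.log_prod (fun i _ => (hHz i).ne')]
    have := Real.log_le_log (Finset.prod_pos fun i _ => hHz i) hzH
    rwa [Real.log_mul hR0.ne' (by positivity), Real.log_pow] at this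
  have t3' : Real.log (∏ i, max 1 ‖z i‖) ≤ Real.log (cc (gp A s n)).mahlerMeasure :=
    Real.log_le_log hmz hzM
  have t4 : Real.log (∏ j, max 1 ‖y j‖) = Real.log (PP A k v).mahlerMeasure - Real.log L := by
    rw [← hyM, Real.log_mul hmy.ne' hL0.ne']; ring
  have t5 : Real.log (V2 y) = k * A.natDegree * Real.log k + k * (k - 2) * Real.log (RR A) +
      k * A.natDegree * Real.log |((JJ A).leadingCoeff : ℝ)| +
      Real.log ((cc (JJ A)).roots.map fun x => ‖(PP A k v).eval x‖).prod -
      (2 * k * A.natDegree - 2 * A.natDegree + (JJ A).natDegree) * Real.log L := by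
    have h1 := congrArg Real.log hyV
    rw [Real.log_mul hVy.ne' (by positivity), Real.log_mul (by positivity) hprodg.ne',
      Real.log_mul (by positivity) (by positivity), Real.log_mul (by positivity) (by positivity),
      Real.log_pow, Real.log_pow, Real.log_pow, Real.log_pow] at h1
    have h2 : 2 * A.natDegree ≤ 2 * k * A.natDegree := by nlinarith
    rw [Nat.cast_add, Nat.cast_sub h2] at h1
    have h3 : ((k * (k - 2) : ℕ) : ℝ) = k * (k - 2) := by
      rw [Nat.cast_mul, Nat.cast_sub (by omega)]; norm_num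
    rw [h3] at h1
    push_cast at h1
    linarith
  have t6 : 0 ≤ Real.log (V2 z) := Real.log_nonneg hV
  have hD0 : (0 : ℝ) < (n + A.natDegree : ℕ) := by exact_mod_cast (by omega : 0 < n + A.natDegree)
  have hdD : (d : ℝ) ≤ (n + A.natDegree : ℕ) := by exact_mod_cast hd2
  have hlD : 0 ≤ Real.log (n + A.natDegree : ℕ) :=
    Real.log_nonneg (by exact_mod_cast (by omega : 1 ≤ n + A.natDegree))
  have t7 : Real.log (d.factorial : ℝ) ≤ (n + A.natDegree : ℕ) * Real.log (n + A.natDegree : ℕ) := by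
    rw [← Real.log_pow]
    apply Real.log_le_log hfac
    have h1 : d.factorial ≤ (n + A.natDegree).factorial := Nat.factorial_le hd2
    exact_mod_cast h1.trans (Nat.factorial_le_pow _)
  have t8 : 0 ≤ Real.log (RR A) := Real.log_nonneg hR
  have t9 : 0 ≤ Real.log (k : ℝ) := Real.log_nonneg (by exact_mod_cast (by omega : 1 ≤ k))
  have t10 : ((d - k * A.natDegree : ℕ) : ℝ) = (d : ℝ) - k * A.natDegree := by
    rw [Nat.cast_sub hkd]; push_cast; ring
  rw [t1, t2, t4, t5] at hlog
  rw [show ((2 * (d - k * A.natDegree) : ℕ) : ℝ) = 2 * ((d : ℝ) - k * A.natDegree) by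
    rw [Nat.cast_mul, t10]; norm_num] at hlog
  rw [← hlc, ← hL] at hvle
  have t11 : 0 ≤ (k : ℝ) * (k - 4) * Real.log (RR A) := by
    have : (4 : ℝ) ≤ k := by exact_mod_cast hk
    exact mul_nonneg (mul_nonneg hk0.le (by linarith)) t8
  have t12 : 0 ≤ (k : ℝ) * A.natDegree * Real.log k := by positivity
  have hMM : 0 ≤ (d : ℝ) - k * A.natDegree := by
    have : ((k * A.natDegree : ℕ) : ℝ) ≤ d := by exact_mod_cast hkd
    push_cast at this
    linarith
  have hLf : 0 ≤ Real.log (cc (gp A s n)).mahlerMeasure := Real.log_nonneg (one_le_mahlerMeasure_of_ne_zero hf0)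
  have hLA : 0 ≤ Real.log (cc A).mahlerMeasure := Real.log_nonneg (one_le_mahlerMeasure_of_ne_zero hA0)
  have t13 := mul_le_mul_of_nonneg_left t3 hk0.le
  have t14 := mul_le_mul_of_nonneg_left t3' hMM
  have t15 : ((d : ℝ) - k * A.natDegree) * Real.log (cc (gp A s n)).mahlerMeasure ≤
      (((n + A.natDegree : ℕ) : ℝ) - k * A.natDegree) * Real.log (cc (gp A s n)).mahlerMeasure :=
    mul_le_mul_of_nonneg_right (by linarith) hLf
  have t16 : (d : ℝ) * Real.log (4 * k * A.natDegree) ≤
      (n + A.natDegree : ℕ) * Real.log (4 * k * A.natDegree) := by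
    apply mul_le_mul_of_nonneg_right hdD
    apply Real.log_nonneg
    have : (1 : ℝ) ≤ (4 * k * A.natDegree : ℕ) := by
      exact_mod_cast Nat.mul_pos (by omega) ha1
    push_cast at this
    exact this
  have t17 : (k : ℝ) * (((n + A.natDegree : ℕ) : ℝ) - (k + 2) * A.natDegree) * Real.log (cc A).mahlerMeasure ≤
      ((d : ℝ) - k * A.natDegree) * (k * Real.log (cc A).mahlerMeasure) := by
    have h1 : ((n + A.natDegree : ℕ) : ℝ) - (k + 2) * A.natDegree ≤ (d : ℝ) - k * A.natDegree := by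
      have : (n : ℝ) ≤ d + A.natDegree := by exact_mod_cast hd1
      push_cast
      linarith
    have h2 := mul_le_mul_of_nonneg_right h1 (mul_nonneg hk0.le hLA)
    linarith
  push_cast at hlog hvle hρs t7 t13 t14 t15 t16 t17 ⊢
  linarith

end Pool.Agent.Helper40.GP
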