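import Pool.Agent.Helper40.GP.Stm

open Polynomial

namespace Pool.Agent.Helper40.GP

lemma cc_neg (f : ℤ[X]) : cc (-f) = - cc f := by simp [cc]

lemma mm_neg (f : ℂ[X]) : (-f).mahlerMeasure = f.mahlerMeasure := by
  have : -f = C (-1) * f := by simp
  rw [this, mahlerMeasure_mul, mahlerMeasure_const]
  simp

lemma lead_le (f : ℤ[X]) : ((|f.leadingCoeff| : ℤ) : ℝ) ≤ (cc f).mahlerMeasure := by
  have h := Polynomial.leadingCoeff_le_mahlerMeasure (cc f)
  rw [cc, Polynomial.leadingCoeff_map_of_injective (Int.castRingHom ℂ).injective_int] at h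
  simpa [cc] using h

lemma cubic_le : (cc (X ^ 3 - X - 1)).mahlerMeasure ≤ 2 := by
  have h := Polynomial.mahlerMeasure_le_sqrt_sum_sq_norm_coeff (cc (X ^ 3 - X - 1))
  refine h.trans ?_
  have h1 : (cc (X ^ 3 - X - 1) : ℂ[X]) = X ^ 3 - X - 1 := by simp [cc]
  have hd : (cc (X ^ 3 - X - 1) : ℂ[X]).natDegree = 3 := by
    rw [h1]; compute_degree!
  have h2 : ∑ i ∈ (cc (X ^ 3 - X - 1) : ℂ[X]).support, ‖(cc (X ^ 3 - X - 1) : ℂ[X]).coeff i‖ ^ 2 ≤
      ∑ i ∈ Finset.range 4, ‖(cc (X ^ 3 - X - 1) : ℂ[X]).coeff i‖ ^ 2 := by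
    refine Finset.sum_le_sum_of_subset_of_nonneg ?_ (fun _ _ _ => by positivity)
    have := Polynomial.supp_subset_range_natDegree_succ (p := cc (X ^ 3 - X - 1))
    rwa [hd] at this
  rw [Real.sqrt_le_left (by norm_num)]
  refine h2.trans ?_
  rw [h1]
  simp [Finset.sum_range_succ, coeff_X, coeff_one]
  norm_num

lemma one_lt_cubic : 1 < (cc (X ^ 3 - X - 1)).mahlerMeasure := by
  have h1 : (cc (X ^ 3 - X - 1) : ℂ[X]) = X ^ 3 - X - 1 := by simp [cc]
  obtain ⟨t, ht, ht0⟩ : ∃ t ∈ Set.Icc (5 / 4 : ℝ) 2, t ^ 3 - t - 1 = 0 := by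
    have hc : ContinuousOn (fun t : ℝ => t ^ 3 - t - 1) (Set.Icc (5 / 4) 2) := by fun_prop
    have := intermediate_value_Icc (by norm_num : (5 / 4 : ℝ) ≤ 2) hc
    have h0 : (0 : ℝ) ∈ Set.Icc ((fun t : ℝ => t ^ 3 - t - 1) (5 / 4)) ((fun t : ℝ => t ^ 3 - t - 1) 2) := by
      constructor <;> norm_num
    obtain ⟨t, ht, h⟩ := this h0
    exact ⟨t, ht, h⟩
  have hd : (X ^ 3 - X - 1 : ℂ[X]).natDegree = 3 := by compute_degree!
  have hm : (X ^ 3 - X - 1 : ℂ[X]).Monic := by monicity!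
  have hne : (X ^ 3 - X - 1 : ℂ[X]) ≠ 0 := hm.ne_zero
  have hroot : (t : ℂ) ∈ (X ^ 3 - X - 1 : ℂ[X]).roots := by
    rw [Polynomial.mem_roots hne]
    simp only [IsRoot.def, eval_sub, eval_pow, eval_X, eval_one]
    exact_mod_cast ht0
  rw [h1, Polynomial.mahlerMeasure_eq_leadingCoeff_mul_prod_roots, hm.leadingCoeff, norm_one, one_mul]
  obtain ⟨m, hmm⟩ := Multiset.exists_cons_of_mem hroot
  rw [hmm, Multiset.map_cons, Multiset.prod_cons]
  have h2 : 1 ≤ (m.map (fun a : ℂ => max 1 ‖a‖)).prod :=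
    Multiset.one_le_prod (by
      intro x hx
      rw [Multiset.mem_map] at hx
      obtain ⟨y, _, rfl⟩ := hx
      exact le_max_left _ _)
  have h3 : (5 / 4 : ℝ) ≤ max 1 ‖(t : ℂ)‖ := by
    refine le_trans ht.1 (le_trans ?_ (le_max_right _ _))
    rw [Complex.norm_real, Real.norm_eq_abs]
    exact le_abs_self t
  nlinarith

lemma monic_or_two_le (P : ℤ[X]) (hP : P ≠ 0) :
    P.Monic ∨ (-P).Monic ∨ 2 ≤ (cc P).mahlerMeasure := by
  have h0 : P.leadingCoeff ≠ 0 := leadingCoeff_ne_zero.2 hP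
  rcases lt_or_ge (|P.leadingCoeff|) 2 with h | h
  · have h1 : |P.leadingCoeff| = 1 := by
      have := abs_pos.2 h0
      omega
    rcases (abs_eq (by norm_num)).1 h1 with h2 | h2
    · exact Or.inl h2
    · refine Or.inr (Or.inl ?_)
      rw [Monic, leadingCoeff_neg, h2]; norm_num
  · refine Or.inr (Or.inr (le_trans ?_ (lead_le P)))
    exact_mod_cast h

lemma smyth_pm (sm : S_SM) (P : ℤ[X]) (h0 : |P.coeff 0| = 1) (hm : P.Monic ∨ (-P).Monic)
    (h1 : P ≠ P.reverse) (h2 : P ≠ - P.reverse) :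
    (cc (X ^ 3 - X - 1)).mahlerMeasure ≤ (cc P).mahlerMeasure := by
  rcases hm with hm | hm
  · exact sm P hm h0 h1 h2
  · have := sm (-P) hm (by simpa using h0) (by
      rw [Polynomial.reverse_neg]; intro h; exact h1 (neg_injective h)) (by
      rw [Polynomial.reverse_neg, neg_neg]; intro h; exact h2 (by rw [← h, neg_neg]))
    rwa [cc_neg, mm_neg] at this

theorem th (mi : S_MI) (ep : S_EP) (red : S_RED) (sm : S_SM) : S_TH := by
  intro ε hε
  obtain ⟨δ, hδ, hδ4, H⟩ := ep mi _ ε one_lt_cubic hε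
  refine ⟨δ, hδ, fun f hf hM hgap => ?_⟩
  rcases red f δ hf hM hδ hδ4 hgap with h | ⟨hm, h0, h1, h2⟩ | ⟨A, s, n, rfl, hA, hs, hn, hd, hl, hsep⟩
  · have := cubic_le
    linarith
  · have := smyth_pm sm f h0 hm h1 h2
    linarith
  · refine H A s n _ hA hs hn hsep hd hl ?_
    have hA0 : A ≠ 0 := by
      rintro rfl
      have := hA.deg
      simp at this
    have hnu : ¬ IsCoprime (A.map (Int.castRingHom ℚ)) (A.map (Int.castRingHom ℚ)) := by
      intro h
      have h1 : IsUnit (A.map (Int.castRingHom ℚ)) := (isCoprime_self).1 h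
      have h2 := natDegree_eq_zero_of_isUnit h1
      rw [natDegree_map_eq_of_injective (Int.castRingHom ℚ).injective_int] at h2
      have := hA.deg
      omega
    have e1 : A ≠ A.reverse := by
      intro h
      apply hnu
      have := hA.cop
      rwa [← h] at this
    have e2 : A ≠ - A.reverse := by
      intro h
      apply hnu
      have h3 : A.reverse = - A := by
        rw [eq_neg_iff_add_eq_zero, add_comm, ← eq_neg_iff_add_eq_zero]; exact h
      have := hA.cop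
      rw [h3, Polynomial.map_neg] at this
      exact (IsCoprime.neg_right_iff _ _).1 this
    rcases monic_or_two_le A hA0 with h | h | h
    · exact smyth_pm sm A hA.const (Or.inl h) e1 e2
    · exact smyth_pm sm A hA.const (Or.inr h) e1 e2
    · exact cubic_le.trans h

end Pool.Agent.Helper40.GP
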