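import Pool.Agent.Helper40.GP.Stm2
import Pool.Agent.Helper40.GP.TH
import Pool.Agent.Helper46.GP.RO1
import Pool.Agent.Helper88.GP.VY

/-! # Reduction of arbitrary polynomials with a central gap to `A + s X ^ n A^*` -/

open Polynomial

namespace Pool.Agent.Helper40.GP

lemma natDegree_ccc (A : ℤ[X]) : (A.map (Int.castRingHom ℚ)).natDegree = A.natDegree :=
  natDegree_map_eq_of_injective Int.cast_injective A

lemma prim_dvd (D A : ℤ[X]) (hD : D.IsPrimitive)
    (h : D.map (Int.castRingHom ℚ) ∣ A.map (Int.castRingHom ℚ)) : D ∣ A :=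
  (IsPrimitive.Int.dvd_iff_map_cast_dvd_map_cast D A hD).2 h

/-- divide by the greatest common divisor -/
lemma gcd_out (A B : ℤ[X]) (hA : A ≠ 0) (hB : B ≠ 0) : ∃ D A1 B1 : ℤ[X], A = D * A1 ∧ B = D * B1 ∧
    IsCoprime (A1.map (Int.castRingHom ℚ)) (B1.map (Int.castRingHom ℚ)) := by
  classical
  set a := A.map (Int.castRingHom ℚ) with ha
  set b := B.map (Int.castRingHom ℚ) with hb
  have ha0 : a ≠ 0 := (Polynomial.map_ne_zero_iff Int.cast_injective).2 hA
  have hg0 : EuclideanDomain.gcd a b ≠ 0 := by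
    intro h
    exact ha0 (EuclideanDomain.gcd_eq_zero_iff.1 h).1
  obtain ⟨D, hDp, hDd, hDdvd⟩ := Helper46.GP.exists_prim _ hg0
  have h1 : D.map (Int.castRingHom ℚ) ∣ a := hDdvd.trans (EuclideanDomain.gcd_dvd_left a b)
  have h2 : D.map (Int.castRingHom ℚ) ∣ b := hDdvd.trans (EuclideanDomain.gcd_dvd_right a b)
  have h3 : D ∣ A := prim_dvd D A hDp h1
  have h4 : D ∣ B := prim_dvd D B hDp h2
  obtain ⟨A1, hA1⟩ := h3
  obtain ⟨B1, hB1⟩ := h4
  refine ⟨D, A1, B1, hA1, hB1, ?_⟩
  have hD0 : D.map (Int.castRingHom ℚ) ≠ 0 := by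
    intro h
    rw [h, zero_dvd_iff] at h1
    exact ha0 h1
  -- the gcd divides `D` up to a constant
  have h5 : EuclideanDomain.gcd a b ∣ D.map (Int.castRingHom ℚ) := by
    obtain ⟨e, he⟩ := hDdvd
    have he0 : e ≠ 0 := by
      rintro rfl
      rw [mul_zero] at he
      exact hg0 he
    have h6 := congrArg natDegree he
    rw [natDegree_mul hD0 he0, natDegree_ccc, hDd] at h6
    have h7 : e.natDegree = 0 := by omega
    obtain ⟨c, hc⟩ := natDegree_eq_zero.1 h7
    have hc0 : c ≠ 0 := by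
      rintro rfl
      rw [C_0] at hc
      exact he0 hc.symm
    refine ⟨C c⁻¹, ?_⟩
    rw [he, ← hc, mul_assoc, ← C_mul, mul_inv_cancel₀ hc0, C_1, mul_one]
  -- Bezout
  have h6 := EuclideanDomain.gcd_eq_gcd_ab a b
  obtain ⟨e, he⟩ := h5
  have h7 : D.map (Int.castRingHom ℚ) =
      D.map (Int.castRingHom ℚ) * (A1.map (Int.castRingHom ℚ) * (EuclideanDomain.gcdA a b * e) +
        B1.map (Int.castRingHom ℚ) * (EuclideanDomain.gcdB a b * e)) := by
    have e1 : a = D.map (Int.castRingHom ℚ) * A1.map (Int.castRingHom ℚ) := by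
      rw [ha, hA1, Polynomial.map_mul]
    have e2 : b = D.map (Int.castRingHom ℚ) * B1.map (Int.castRingHom ℚ) := by
      rw [hb, hB1, Polynomial.map_mul]
    calc D.map (Int.castRingHom ℚ) = EuclideanDomain.gcd a b * e := he
      _ = (a * EuclideanDomain.gcdA a b + b * EuclideanDomain.gcdB a b) * e := by rw [← h6]
      _ = ((D.map (Int.castRingHom ℚ) * A1.map (Int.castRingHom ℚ)) * EuclideanDomain.gcdA a b +
          (D.map (Int.castRingHom ℚ) * B1.map (Int.castRingHom ℚ)) * EuclideanDomain.gcdB a b) * e := by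
        rw [← e1, ← e2]
      _ = _ := by ring
  refine ⟨EuclideanDomain.gcdA a b * e, EuclideanDomain.gcdB a b * e, ?_⟩
  have h8 := mul_left_cancel₀ hD0 (h7.symm.trans (mul_one _).symm)
  rw [← h8]
  ring

lemma X_out (A : ℤ[X]) (hA : A ≠ 0) : ∃ (j : ℕ) (A2 : ℤ[X]), A = X ^ j * A2 ∧ A2.coeff 0 ≠ 0 := by
  obtain ⟨q, hq, hnd⟩ := exists_eq_pow_rootMultiplicity_mul_and_not_dvd A hA 0
  refine ⟨_, q, by simpa using hq, fun h => hnd ?_⟩
  rw [C_0, sub_zero]
  exact X_dvd_iff.2 h

lemma mm_X_pow (j : ℕ) : (cc (X ^ j)).mahlerMeasure = 1 := by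
  have h1 : (X : ℂ[X]).mahlerMeasure = 1 := by
    have := mahlerMeasure_X_sub_C 0
    simpa using this
  have h2 : cc (X ^ j) = X ^ j := by simp [cc]
  rw [h2]
  induction j with
  | zero => simp
  | succ j ih =>
    rw [pow_succ, mahlerMeasure_mul, h1, mul_one]
    apply ih
    simp [cc]

lemma cc_mul (A B : ℤ[X]) : cc (A * B) = cc A * cc B := by simp [cc]

lemma mm_ge_one {A : ℤ[X]} (hA : A ≠ 0) : 1 ≤ (cc A).mahlerMeasure := by
  refine le_trans ?_ (lead_le A)
  have h1 : 1 ≤ |A.leadingCoeff| := Int.one_le_abs (leadingCoeff_ne_zero.2 hA)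
  exact_mod_cast h1

lemma const_le (f : ℤ[X]) : ((|f.coeff 0| : ℤ) : ℝ) ≤ (cc f).mahlerMeasure := by
  have h := norm_coeff_le_choose_mul_mahlerMeasure 0 (cc f)
  have h2 : (cc f).coeff 0 = ((f.coeff 0 : ℤ) : ℂ) := by simp [cc]
  rw [h2, Complex.norm_intCast] at h
  simpa using h

/-- the combinatorial core: a reciprocal polynomial with a long central gap -/
lemma recip (A B : ℤ[X]) (n a : ℕ) (s : ℤ) (hs : s = 1 ∨ s = -1) (hA0 : A.coeff 0 ≠ 0)
    (hB0 : B.coeff 0 ≠ 0) (ha : A.natDegree ≤ a) (hb : B.natDegree ≤ a) (hn : 2 * a < n)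
    (hrev : A + X ^ n * B = C s * (A + X ^ n * B).reverse) :
    A + X ^ n * B = gp A s n ∧ B = C s * A.reverse := by
  have hB : B ≠ 0 := by rintro rfl; simp at hB0
  have hA : A ≠ 0 := by rintro rfl; simp at hA0
  set b := B.natDegree with hbd
  set F := A + X ^ n * B with hF
  have hXB : (X ^ n * B).natDegree = n + b := by
    rw [natDegree_X_pow_mul n hB, add_comm]
  have hFd : F.natDegree = n + b := by
    rw [hF, natDegree_add_eq_right_of_natDegree_lt (by rw [hXB]; omega), hXB]
  have hAz : ∀ i, a < i → A.coeff i = 0 := fun i hi =>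
    coeff_eq_zero_of_natDegree_lt (by omega)
  have hBz : ∀ i, b < i → B.coeff i = 0 := fun i hi =>
    coeff_eq_zero_of_natDegree_lt (by omega)
  have hFc : ∀ i, F.coeff i = A.coeff i + if n ≤ i then B.coeff (i - n) else 0 := by
    intro i
    rw [hF, coeff_add, coeff_X_pow_mul']
  have hFr : ∀ i, i ≤ n + b → F.coeff i = s * F.coeff (n + b - i) := by
    intro i hi
    conv_lhs => rw [hrev]
    rw [coeff_C_mul, coeff_reverse, hFd, revAt_le hi]
  have hAeq : A = C s * B.reverse := by
    ext i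
    rw [coeff_C_mul, coeff_reverse, ← hbd]
    by_cases hi : i ≤ b
    · rw [revAt_le hi]
      have h1 := hFr i (by omega)
      rw [hFc, hFc, if_neg (by omega), if_pos (by omega), hAz (n + b - i) (by omega),
        show n + b - i - n = b - i by omega] at h1
      simpa using h1
    · rw [revAt_eq_self_of_lt (by omega), hBz i (by omega), mul_zero]
      by_cases hi2 : a < i
      · exact hAz i hi2
      · have h1 := hFr i (by omega)
        rw [hFc, hFc, if_neg (by omega), if_neg (by omega), hAz (n + b - i) (by omega)] at h1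
        simpa using h1
  have hss : s * s = 1 := by rcases hs with rfl | rfl <;> norm_num
  have hAd : A.natDegree = b := by
    rw [hAeq, natDegree_C_mul (by rcases hs with rfl | rfl <;> norm_num), reverse_natDegree,
      natTrailingDegree_eq_zero.2 (Or.inr hB0), ← hbd, Nat.sub_zero]
  have hBeq : B = C s * A.reverse := by
    ext i
    rw [coeff_C_mul, coeff_reverse, hAd]
    by_cases hi : i ≤ b
    · rw [revAt_le hi]
      conv_rhs => rw [hAeq]
      rw [coeff_C_mul, coeff_reverse, ← hbd, revAt_le (by omega), show b - (b - i) = i by omega,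
        ← mul_assoc, hss, one_mul]
    · rw [revAt_eq_self_of_lt (by omega), hBz i (by omega), coeff_eq_zero_of_natDegree_lt
        (by omega), mul_zero]
  refine ⟨?_, hBeq⟩
  rw [hF, gp]
  conv_lhs => rw [hBeq]
  ring

theorem red2 : S_RED2 := by
  intro A B n hA hB hn
  set a := max A.natDegree B.natDegree with ha
  obtain ⟨D, A1, B1, hA1, hB1, hcop⟩ := gcd_out A B hA hB
  have hD0 : D ≠ 0 := by rintro rfl; rw [zero_mul] at hA1; exact hA hA1
  have hA10 : A1 ≠ 0 := by rintro rfl; rw [mul_zero] at hA1; exact hA hA1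
  have hB10 : B1 ≠ 0 := by rintro rfl; rw [mul_zero] at hB1; exact hB hB1
  obtain ⟨j, A2, hA2, hA20⟩ := X_out A1 hA10
  obtain ⟨l, B2, hB2, hB20⟩ := X_out B1 hB10
  have hA2n : A2 ≠ 0 := by rintro rfl; simp at hA20
  have hB2n : B2 ≠ 0 := by rintro rfl; simp at hB20
  have hdA : A.natDegree = D.natDegree + (j + A2.natDegree) := by
    rw [hA1, natDegree_mul hD0 hA10, hA2, natDegree_X_pow_mul j hA2n, add_comm j]
  have hdB : B.natDegree = D.natDegree + (l + B2.natDegree) := by
    rw [hB1, natDegree_mul hD0 hB10, hB2, natDegree_X_pow_mul l hB2n, add_comm l]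
  have haA : A.natDegree ≤ a := le_max_left _ _
  have haB : B.natDegree ≤ a := le_max_right _ _
  have hjl : j = 0 ∨ l = 0 := by
    by_contra hcon
    push Not at hcon
    have h1 : (X : ℚ[X]) ∣ A1.map (Int.castRingHom ℚ) := by
      rw [hA2, Polynomial.map_mul, Polynomial.map_pow, map_X]
      exact (dvd_pow_self X hcon.1).mul_right _
    have h2 : (X : ℚ[X]) ∣ B1.map (Int.castRingHom ℚ) := by
      rw [hB2, Polynomial.map_mul, Polynomial.map_pow, map_X]
      exact (dvd_pow_self X hcon.2).mul_right _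
    exact not_isUnit_X (hcop.isUnit_of_dvd' h1 h2)
  set n2 := n + l - j with hn2
  have hfac : A + X ^ n * B = D * X ^ j * (A2 + X ^ n2 * B2) := by
    rw [hA1, hB1, hA2, hB2]
    rcases hjl with h | h
    · subst h
      have : n2 = n + l := by omega
      rw [this, pow_add, pow_zero]
      ring
    · subst h
      have : n = n2 + j := by omega
      rw [this, pow_add, pow_zero]
      ring
  have hM : (cc (A + X ^ n * B)).mahlerMeasure =
      (cc D).mahlerMeasure * (cc (A2 + X ^ n2 * B2)).mahlerMeasure := by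
    rw [hfac, cc_mul, cc_mul, mahlerMeasure_mul, mahlerMeasure_mul, mm_X_pow, mul_one]
  have hMle : (cc (A2 + X ^ n2 * B2)).mahlerMeasure ≤ (cc (A + X ^ n * B)).mahlerMeasure := by
    rw [hM]
    exact le_mul_of_one_le_left (mahlerMeasure_nonneg _) (mm_ge_one hD0)
  set F := A2 + X ^ n2 * B2 with hF
  have hXB : (X ^ n2 * B2).natDegree = n2 + B2.natDegree := by
    rw [natDegree_X_pow_mul n2 hB2n, add_comm]
  have hlt : A2.natDegree < (X ^ n2 * B2).natDegree := by rw [hXB]; omega
  have hFlead : F.leadingCoeff = B2.leadingCoeff := by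
    rw [hF, leadingCoeff_add_of_degree_lt (degree_lt_degree hlt), leadingCoeff_mul,
      leadingCoeff_X_pow, one_mul]
  have hFc0 : F.coeff 0 = A2.coeff 0 := by
    rw [hF, coeff_add, coeff_X_pow_mul', if_neg (by omega), add_zero]
  by_cases hM2 : 2 ≤ (cc F).mahlerMeasure
  · exact Or.inr (Or.inl (hM2.trans hMle))
  push Not at hM2
  have hl1 : |F.leadingCoeff| = 1 := by
    have h1 : ((|F.leadingCoeff| : ℤ) : ℝ) < ((2 : ℤ) : ℝ) := by
      refine (lead_le F).trans_lt ?_
      exact_mod_cast hM2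
    have h2 : |F.leadingCoeff| < 2 := by exact_mod_cast h1
    have h3 : 1 ≤ |F.leadingCoeff| := Int.one_le_abs (by
      rw [hFlead]; exact leadingCoeff_ne_zero.2 hB2n)
    omega
  have hc1 : |F.coeff 0| = 1 := by
    have h1 : ((|F.coeff 0| : ℤ) : ℝ) < ((2 : ℤ) : ℝ) := by
      refine (const_le F).trans_lt ?_
      exact_mod_cast hM2
    have h2 : |F.coeff 0| < 2 := by exact_mod_cast h1
    have h3 : 1 ≤ |F.coeff 0| := Int.one_le_abs (by rw [hFc0]; exact hA20)
    omega
  by_cases hrev : F ≠ F.reverse ∧ F ≠ - F.reverse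
  · right; right; left
    rcases abs_eq (by norm_num : (0 : ℤ) ≤ 1) |>.1 hl1 with h | h
    · exact ⟨F, h, hc1, hrev.1, hrev.2, hMle⟩
    · refine ⟨-F, ?_, ?_, ?_, ?_, ?_⟩
      · rw [Monic, leadingCoeff_neg, h]; norm_num
      · rw [coeff_neg, abs_neg]; exact hc1
      · rw [reverse_neg]
        intro h1
        exact hrev.1 (neg_injective h1)
      · rw [reverse_neg, neg_neg]
        intro h1
        exact hrev.2 (by rw [← h1, neg_neg])
      · rw [cc_neg, mm_neg]; exact hMle
  obtain ⟨s, hs, hFs⟩ : ∃ s : ℤ, (s = 1 ∨ s = -1) ∧ F = C s * F.reverse := by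
    rw [not_and_or, not_not, not_not] at hrev
    rcases hrev with h | h
    · exact ⟨1, Or.inl rfl, by simpa using h⟩
    · exact ⟨-1, Or.inr rfl, by simpa using h⟩
  obtain ⟨hgp, hBA⟩ := recip A2 B2 n2 a s hs hA20 hB20 (by omega) (by omega) (by omega) hFs
  rcases Nat.eq_zero_or_pos A2.natDegree with h0 | hpos
  · left
    have hAC : A2 = C (A2.coeff 0) := eq_C_of_natDegree_eq_zero h0
    set c := A2.coeff 0 with hc
    have hBC : B2 = C s * C c := by rw [hBA, hAC, reverse_C]
    have hn20 : 1 ≤ n2 := by omega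
    have hDd : (D * C (s * c)).natDegree ≤ a := by
      rw [natDegree_mul_C (mul_ne_zero (by rcases hs with rfl | rfl <;> norm_num) hA20)]
      omega
    refine ⟨D * C (s * c), j, n2, hDd, hn20, ?_⟩
    rcases hs with rfl | rfl
    · right
      rw [hfac, hF, hAC, hBC, C_mul]
      simp only [C_1]
      ring
    · left
      rw [hfac, hF, hAC, hBC, C_mul]
      simp only [C_neg, C_1]
      ring
  · right; right; right
    refine ⟨A2, s, n2, ⟨hpos, ?_, ?_⟩, hs, by omega, by omega, by omega, by omega, ?_⟩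
    · rw [← hFc0]; exact hc1
    · have h1 : IsCoprime (A2.map (Int.castRingHom ℚ)) (B2.map (Int.castRingHom ℚ)) := by
        rw [hA2, hB2, Polynomial.map_mul, Polynomial.map_mul] at hcop
        exact hcop.of_mul_left_right.of_mul_right_right
      rw [hBA, Polynomial.map_mul] at h1
      exact h1.of_mul_right_right
    · rw [← hgp]; exact hMle

end Pool.Agent.Helper40.GP
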