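import Pool.Agent.Helper40.GP.TH
import Pool.Agent.Helper40.GP.EZ

open Polynomial

namespace Pool.Agent.Helper40.GP

/-- Smyth's bound for `A` coprime to `A^*` -/
lemma good_smyth (sm : S_SM) {A : ℤ[X]} (hA : Good A) :
    (cc (X ^ 3 - X - 1)).mahlerMeasure ≤ (cc A).mahlerMeasure := by
  have hA0 : A ≠ 0 := good_ne hA
  have hnu : ¬ IsCoprime (A.map (Int.castRingHom ℚ)) (A.map (Int.castRingHom ℚ)) := by
    intro h
    have h1 : IsUnit (A.map (Int.castRingHom ℚ)) := (isCoprime_self).1 h
    have h2 := natDegree_eq_zero_of_isUnit h1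
    rw [natDegree_map_eq_of_injective (Int.castRingHom ℚ).injective_int] at h2
    have := hA.deg
    omega
  have e1 : A ≠ A.reverse := by
    intro h
    apply hnu
    have := hA.cop
    rwa [← h] at this
  have e2 : A ≠ - A.reverse := by
    intro h
    apply hnu
    have h3 : A.reverse = - A := by
      rw [eq_neg_iff_add_eq_zero, add_comm, ← eq_neg_iff_add_eq_zero]; exact h
    have := hA.cop
    rw [h3, Polynomial.map_neg] at this
    exact (IsCoprime.neg_right_iff _ _).1 this
  rcases monic_or_two_le A hA0 with h | h | h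
  · exact smyth_pm sm A hA.const (Or.inl h) e1 e2
  · exact smyth_pm sm A hA.const (Or.inr h) e1 e2
  · exact cubic_le.trans h

theorem th2 (mz : S_MZ) (red : S_RED2) (sm : S_SM) : S_TH2 := by
  intro ε hε
  obtain ⟨δ', hδ', hδ4, H⟩ := ez mz _ ε one_lt_cubic hε
  refine ⟨δ' / 4, by positivity, fun A B n hA hB hn hgap => ?_⟩
  set m := max A.natDegree B.natDegree with hm
  have hgap' : (m : ℝ) * Real.log (n + 1) ≤ δ' / 4 * n := by
    rw [hm]; push_cast; exact hgap
  have hn1 : (1 : ℝ) ≤ n := by exact_mod_cast hn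
  have hlog2 : (1 : ℝ) / 2 ≤ Real.log (n + 1) := by
    have h1 : Real.log 2 ≤ Real.log (n + 1) := Real.log_le_log (by norm_num) (by linarith)
    have h2 := Real.log_two_gt_d9
    linarith
  have hm8 : (m : ℝ) ≤ n / 8 := by
    have hm0 : (0 : ℝ) ≤ m := Nat.cast_nonneg _
    nlinarith
  have hmn : 3 * m < n := by
    have : (3 : ℝ) * (m : ℝ) < n := by linarith
    exact_mod_cast this
  rcases red A B n hA hB hmn with h | h | ⟨P, hP, hP0, h1, h2, hle⟩ | ⟨A', s, n', hA', hs, hn', ha', h1, h2, hle⟩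
  · exact Or.inr h
  · left
    have := cubic_le
    linarith
  · left
    have := sm P hP hP0 h1 h2
    linarith
  · left
    refine le_trans (H A' s n' _ hA' hs hn' rfl ?_ (good_smyth sm hA')) hle
    have e1 : (A'.natDegree : ℝ) ≤ m := by exact_mod_cast ha'
    have e2 : (n : ℝ) ≤ n' + m := by exact_mod_cast h1
    have e3 : (n' : ℝ) ≤ n + m := by exact_mod_cast h2
    have e0 : (0 : ℝ) ≤ A'.natDegree := Nat.cast_nonneg _
    have e4 : Real.log ((n' + A'.natDegree : ℕ) : ℝ) ≤ 2 * Real.log (n + 1) := by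
      rw [show (2 : ℝ) * Real.log (n + 1) = Real.log ((n + 1) ^ 2) by rw [Real.log_pow]; norm_num]
      apply Real.log_le_log
      · push_cast
        linarith
      · push_cast
        nlinarith
    have e5 : 0 ≤ Real.log ((n : ℝ) + 1) := by linarith
    calc (A'.natDegree : ℝ) * Real.log ((n' + A'.natDegree : ℕ) : ℝ)
        ≤ A'.natDegree * (2 * Real.log (n + 1)) := mul_le_mul_of_nonneg_left e4 e0
      _ ≤ m * (2 * Real.log (n + 1)) := mul_le_mul_of_nonneg_right e1 (by linarith)
      _ = 2 * (m * Real.log (n + 1)) := by ring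
      _ ≤ 2 * (δ' / 4 * n) := by linarith
      _ ≤ δ' * ((n' + A'.natDegree : ℕ) : ℝ) := by
        push_cast
        nlinarith

end Pool.Agent.Helper40.GP
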