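import Pool.Agent.Helper7.GP.CV
import Pool.Agent.Helper7.GP.SM
import Pool.Agent.Helper25.GP.RD
import Pool.Agent.Helper40.GP.DI
import Pool.Agent.Helper40.GP.MZ
import Pool.Agent.Helper40.GP.EZ
import Pool.Agent.Helper40.GP.TH2
import Pool.Agent.Helper40.GP.RED2
import Pool.Agent.Helper46.GP.RZ
import Pool.Agent.Helper67.GP.DD

/-! # Assembly -/

open Polynomial

namespace Pool.Agent.Helper40.GP

theorem mz_final : S_MZ := mz Helper7.GP.cv di Helper46.GP.av Helper25.GP.jb Helper88.GP.vy
    (Helper46.GP.rz Helper67.GP.dd Helper25.GP.rd)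

theorem final : S_TH2 := th2 mz_final red2 Helper7.GP.sm

end Pool.Agent.Helper40.GP
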