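import Pool.Agent.Helper40.GP.EXF
import Pool.Agent.Helper40.GP.RED2

/-! # Irreducible divisors of `A + X ^ n B` -/

open Polynomial

namespace Pool.Agent.Helper40.GP

lemma rev_rev {A : ℤ[X]} (h : A.coeff 0 ≠ 0) : A.reverse.reverse = A := by
  have hA : A ≠ 0 := by rintro rfl; simp at h
  have hd : A.reverse.natDegree = A.natDegree := by
    rw [reverse_natDegree, natTrailingDegree_eq_zero.2 (Or.inr h), Nat.sub_zero]
  ext i
  rw [coeff_reverse, coeff_reverse, hd]
  by_cases hi : i ≤ A.natDegree
  · rw [revAt_le hi, revAt_le (by omega), show A.natDegree - (A.natDegree - i) = i by omega]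
  · have h1 : revAt A.natDegree i = i := revAt_eq_self_of_lt (by omega)
    rw [h1, h1]

lemma rev_deg {A : ℤ[X]} (h : A.coeff 0 ≠ 0) : A.reverse.natDegree = A.natDegree := by
  rw [reverse_natDegree, natTrailingDegree_eq_zero.2 (Or.inr h), Nat.sub_zero]

lemma rev_c0 (A : ℤ[X]) : A.reverse.coeff 0 = A.leadingCoeff := by
  rw [coeff_zero_reverse]

lemma rev_dvd {f F : ℤ[X]} (h : f ∣ F) : f.reverse ∣ F.reverse := by
  obtain ⟨g, rfl⟩ := h
  rw [reverse_mul_of_domain]
  exact dvd_mul_right _ _

/-- the reverse of a polynomial with a gap -/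
lemma rev_gap (A B : ℤ[X]) (n : ℕ) (hB : B.coeff 0 ≠ 0)
    (hn : A.natDegree < n) : A.natDegree ≤ n + B.natDegree ∧ (A + X ^ n * B).reverse =
      B.reverse + X ^ (n + B.natDegree - A.natDegree) * A.reverse := by
  have hB0 : B ≠ 0 := by rintro rfl; simp at hB
  have hle : A.natDegree ≤ n + B.natDegree := by omega
  have hXB : (X ^ n * B).natDegree = n + B.natDegree := by
    rw [natDegree_X_pow_mul n hB0, add_comm]
  have hFd : (A + X ^ n * B).natDegree = n + B.natDegree := by
    rw [natDegree_add_eq_right_of_natDegree_lt (by rw [hXB]; omega), hXB]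
  refine ⟨hle, ?_⟩
  ext i
  rw [coeff_reverse, hFd, coeff_add, coeff_X_pow_mul', coeff_add, coeff_X_pow_mul', coeff_reverse,
    coeff_reverse]
  by_cases hi : i ≤ n + B.natDegree
  · rw [revAt_le hi]
    have e1 : (if n ≤ n + B.natDegree - i then B.coeff (n + B.natDegree - i - n) else 0) =
        B.coeff (revAt B.natDegree i) := by
      by_cases h1 : i ≤ B.natDegree
      · rw [if_pos (by omega), revAt_le h1, show n + B.natDegree - i - n = B.natDegree - i by omega]
      · rw [if_neg (by omega), revAt_eq_self_of_lt (by omega), coeff_eq_zero_of_natDegree_lt (by omega)]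
    have e2 : A.coeff (n + B.natDegree - i) = (if n + B.natDegree - A.natDegree ≤ i then
        A.coeff (revAt A.natDegree (i - (n + B.natDegree - A.natDegree))) else 0) := by
      by_cases h1 : n + B.natDegree - A.natDegree ≤ i
      · rw [if_pos h1, revAt_le (by omega)]
        congr 1
        omega
      · rw [if_neg h1, coeff_eq_zero_of_natDegree_lt (by omega)]
    rw [e1, e2]
    ring
  · rw [revAt_eq_self_of_lt (by omega), revAt_eq_self_of_lt (by omega), if_pos (by omega),
      if_pos (by omega), revAt_eq_self_of_lt (by omega), coeff_eq_zero_of_natDegree_lt (by omega),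
      coeff_eq_zero_of_natDegree_lt (show B.natDegree < i - n by omega),
      coeff_eq_zero_of_natDegree_lt (show B.natDegree < i by omega),
      coeff_eq_zero_of_natDegree_lt (show A.natDegree < i - (n + B.natDegree - A.natDegree) by omega)]

/-- a reciprocal irreducible divisor forces `B = ± A^*` -/
lemma force (f A B : ℤ[X]) (n a : ℕ) (hf : Irreducible f) (hA0 : |A.coeff 0| = 1)
    (hBl : |B.leadingCoeff| = 1) (hB0 : B.coeff 0 ≠ 0) (hAa : A.natDegree ≤ a)
    (hBa : B.natDegree ≤ a) (hn : a < n) (hd : 2 * a < f.natDegree)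
    (hcop : IsCoprime (A.map (Int.castRingHom ℚ)) (B.map (Int.castRingHom ℚ)))
    (hdvd : f ∣ A + X ^ n * B) (hrec : f = f.reverse ∨ f = - f.reverse) :
    ∃ s : ℤ, (s = 1 ∨ s = -1) ∧ B = C s * A.reverse := by
  have hAne : A.coeff 0 ≠ 0 := by
    intro h; rw [h, abs_zero] at hA0; exact zero_ne_one hA0
  have hA : A ≠ 0 := by rintro rfl; simp at hAne
  have hB : B ≠ 0 := by rintro rfl; simp at hB0
  have hfp : Prime f := hf.prime
  have hfX : ¬ f ∣ X := by
    intro h
    have := natDegree_le_of_dvd h X_ne_zero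
    rw [natDegree_X] at this
    -- degree one divisor of `X`
    have h2 : f.natDegree = 1 := by
      rcases Nat.eq_zero_or_pos a with h0 | h0 <;> omega
    obtain ⟨g, hg⟩ := hdvd
    obtain ⟨r, hr⟩ := h
    have h3 : f.coeff 0 * r.coeff 0 = 0 := by
      rw [← mul_coeff_zero, ← hr, coeff_X_zero]
    have h4 : f.coeff 0 * g.coeff 0 = A.coeff 0 := by
      rw [← mul_coeff_zero, ← hg, coeff_add, coeff_X_pow_mul', if_neg (by omega), add_zero]
    have h5 : f.coeff 0 ≠ 0 := by
      intro h; rw [h, zero_mul] at h4; exact hAne h4.symm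
    have h6 : r.coeff 0 = 0 := by
      rcases mul_eq_zero.1 h3 with h | h
      · exact absurd h h5
      · exact h
    have h7 : f.coeff 1 * r.coeff 0 + f.coeff 0 * r.coeff 1 = 1 := by
      have h8 := congrArg (fun p : ℤ[X] => p.coeff 1) hr
      simp only [coeff_X_one] at h8
      rw [h8, coeff_mul]
      simp [Finset.Nat.antidiagonal_succ]
      ring
    have h9 : r ≠ 0 := by rintro rfl; simp at h7
    have h10 := congrArg natDegree hr
    rw [natDegree_X, natDegree_mul hf.ne_zero h9, h2] at h10
    have h11 : r.coeff 1 = 0 := coeff_eq_zero_of_natDegree_lt (by omega)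
    rw [h6, h11] at h7
    simp at h7
  have hfXp : ∀ j, ¬ f ∣ X ^ j := fun j h => hfX (hfp.dvd_of_dvd_pow h)
  have hdr : f ∣ (A + X ^ n * B).reverse := by
    have h1 := rev_dvd hdvd
    rcases hrec with h | h
    · rwa [← h] at h1
    · have : f.reverse = - f := by
        rw [eq_neg_iff_add_eq_zero, add_comm, ← eq_neg_iff_add_eq_zero]; exact h
      rw [this, neg_dvd] at h1
      exact h1
  obtain ⟨hle, hre⟩ := rev_gap A B n hB0 (by omega)
  rw [hre] at hdr
  set a1 := A.natDegree with ha1
  set b1 := B.natDegree with hb1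
  -- the combination
  have hcomb : f ∣ X ^ (n + b1 - a1) * (A * A.reverse) - X ^ n * (B * B.reverse) := by
    have e : X ^ (n + b1 - a1) * (A * A.reverse) - X ^ n * (B * B.reverse) =
        A * (B.reverse + X ^ (n + b1 - a1) * A.reverse) - B.reverse * (A + X ^ n * B) := by ring
    rw [e]
    exact dvd_sub (Dvd.dvd.mul_left hdr _) (Dvd.dvd.mul_left hdvd _)
  have hArd := rev_deg hAne
  have hBrd := rev_deg hB0
  have hAr : A.reverse ≠ 0 := by rw [Ne, reverse_eq_zero]; exact hA
  have hBr : B.reverse ≠ 0 := by rw [Ne, reverse_eq_zero]; exact hB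
  have hAA0 : (A * A.reverse).coeff 0 ≠ 0 := by
    rw [mul_coeff_zero, rev_c0]
    exact mul_ne_zero hAne (leadingCoeff_ne_zero.2 hA)
  have hBB0 : (B * B.reverse).coeff 0 ≠ 0 := by
    rw [mul_coeff_zero, rev_c0]
    exact mul_ne_zero hB0 (leadingCoeff_ne_zero.2 hB)
  have hAAd : (A * A.reverse).natDegree = 2 * a1 := by
    rw [natDegree_mul hA hAr, hArd]; ring
  have hBBd : (B * B.reverse).natDegree = 2 * b1 := by
    rw [natDegree_mul hB hBr, hBrd]; ring
  have hzero : ∀ P : ℤ[X], f ∣ P → P.natDegree ≤ 2 * a → P = 0 := by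
    intro P hP hPd
    by_contra hP0
    have := natDegree_le_of_dvd hP hP0
    omega
  have hab : a1 = b1 := by
    rcases Nat.lt_trichotomy a1 b1 with h | h | h
    · exfalso
      have e : X ^ (n + b1 - a1) * (A * A.reverse) - X ^ n * (B * B.reverse) =
          X ^ n * (X ^ (b1 - a1) * (A * A.reverse) - B * B.reverse) := by
        rw [show n + b1 - a1 = n + (b1 - a1) by omega, pow_add]; ring
      rw [e] at hcomb
      have h1 := (hfp.dvd_or_dvd hcomb).resolve_left (hfXp n)
      have h2 := hzero _ h1 (by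
        refine (natDegree_sub_le _ _).trans (max_le ?_ (by rw [hBBd]; omega))
        rw [natDegree_X_pow_mul _ (mul_ne_zero hA hAr), hAAd]
        omega)
      have h3 := congrArg (fun p : ℤ[X] => p.coeff 0) h2
      simp only [coeff_sub, coeff_X_pow_mul', coeff_zero] at h3
      rw [if_neg (by omega)] at h3
      simp only [zero_sub, neg_eq_zero] at h3
      exact hBB0 h3
    · exact h
    · exfalso
      have e : X ^ (n + b1 - a1) * (A * A.reverse) - X ^ n * (B * B.reverse) =
          X ^ (n + b1 - a1) * (A * A.reverse - X ^ (a1 - b1) * (B * B.reverse)) := by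
        have : (X : ℤ[X]) ^ n = X ^ (n + b1 - a1) * X ^ (a1 - b1) := by
          rw [← pow_add]; congr 1; omega
        rw [this]; ring
      rw [e] at hcomb
      have h1 := (hfp.dvd_or_dvd hcomb).resolve_left (hfXp _)
      have h2 := hzero _ h1 (by
        refine (natDegree_sub_le _ _).trans (max_le (by rw [hAAd]; omega) ?_)
        rw [natDegree_X_pow_mul _ (mul_ne_zero hB hBr), hBBd]
        omega)
      have h3 := congrArg (fun p : ℤ[X] => p.coeff 0) h2
      simp only [coeff_sub, coeff_X_pow_mul', coeff_zero] at h3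
      rw [if_neg (by omega)] at h3
      simp only [sub_zero] at h3
      exact hAA0 h3
  have hAB : A * A.reverse = B * B.reverse := by
    have e : X ^ (n + b1 - a1) * (A * A.reverse) - X ^ n * (B * B.reverse) =
        X ^ n * (A * A.reverse - B * B.reverse) := by
      rw [show n + b1 - a1 = n by omega]; ring
    rw [e] at hcomb
    have h1 := (hfp.dvd_or_dvd hcomb).resolve_left (hfXp n)
    have h2 := hzero _ h1 (by
      refine (natDegree_sub_le _ _).trans (max_le (by rw [hAAd]; omega) (by rw [hBBd]; omega)))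
    exact sub_eq_zero.1 h2
  -- `A` divides `B^*` over the rationals
  have hdq : A.map (Int.castRingHom ℚ) ∣ B.reverse.map (Int.castRingHom ℚ) := by
    refine hcop.dvd_of_dvd_mul_left ?_
    rw [← Polynomial.map_mul, ← hAB, Polynomial.map_mul]
    exact dvd_mul_right _ _
  obtain ⟨c, hc⟩ := hdq
  have hAq : A.map (Int.castRingHom ℚ) ≠ 0 := (Polynomial.map_ne_zero_iff Int.cast_injective).2 hA
  have hBq : B.reverse.map (Int.castRingHom ℚ) ≠ 0 :=
    (Polynomial.map_ne_zero_iff Int.cast_injective).2 hBr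
  have hc0 : c ≠ 0 := by rintro rfl; rw [mul_zero] at hc; exact hBq hc
  have hcd := congrArg natDegree hc
  rw [natDegree_mul hAq hc0, natDegree_ccc, natDegree_ccc, hBrd, ← ha1, ← hb1, hab] at hcd
  obtain ⟨t, ht⟩ := natDegree_eq_zero.1 (show c.natDegree = 0 by omega)
  rw [← ht] at hc
  have hcoef : ∀ i, (B.reverse.coeff i : ℚ) = A.coeff i * t := by
    intro i
    have h1 := congrArg (fun p : ℚ[X] => p.coeff i) hc
    simpa using h1
  have ht1 : |t| = 1 := by
    have h1 := hcoef 0
    rw [rev_c0] at h1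
    have h2 : |(B.leadingCoeff : ℚ)| = 1 := by exact_mod_cast hBl
    have h3 : |(A.coeff 0 : ℚ)| = 1 := by exact_mod_cast hA0
    rw [h1, abs_mul, h3, one_mul] at h2
    exact h2
  obtain ⟨s, hs, hst⟩ : ∃ s : ℤ, (s = 1 ∨ s = -1) ∧ t = s := by
    rcases abs_eq (by norm_num : (0 : ℚ) ≤ 1) |>.1 ht1 with h | h
    · exact ⟨1, Or.inl rfl, by rw [h]; norm_num⟩
    · exact ⟨-1, Or.inr rfl, by rw [h]; norm_num⟩
  refine ⟨s, hs, ?_⟩
  have hBrA : B.reverse = C s * A := by
    ext i
    have h1 := hcoef i
    rw [hst] at h1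
    rw [coeff_C_mul]
    have h2 : (B.reverse.coeff i : ℚ) = ((s * A.coeff i : ℤ) : ℚ) := by
      rw [h1]; push_cast; ring
    exact_mod_cast h2
  have h1 := congrArg reverse hBrA
  rw [rev_rev hB0, reverse_mul_of_domain, reverse_C] at h1
  exact h1

end Pool.Agent.Helper40.GP
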