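import Pool.Agent.Helper46.GP.RZ
import Pool.Agent.Helper40.GP.MI

/-! # The zeros of a separable divisor of `A + s X ^ n A^*` -/

open Polynomial

namespace Pool.Agent.Helper40.GP

open Pool.Agent.Helper46.GP Pool.Agent.Helper88.GP

theorem rzf (hDD : S_DD) (A : ℤ[X]) (s : ℤ) (n d : ℕ) (F0 : ℤ[X]) (hA : Good A)
    (hs : s = 1 ∨ s = -1) (hn : A.natDegree < n) (hdvd : F0 ∣ gp A s n)
    (hsep : (cc F0).Separable) (hd : d = F0.natDegree) (had : A.natDegree ≤ d) :
    ∃ (z : Fin d → ℂ) (ρ : Fin d → ℝ),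
      1 ≤ RR A ∧ 1 ≤ V2 z ∧ (∀ i, (cc A).eval (z i) ≠ 0 ∧ (cc A.reverse).eval (z i) ≠ 0) ∧
      (∏ i, max 1 ‖z i‖) ≤ (cc F0).mahlerMeasure ∧
      ∏ i, HH A (z i) ≤ RR A * (cc F0).mahlerMeasure ^ n ∧
      (∀ i, 0 < ρ i) ∧ (∀ i, ρ i ≤ 1) ∧
      (∀ i, ∀ x ∈ (cc A).roots, ρ i ≤ ‖z i - x‖) ∧
      (∀ i, ∀ x ∈ (cc A.reverse).roots, ρ i ≤ ‖z i - x‖) ∧
      ∑ i, Real.log (1 / ρ i) ≤ 8 * d * Real.log (6 * d) +
        4 * d * (Real.log (cc F0).mahlerMeasure + Real.log (cc A).mahlerMeasure) := by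
  obtain ⟨G, hFG⟩ := hdvd
  have hf0 := gp_ne hA hs hn
  have hF0 : F0 ≠ 0 := by
    rintro rfl
    rw [zero_mul] at hFG
    exact hf0 hFG
  have hG0 : G ≠ 0 := by
    rintro rfl
    rw [mul_zero] at hFG
    exact hf0 hFG
  have hB0 : A.reverse ≠ 0 := by
    rw [Ne, reverse_eq_zero]
    exact Helper46.GP.good_ne hA
  have hcc : cc (gp A s n) = cc F0 * cc G := by
    unfold cc
    rw [hFG, Polynomial.map_mul]
  have hlF : |F0.leadingCoeff| = 1 := by
    have h1 := congrArg leadingCoeff hFG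
    rw [gp_lead hA hs hn, leadingCoeff_mul] at h1
    have h2 : |s * A.coeff 0| = 1 := by
      rw [abs_mul, hA.const, mul_one]
      rcases hs with rfl | rfl <;> norm_num
    rw [h1, abs_mul] at h2
    exact Int.eq_one_or_neg_one_of_mul_eq_one h2 |>.resolve_right (by
      have := abs_nonneg F0.leadingCoeff
      omega)
  have hl : ‖(cc F0).leadingCoeff‖ = 1 := by
    rw [lead_cc, Complex.norm_intCast]
    exact_mod_cast hlF
  have hzf : ∀ x, (cc F0).eval x = 0 → (cc (gp A s n)).eval x = 0 := by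
    intro x hx
    rw [hcc, eval_mul, hx, zero_mul]
  have hBd : A.reverse.natDegree = A.natDegree := Helper88.GP.natDegree_rev hA
  have hMF : 1 ≤ (cc F0).mahlerMeasure := one_le_mahlerMeasure_of_ne_zero hF0
  obtain ⟨z, hz⟩ := Helper46.GP.exists_lists (cc F0) (d := d) ((natDegree_cc F0).trans hd.symm)
  have hzr : ∀ i, (cc F0).eval (z i) = 0 := fun i =>
    (mem_roots (cc_ne hF0)).1 ((mem_lists (cc_ne hF0) hz).2 ⟨i, rfl⟩)
  have hV := v2_ge F0 hF0 hsep hd.symm hz
  rw [hl, one_pow, one_mul] at hV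
  have hPz := mm_lists hF0 hz
  rw [hl, one_mul] at hPz
  -- the product of `|B|`
  have hBp : ∏ i, ‖(cc A.reverse).eval (z i)‖ ≤ RR A := by
    have h1 := res_swap (cc F0) (cc A.reverse)
    rw [hl, one_pow, one_mul, rev_lead_norm hA, one_pow, one_mul,
      prod_lists (cc_ne hF0) hz] at h1
    rw [h1]
    have h2 := int_res A.reverse G hB0 G.natDegree le_rfl (by
      intro x hx h0
      have h3 : (cc A.reverse).eval x = 0 := (mem_roots'.1 hx).2
      have h4 : (cc (gp A s n)).eval x = 0 := by rw [hcc, eval_mul, h0, mul_zero]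
      exact gp_B hA x h4 h3)
    rw [rev_lead_norm hA, one_pow, one_mul] at h2
    have h5 : RR A = ((cc A.reverse).roots.map fun y => ‖(cc F0).eval y‖).prod *
        ((cc A.reverse).roots.map fun y => ‖(cc G).eval y‖).prod := by
      rw [← Multiset.prod_map_mul]
      unfold RR
      congr 1
      refine Multiset.map_congr rfl fun y hy => ?_
      have h3 : (cc A.reverse).eval y = 0 := (mem_roots'.1 hy).2
      have h4 := gp_eval (A := A) (s := s) (n := n) y
      rw [h3, mul_zero, add_zero, hcc, eval_mul] at h4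
      rw [← h4, norm_mul]
    rw [h5]
    refine le_mul_of_one_le_right ?_ h2
    apply Multiset.prod_nonneg
    intro b hb
    obtain ⟨y, -, rfl⟩ := Multiset.mem_map.1 hb
    exact norm_nonneg _
  have hd1 : d ≤ d := le_rfl
  obtain ⟨ρ1, h1, h2, h3, h4⟩ := ro1 hDD F0 A d d hd.symm hF0 hl hsep hA.deg
    had hd1 (fun x hx => gp_A hA hs x (hzf x hx)) hz
  obtain ⟨ρ2, h5, h6, h7, h8⟩ := ro1 hDD F0 A.reverse d d hd.symm hF0 hl hsep
    (by rw [hBd]; exact hA.deg) (by rw [hBd]; exact had) hd1 (fun x hx => gp_B hA x (hzf x hx)) hz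
  rw [mm_rev (Helper46.GP.good_ne hA)] at h8
  refine ⟨z, fun i => min (ρ1 i) (ρ2 i), rr_ge hA, hV, fun i =>
    ⟨gp_A hA hs _ (hzf _ (hzr i)), gp_B hA _ (hzf _ (hzr i))⟩, ?_, ?_, fun i => lt_min (h1 i) (h5 i),
    fun i => (min_le_left _ _).trans (h2 i), fun i x hx => (min_le_left _ _).trans (h3 i x hx),
    fun i x hx => (min_le_right _ _).trans (h7 i x hx), ?_⟩
  · rw [← hPz]
  · have h9 : ∏ i, HH A (z i) = (∏ i, ‖(cc A.reverse).eval (z i)‖) *
        (∏ i, max 1 ‖z i‖) ^ n := by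
      rw [← Finset.prod_pow, ← Finset.prod_mul_distrib]
      exact Finset.prod_congr rfl fun i _ => gp_HH hs _ (hzf _ (hzr i))
    rw [h9, ← hPz]
    exact mul_le_mul_of_nonneg_right hBp (by positivity)
  · have hb : ∀ i, Real.log (1 / min (ρ1 i) (ρ2 i)) ≤
        Real.log (1 / ρ1 i) + Real.log (1 / ρ2 i) := by
      intro i
      have l1 : 0 ≤ Real.log (1 / ρ1 i) :=
        Real.log_nonneg ((one_le_div (h1 i)).2 (h2 i))
      have l2 : 0 ≤ Real.log (1 / ρ2 i) :=
        Real.log_nonneg ((one_le_div (h5 i)).2 (h6 i))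
      rcases min_choice (ρ1 i) (ρ2 i) with h | h <;> rw [h] <;> linarith
    refine (Finset.sum_le_sum fun i _ => hb i).trans ?_
    rw [Finset.sum_add_distrib]
    linarith

end Pool.Agent.Helper40.GP
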