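import Mathlib

/-!
# Polynomials with a central gap: statements of the packages

`f = A + s X ^ n A^*`, `A^* = A.reverse`, `a = deg A`, `d = n + a = deg f`, `|A(0)| = 1`.
`P_v = A ^ k - v (A^*) ^ k`, `‖v‖ = 1`; `J = A (A^*)' - A' A^*`.
-/

open Polynomial

namespace Pool.Agent.Helper40.GP

/-- the product of the distances over the ordered pairs of distinct indices -/
noncomputable def V2 {ι : Type} [Fintype ι] [DecidableEq ι] (z : ι → ℂ) : ℝ :=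
  ∏ i, ∏ j ∈ Finset.univ.erase i, ‖z i - z j‖

/-- an integer polynomial as a complex polynomial -/
noncomputable def cc (A : ℤ[X]) : ℂ[X] := A.map (Int.castRingHom ℂ)

/-- `z` lists the complex zeros of `F` with multiplicity -/
def Lists (F : ℂ[X]) {d : ℕ} (z : Fin d → ℂ) : Prop :=
  F = C F.leadingCoeff * ∏ i, (X - C (z i))

/-- the gap polynomial -/
noncomputable def gp (A : ℤ[X]) (s : ℤ) (n : ℕ) : ℤ[X] := A + C s * X ^ n * A.reverse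

/-- the pencil `A ^ k - v (A^*) ^ k` -/
noncomputable def PP (A : ℤ[X]) (k : ℕ) (v : ℂ) : ℂ[X] := cc A ^ k - C v * cc A.reverse ^ k

/-- the Wronskian -/
noncomputable def JJ (A : ℤ[X]) : ℤ[X] := A * derivative A.reverse - derivative A * A.reverse

/-- `max (|A(x)|, |A^*(x)|)` -/
noncomputable def HH (A : ℤ[X]) (x : ℂ) : ℝ := max ‖(cc A).eval x‖ ‖(cc A.reverse).eval x‖

/-- the absolute value of the resultant of `A` and `A^*` (`A^*` is monic up to sign) -/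
noncomputable def RR (A : ℤ[X]) : ℝ := ((cc A.reverse).roots.map fun b => ‖(cc A).eval b‖).prod

/-- standing hypotheses on `A` -/
structure Good (A : ℤ[X]) : Prop where
  deg : 1 ≤ A.natDegree
  const : |A.coeff 0| = 1
  cop : IsCoprime (A.map (Int.castRingHom ℚ)) (A.reverse.map (Int.castRingHom ℚ))

/-! ## CV: the Cauchy-Vandermonde inequality -/

def S_CV : Prop := ∀ (d q : ℕ) (z : Fin d → ℂ) (y : Fin q → ℂ) (B : Fin d → ℝ), q ≤ d →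
  (∀ i j, z i ≠ y j) → (∀ i, 1 ≤ B i) → (∀ i j, 1 ≤ B i * ‖z i - y j‖) →
  V2 z * V2 y * (∏ j, (max 1 ‖y j‖)) ^ (2 * (d - q)) ≤
    (∏ i, ∏ j, ‖z i - y j‖) ^ 2 * (d.factorial : ℝ) ^ 2 *
      (∏ i, (max 1 ‖z i‖)) ^ (2 * (d - q)) * (∏ i, B i) ^ 2

/-! ## DD: Vandermonde with divided differences -/

def S_DD : Prop := ∀ (d a : ℕ) (z : Fin d → ℂ) (x : Fin a → ℂ) (g : Fin d → Fin a)
  (T : Finset (Fin d)), (∀ i ∈ T, z i ≠ x (g i)) → (∀ i ∈ T, ‖z i - x (g i)‖ * (d + a : ℕ) ≤ 1) →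
  V2 z * V2 x * (∏ i, ∏ j, ‖z i - x j‖) ^ 2 ≤
    ((d + a).factorial : ℝ) ^ 2 * (∏ i ∈ T, ‖z i - x (g i)‖) ^ 2 * (3 * (d + a : ℕ) : ℝ) ^ (2 * d) *
      (∏ i, (max 1 ‖z i‖)) ^ (2 * (d + a)) * (∏ j, (max 1 ‖x j‖)) ^ (2 * (d + a))

/-! ## DI: the distance of a point to the zeros of `A ^ k - v B ^ k` -/

def S_DI : Prop := ∀ (A B : ℂ[X]) (k a : ℕ) (v z y : ℂ) (ρ : ℝ), 1 ≤ k → 1 ≤ a →
  A.natDegree ≤ a → B.natDegree ≤ a → ‖v‖ = 1 → 0 < ρ → ρ ≤ 1 → A ≠ 0 → B ≠ 0 →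
  (∀ x ∈ A.roots, ρ ≤ ‖z - x‖) → (∀ x ∈ B.roots, ρ ≤ ‖z - x‖) →
  (A ^ k - C v * B ^ k).eval y = 0 →
  ρ * ‖(A ^ k - C v * B ^ k).eval z‖ ≤
    4 * k * a * (max ‖A.eval z‖ ‖B.eval z‖) ^ k * ‖z - y‖

/-! ## AV: averaging over the circle -/

def S_AV : Prop := ∀ (m : ℕ) (c c' : Fin m → ℂ) (w : Fin m → ℝ) (W : ℝ) (P Q : ℂ[X]) (S : Set ℂ),
  (∀ i, c i ≠ 0 ∨ c' i ≠ 0) → (∀ i, 0 ≤ w i) → 0 ≤ W → P ≠ 0 →
  (∀ x : ℂ, ‖x‖ = 1 → ‖P.eval x‖ = ‖Q.eval x‖) → S.Finite →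
  ∃ v : ℂ, ‖v‖ = 1 ∧ v ∉ S ∧ (∀ i, c i - v * c' i ≠ 0) ∧ P - C v * Q ≠ 0 ∧
    ∑ i, w i * Real.log (max ‖c i‖ ‖c' i‖) + W * Real.log P.mahlerMeasure ≤
      ∑ i, w i * Real.log ‖c i - v * c' i‖ + W * Real.log (P - C v * Q).mahlerMeasure

/-! ## JB: the zeros of the Wronskian -/

def S_JB : Prop := ∀ A : ℤ[X], Good A → JJ A ≠ 0 ∧ (JJ A).natDegree ≤ 2 * A.natDegree - 2 ∧
  (∀ x : ℂ, 0 < HH A x) ∧
  -(2 * A.natDegree * Real.log (2 * A.natDegree)) ≤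
    A.natDegree * Real.log |((JJ A).leadingCoeff : ℝ)| +
      ((cc (JJ A)).roots.map fun x => Real.log (HH A x)).sum

/-! ## RE: the values at the zeros of `f`, and the lower bound for the resultant -/

def S_RE : Prop := ∀ (A : ℤ[X]) (s : ℤ) (n : ℕ), Good A → (s = 1 ∨ s = -1) → A.natDegree < n →
  1 ≤ RR A ∧ (gp A s n).natDegree = n + A.natDegree ∧ |(gp A s n).leadingCoeff| = 1 ∧
  ∀ z : Fin (n + A.natDegree) → ℂ, Lists (cc (gp A s n)) z →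
    (∏ i, max 1 ‖z i‖) = (cc (gp A s n)).mahlerMeasure ∧
    (∀ i, (cc A).eval (z i) ≠ 0 ∧ (cc A.reverse).eval (z i) ≠ 0) ∧
    ∏ i, HH A (z i) = RR A * (cc (gp A s n)).mahlerMeasure ^ n

/-! ## VY: the discriminant of the pencil -/

def S_VY : Prop := ∀ (A : ℤ[X]) (k : ℕ) (v : ℂ), Good A → 2 ≤ k → ‖v‖ = 1 →
  (PP A k v).coeff (k * A.natDegree) ≠ 0 →
  (PP A k v).natDegree = k * A.natDegree ∧
  ∀ y : Fin (k * A.natDegree) → ℂ, Lists (PP A k v) y →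
    (∏ j, max 1 ‖y j‖) * ‖(PP A k v).leadingCoeff‖ = (PP A k v).mahlerMeasure ∧
    V2 y * ‖(PP A k v).leadingCoeff‖ ^ (2 * k * A.natDegree - 2 * A.natDegree +
        (JJ A).natDegree) =
      (k : ℝ) ^ (k * A.natDegree) * RR A ^ (k * (k - 2)) *
        |((JJ A).leadingCoeff : ℝ)| ^ (k * A.natDegree) *
        ((cc (JJ A)).roots.map fun x => ‖(PP A k v).eval x‖).prod

/-! ## RO: the zeros of `f` are not close to the zeros of `A` and `A^*` -/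

def S_RO : Prop := ∀ (A : ℤ[X]) (s : ℤ) (n : ℕ), Good A → (s = 1 ∨ s = -1) → A.natDegree < n →
  (cc (gp A s n)).Separable →
  ∃ (z : Fin (n + A.natDegree) → ℂ) (ρ : Fin (n + A.natDegree) → ℝ), Lists (cc (gp A s n)) z ∧
    1 ≤ V2 z ∧ (∀ i, 0 < ρ i) ∧ (∀ i, ρ i ≤ 1) ∧
    (∀ i, ∀ x ∈ (cc A).roots, ρ i ≤ ‖z i - x‖) ∧
    (∀ i, ∀ x ∈ (cc A.reverse).roots, ρ i ≤ ‖z i - x‖) ∧
    ∑ i, Real.log (1 / ρ i) ≤ 8 * (n + A.natDegree : ℕ) * Real.log (6 * (n + A.natDegree : ℕ)) +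
      4 * (n + A.natDegree : ℕ) * (Real.log (cc (gp A s n)).mahlerMeasure +
        Real.log (cc A).mahlerMeasure)

/-! ## MI: the main inequality -/

def S_MI : Prop := ∀ (A : ℤ[X]) (s : ℤ) (n k d : ℕ), Good A → (s = 1 ∨ s = -1) →
  A.natDegree < n → (cc (gp A s n)).Separable → 4 ≤ k → d = n + A.natDegree →
  k * A.natDegree ≤ d →
  (k : ℝ) * ((d : ℝ) - k * A.natDegree) * Real.log (cc A).mahlerMeasure ≤
    ((d : ℝ) - k * A.natDegree + k * n) * Real.log (cc (gp A s n)).mahlerMeasure +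
    d * Real.log d + k * A.natDegree * Real.log (2 * A.natDegree) +
    d * Real.log (4 * k * A.natDegree) +
    (8 * d * Real.log (6 * d) + 4 * d * (Real.log (cc (gp A s n)).mahlerMeasure +
        Real.log (cc A).mahlerMeasure))

/-! ## EP: from the main inequality to a lower bound (pure real analysis) -/

def S_EP : Prop := S_MI → ∀ (μ ε : ℝ), 1 < μ → 0 < ε → ∃ δ : ℝ, 0 < δ ∧ δ ≤ 1 / 4 ∧
  ∀ (A : ℤ[X]) (s : ℤ) (n d : ℕ), Good A → (s = 1 ∨ s = -1) → A.natDegree < n →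
    (cc (gp A s n)).Separable → d = n + A.natDegree → (A.natDegree : ℝ) * Real.log d ≤ δ * d →
    μ ≤ (cc A).mahlerMeasure → μ - ε ≤ (cc (gp A s n)).mahlerMeasure

/-! ## RED: irreducible polynomials with a central gap -/

/-- all nonzero coefficients are among the first and the last ones -/
def CentralGap (δ : ℝ) (f : ℤ[X]) : Prop :=
  ∀ i : ℕ, δ * f.natDegree < i * Real.log f.natDegree →
    δ * f.natDegree < (f.natDegree - i : ℝ) * Real.log f.natDegree → f.coeff i = 0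

def S_RED : Prop := ∀ (f : ℤ[X]) (δ : ℝ), Irreducible f → 1 < (cc f).mahlerMeasure →
  0 < δ → δ ≤ 1 / 4 → CentralGap δ f →
  2 ≤ (cc f).mahlerMeasure ∨
  (f.Monic ∨ (-f).Monic) ∧ |f.coeff 0| = 1 ∧ (f ≠ f.reverse ∧ f ≠ - f.reverse) ∨
  ∃ (A : ℤ[X]) (s : ℤ) (n : ℕ), f = gp A s n ∧ Good A ∧ (s = 1 ∨ s = -1) ∧ A.natDegree < n ∧
    f.natDegree = n + A.natDegree ∧
    (A.natDegree : ℝ) * Real.log f.natDegree ≤ δ * f.natDegree ∧ (cc f).Separable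

/-! ## SM: the theorem of Smyth -/

def S_SM : Prop := ∀ P : ℤ[X], P.Monic → |P.coeff 0| = 1 → P ≠ P.reverse → P ≠ - P.reverse →
  (cc (X ^ 3 - X - 1)).mahlerMeasure ≤ (cc P).mahlerMeasure

/-! ## the theorem -/

def S_TH : Prop := ∀ ε : ℝ, 0 < ε → ∃ δ : ℝ, 0 < δ ∧ ∀ f : ℤ[X], Irreducible f →
  1 < (cc f).mahlerMeasure → CentralGap δ f →
  (cc (X ^ 3 - X - 1)).mahlerMeasure - ε ≤ (cc f).mahlerMeasure

end Pool.Agent.Helper40.GP
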